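import Pool.Agent.L5helper93.CE.Defs

set_option autoImplicit false

noncomputable section

open MeasureTheory Matrix Filter Topology
open scoped ContDiff

namespace Pool.Agent.L5helper93.CE

theorem isCompact_Cube : IsCompact Cube := by
  have h1 : IsClosed Cube := by
    have : Cube = ⋂ i, {x : P3 | 0 ≤ x i ∧ x i ≤ 1} := by ext x; simp [Cube]
    rw [this]
    refine isClosed_iInter fun i => ?_
    have hc : Continuous fun x : P3 => x i := by fun_prop
    exact (isClosed_le continuous_const hc).inter (isClosed_le hc continuous_const)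
  refine Metric.isCompact_of_isClosed_isBounded h1 ?_
  refine (Metric.isBounded_closedBall (x := (0 : P3)) (r := 2)).subset fun x hx => ?_
  rw [mem_closedBall_zero_iff, EuclideanSpace.norm_eq]
  have h2 : ∑ i, ‖x i‖ ^ 2 ≤ 4 := by
    calc ∑ i, ‖x i‖ ^ 2 ≤ ∑ i : Fin 3, (1 : ℝ) := by
          refine Finset.sum_le_sum fun i _ => ?_
          rw [Real.norm_eq_abs, sq_abs]
          nlinarith [(hx i).1, (hx i).2]
      _ ≤ 4 := by simp; norm_num
  calc Real.sqrt (∑ i, ‖x i‖ ^ 2) ≤ Real.sqrt 4 := Real.sqrt_le_sqrt h2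
    _ = 2 := by rw [show (4 : ℝ) = 2 ^ 2 by norm_num, Real.sqrt_sq (by norm_num)]

theorem measurableSet_Cube : MeasurableSet Cube := isCompact_Cube.isClosed.measurableSet

theorem Cube_sub {x : P3} (hx : x ∈ Cube) : x ∈ Slab := hx 0

theorem integrableOn_Cube {f : P3 → ℝ} (hf : ContinuousOn f Cube) : IntegrableOn f Cube :=
  hf.integrableOn_compact isCompact_Cube

theorem IsSmooth.cd {f : P3 → ℝ} (h : IsSmooth f) : ContDiff ℝ ∞ f := h.1

theorem IsSmooth.cont {f : P3 → ℝ} (h : IsSmooth f) : Continuous f := h.1.continuous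

theorem IsSmooth.diff {f : P3 → ℝ} (h : IsSmooth f) : Differentiable ℝ f :=
  h.1.differentiable (by simp)

theorem IsSmooth.pd {f : P3 → ℝ} (h : IsSmooth f) (i : Fin 3) : IsSmooth (pd i f) := by
  refine ⟨?_, fun x => ⟨?_, ?_⟩⟩
  · exact (h.1.fderiv_right (m := ∞) (by simp)).clm_apply contDiff_const
  · have : (fun y => f (y + bv 1)) = f := funext fun y => (h.2 y).1
    unfold CE.pd
    rw [← fderiv_comp_add_right, this]
  · have : (fun y => f (y + bv 2)) = f := funext fun y => (h.2 y).2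
    unfold CE.pd
    rw [← fderiv_comp_add_right, this]

theorem IsSmooth.add {f g : P3 → ℝ} (h : IsSmooth f) (h' : IsSmooth g) :
    IsSmooth fun x => f x + g x :=
  ⟨h.1.add h'.1, fun x => ⟨by simp only [(h.2 x).1, (h'.2 x).1], by simp only [(h.2 x).2, (h'.2 x).2]⟩⟩

theorem IsSmooth.sub {f g : P3 → ℝ} (h : IsSmooth f) (h' : IsSmooth g) :
    IsSmooth fun x => f x - g x :=
  ⟨h.1.sub h'.1, fun x => ⟨by simp only [(h.2 x).1, (h'.2 x).1], by simp only [(h.2 x).2, (h'.2 x).2]⟩⟩

theorem IsSmooth.mul {f g : P3 → ℝ} (h : IsSmooth f) (h' : IsSmooth g) :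
    IsSmooth fun x => f x * g x :=
  ⟨h.1.mul h'.1, fun x => ⟨by simp only [(h.2 x).1, (h'.2 x).1], by simp only [(h.2 x).2, (h'.2 x).2]⟩⟩

theorem IsSmooth.const (c : ℝ) : IsSmooth fun _ => c := ⟨contDiff_const, fun _ => ⟨rfl, rfl⟩⟩

theorem isSmooth_zero_coord {f : ℝ → ℝ} (hf : ContDiff ℝ ∞ f) : IsSmooth fun x => f (x 0) := by
  refine ⟨hf.comp (by fun_prop), fun x => ⟨?_, ?_⟩⟩ <;> simp [bv]

theorem pd_add {f g : P3 → ℝ} (h : IsSmooth f) (h' : IsSmooth g) (i : Fin 3) (x : P3) :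
    pd i (fun y => f y + g y) x = pd i f x + pd i g x := by
  unfold pd
  rw [fderiv_fun_add (h.diff x) (h'.diff x)]; rfl

theorem pd_sub {f g : P3 → ℝ} (h : IsSmooth f) (h' : IsSmooth g) (i : Fin 3) (x : P3) :
    pd i (fun y => f y - g y) x = pd i f x - pd i g x := by
  unfold pd
  rw [fderiv_fun_sub (h.diff x) (h'.diff x)]; rfl

theorem pd_smul {f : P3 → ℝ} (h : IsSmooth f) (c : ℝ) (i : Fin 3) (x : P3) :
    pd i (fun y => c * f y) x = c * pd i f x := by
  unfold pd
  rw [fderiv_const_mul (h.diff x)]; rfl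

theorem IsTest.add {f g : P3 → ℝ} (h : IsTest f) (h' : IsTest g) : IsTest fun x => f x + g x := by
  obtain ⟨h1, δ, hδ, h2⟩ := h
  obtain ⟨h1', δ', hδ', h2'⟩ := h'
  refine ⟨h1.add h1', min δ δ', lt_min hδ hδ', fun x hx => ?_⟩
  show f x + g x = 0
  rw [h2 x (by rcases hx with hx | hx
               · exact Or.inl (lt_of_lt_of_le hx (min_le_left _ _))
               · right; linarith [min_le_left δ δ']),
    h2' x (by rcases hx with hx | hx
              · exact Or.inl (lt_of_lt_of_le hx (min_le_right _ _))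
              · right; linarith [min_le_right δ δ']), add_zero]

theorem IsTest.smul {f : P3 → ℝ} (h : IsTest f) (c : ℝ) : IsTest fun x => c * f x := by
  obtain ⟨h1, δ, hδ, h2⟩ := h
  exact ⟨(IsSmooth.const c).mul h1, δ, hδ, fun x hx => by show c * f x = 0; rw [h2 x hx, mul_zero]⟩

theorem IsTest.sub {f g : P3 → ℝ} (h : IsTest f) (h' : IsTest g) : IsTest fun x => f x - g x := by
  have h3 := h.add (h'.smul (-1))
  have : (fun x => f x - g x) = fun x => f x + (-1) * g x := by funext x; ring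
  rw [this]; exact h3

theorem IsTest.smooth {f : P3 → ℝ} (h : IsTest f) : IsSmooth f := h.1

end Pool.Agent.L5helper93.CE
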