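import Pool.Agent.L5helper93.CE.Basic

set_option autoImplicit false

noncomputable section

open MeasureTheory Matrix Filter Topology
open scoped ContDiff

namespace Pool.Agent.L5helper93.CE

theorem CoefA_g (G : Metric) (i j : Fin 3) : Continuous fun x => G.g x i j := (G.smooth i j).cont

theorem CoefA_gm (G : Metric) : Continuous G.g := by
  refine continuous_pi fun i => continuous_pi fun j => CoefA_g G i j

theorem CoefA_det (G : Metric) : Continuous fun x => (G.g x).det := (CoefA_gm G).matrix_det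

theorem CoefA_detpos (G : Metric) {x : P3} (hx : x ∈ Cube) : 0 < (G.g x).det :=
  (G.pos x (Cube_sub hx)).det_pos

theorem CoefA_inv (G : Metric) (i j : Fin 3) : ContinuousOn (fun x => G.inv x i j) Cube := by
  have h : (fun x => G.inv x i j) = fun x => (G.g x).det⁻¹ * (G.g x).adjugate i j := by
    funext x
    simp only [Metric.inv, Matrix.inv_def, Ring.inverse_eq_inv', Matrix.smul_apply, smul_eq_mul]
  rw [h]
  refine ContinuousOn.mul ((CoefA_det G).continuousOn.inv₀ fun x hx => (CoefA_detpos G hx).ne') ?_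
  exact (((CoefA_gm G).matrix_adjugate).matrix_elem i j).continuousOn

theorem CoefA_vol (G : Metric) : Continuous G.vol := (CoefA_det G).sqrt

theorem CoefA_volpos (G : Metric) {x : P3} (hx : x ∈ Cube) : 0 < G.vol x :=
  Real.sqrt_pos.mpr (CoefA_detpos G hx)

theorem CoefA_d1 (G : Metric) (k i j : Fin 3) : Continuous (G.d1 k i j) :=
  ((G.smooth i j).pd k).cont

theorem CoefA_d2 (G : Metric) (k l i j : Fin 3) : Continuous (G.d2 k l i j) :=
  (((G.smooth i j).pd l).pd k).cont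

theorem CoefA_chr (G : Metric) (m k l : Fin 3) : Continuous (G.chr m k l) := by
  unfold Metric.chr
  exact (((CoefA_d1 G k l m).add (CoefA_d1 G l k m)).sub (CoefA_d1 G m k l)).div_const 2

theorem CoefA_Gam (G : Metric) (n k l : Fin 3) : ContinuousOn (G.Gam n k l) Cube := by
  unfold Metric.Gam
  exact continuousOn_finset_sum _ fun m _ => (CoefA_inv G n m).mul (CoefA_chr G m k l).continuousOn

theorem CoefA_Riem (G : Metric) (i k l m : Fin 3) : ContinuousOn (G.Riem i k l m) Cube := by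
  unfold Metric.Riem
  refine ContinuousOn.add ?_ ?_
  · exact (((((CoefA_d2 G k l i m).add (CoefA_d2 G i m k l)).sub (CoefA_d2 G k m i l)).sub
      (CoefA_d2 G i l k m)).div_const 2).continuousOn
  · refine continuousOn_finset_sum _ fun n _ => continuousOn_finset_sum _ fun p _ => ?_
    exact (CoefA_g G n p).continuousOn.mul (((CoefA_Gam G n k l).mul (CoefA_Gam G p i m)).sub
      ((CoefA_Gam G n k m).mul (CoefA_Gam G p i l)))

theorem CoefA_scal (G : Metric) : ContinuousOn G.scal Cube := by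
  unfold Metric.scal
  refine continuousOn_finset_sum _ fun i _ => continuousOn_finset_sum _ fun k _ =>
    continuousOn_finset_sum _ fun l _ => continuousOn_finset_sum _ fun m _ => ?_
  exact ((CoefA_inv G i l).mul (CoefA_inv G k m)).mul (CoefA_Riem G i k l m)

theorem met_cont (G : Metric) : (∀ i j, ContinuousOn (fun x => G.inv x i j * G.vol x) Cube) ∧
    ContinuousOn (fun x => 1 / 8 * G.scal x * G.vol x) Cube :=
  ⟨fun i j => (CoefA_inv G i j).mul (CoefA_vol G).continuousOn,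
    (continuousOn_const.mul (CoefA_scal G)).mul (CoefA_vol G).continuousOn⟩

theorem CoefA_upper (A : Matrix (Fin 3) (Fin 3) ℝ) {T : ℝ} (h : ∑ i, ∑ j, |A i j| ≤ T)
    (p : Fin 3 → ℝ) : p ⬝ᵥ (A *ᵥ p) ≤ T * (p ⬝ᵥ p) := by
  have h0 : 0 ≤ p ⬝ᵥ p := by
    simp only [dotProduct]; exact Finset.sum_nonneg fun i _ => mul_self_nonneg _
  have h1 : ∀ i, p i ^ 2 ≤ p ⬝ᵥ p := fun i => by
    simp only [dotProduct]
    rw [sq]
    exact Finset.single_le_sum (f := fun i => p i * p i) (fun i _ => mul_self_nonneg _)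
      (Finset.mem_univ i)
  calc p ⬝ᵥ (A *ᵥ p) = ∑ i, ∑ j, A i j * (p i * p j) := by
        simp only [dotProduct, mulVec, Finset.mul_sum]
        refine Finset.sum_congr rfl fun i _ => Finset.sum_congr rfl fun j _ => by ring
    _ ≤ ∑ i, ∑ j, |A i j| * (p ⬝ᵥ p) := by
        refine Finset.sum_le_sum fun i _ => Finset.sum_le_sum fun j _ => ?_
        calc A i j * (p i * p j) ≤ |A i j * (p i * p j)| := le_abs_self _
          _ = |A i j| * |p i * p j| := abs_mul _ _
          _ ≤ |A i j| * (p ⬝ᵥ p) := by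
            refine mul_le_mul_of_nonneg_left ?_ (abs_nonneg _)
            rw [abs_le]
            constructor <;> nlinarith [h1 i, h1 j, sq_nonneg (p i + p j), sq_nonneg (p i - p j)]
    _ = (∑ i, ∑ j, |A i j|) * (p ⬝ᵥ p) := by
        rw [Finset.sum_mul]; exact Finset.sum_congr rfl fun i _ => (Finset.sum_mul _ _ _).symm
    _ ≤ T * (p ⬝ᵥ p) := mul_le_mul_of_nonneg_right h h0

theorem CoefA_lower {A : Matrix (Fin 3) (Fin 3) ℝ} (hA : A.PosDef) {T : ℝ} (hT : 0 < T)
    (h : ∑ i, ∑ j, |A i j| ≤ T) (p : Fin 3 → ℝ) :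
    (∑ i, p i ^ 2) / T ≤ ∑ i, ∑ j, A⁻¹ i j * p i * p j := by
  have hdet : IsUnit A.det := hA.det_pos.ne'.isUnit
  set q : Fin 3 → ℝ := A⁻¹ *ᵥ p with hq
  have hAq : A *ᵥ q = p := by
    rw [hq, mulVec_mulVec, mul_nonsing_inv _ hdet, one_mulVec]
  have hsymm : Aᵀ = A := by
    have := hA.1
    rwa [IsHermitian, conjTranspose_eq_transpose_of_trivial] at this
  have hcross : q ⬝ᵥ (A *ᵥ p) = p ⬝ᵥ p := by
    rw [dotProduct_mulVec, ← mulVec_transpose, hsymm, hAq]
  have hup := CoefA_upper A h p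
  have hpos := hA.posSemidef.dotProduct_mulVec_nonneg (q - (1 / T) • p)
  rw [star_trivial, mulVec_sub, mulVec_smul, hAq, sub_dotProduct, dotProduct_sub, dotProduct_sub,
    smul_dotProduct, smul_dotProduct, dotProduct_smul, dotProduct_smul, hcross] at hpos
  simp only [smul_eq_mul] at hpos
  have hpp : p ⬝ᵥ p = ∑ i, p i ^ 2 := by
    simp only [dotProduct]; exact Finset.sum_congr rfl fun i _ => (sq _).symm
  have hqp : q ⬝ᵥ p = ∑ i, ∑ j, A⁻¹ i j * p i * p j := by
    simp only [hq, dotProduct, mulVec, Finset.sum_mul]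
    refine Finset.sum_congr rfl fun i _ => Finset.sum_congr rfl fun j _ => by ring
  rw [← hpp, ← hqp]
  have h3 : 1 / T * (1 / T * (p ⬝ᵥ (A *ᵥ p))) ≤ 1 / T * (p ⬝ᵥ p) := by
    refine mul_le_mul_of_nonneg_left ?_ (by positivity)
    rw [one_div, inv_mul_le_iff₀ hT]; exact hup
  have h4 : (p ⬝ᵥ p) / T = 1 / T * (p ⬝ᵥ p) := by ring
  rw [h4]
  linarith

theorem CoefA_bdd {f : P3 → ℝ} (hf : ContinuousOn f Cube) : ∃ C : ℝ, ∀ x ∈ Cube, |f x| ≤ C := by
  obtain ⟨C, hC⟩ := isCompact_Cube.exists_bound_of_continuousOn hf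
  exact ⟨C, fun x hx => by simpa using hC x hx⟩

theorem CoefA_zero : (0 : P3) ∈ Cube := fun i => by simp

theorem met_bound (G : Metric) : ∃ c C : ℝ, 0 < c ∧ 0 < C ∧ ∀ x ∈ Cube, ∀ (p : Fin 3 → ℝ) (u : ℝ),
    c * ∑ i, p i ^ 2 - C * u ^ 2 ≤ G.dens x p u p u := by
  obtain ⟨T₀, hT₀⟩ := CoefA_bdd (f := fun x => ∑ i, ∑ j, |G.g x i j|)
    (continuous_finset_sum _ fun i _ => continuous_finset_sum _ fun j _ =>
      (CoefA_g G i j).abs).continuousOn
  obtain ⟨C₀, hC₀⟩ := CoefA_bdd (met_cont G).2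
  obtain ⟨x₀, hx₀, hmin⟩ := isCompact_Cube.exists_isMinOn ⟨0, CoefA_zero⟩ (CoefA_vol G).continuousOn
  have hv : 0 < G.vol x₀ := CoefA_volpos G hx₀
  have hT : 0 < |T₀| + 1 := by positivity
  have hC0 : 0 ≤ C₀ := (abs_nonneg _).trans (hC₀ 0 CoefA_zero)
  refine ⟨G.vol x₀ / (|T₀| + 1), C₀ + 1, by positivity, by positivity, fun x hx p u => ?_⟩
  have h1 := CoefA_lower (G.pos x (Cube_sub hx)) hT
    (((le_abs_self _).trans (hT₀ x hx)).trans ((le_abs_self T₀).trans (by linarith))) p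
  have h2 : G.vol x₀ ≤ G.vol x := hmin hx
  have h3 := hC₀ x hx
  have h4 : 0 ≤ ∑ i, p i ^ 2 := Finset.sum_nonneg fun i _ => sq_nonneg _
  have h5 : G.dens x p u p u = (∑ i, ∑ j, (G.g x)⁻¹ i j * p i * p j) * G.vol x +
      1 / 8 * G.scal x * G.vol x * u ^ 2 := by
    simp only [Metric.dens, Metric.inv]; ring
  rw [h5]
  have h6 : G.vol x₀ / (|T₀| + 1) * ∑ i, p i ^ 2 ≤
      (∑ i, ∑ j, (G.g x)⁻¹ i j * p i * p j) * G.vol x := by
    calc G.vol x₀ / (|T₀| + 1) * ∑ i, p i ^ 2 = ((∑ i, p i ^ 2) / (|T₀| + 1)) * G.vol x₀ := by ring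
      _ ≤ ((∑ i, p i ^ 2) / (|T₀| + 1)) * G.vol x :=
        mul_le_mul_of_nonneg_left h2 (by positivity)
      _ ≤ _ := mul_le_mul_of_nonneg_right h1 (CoefA_volpos G hx).le
  have h7 : -((C₀ + 1) * u ^ 2) ≤ 1 / 8 * G.scal x * G.vol x * u ^ 2 := by
    have h8 := (abs_le.mp h3).1
    nlinarith [sq_nonneg u]
  linarith

end Pool.Agent.L5helper93.CE
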