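import Pool.Agent.L5helper93.CE.CoefA

set_option autoImplicit false

noncomputable section

open MeasureTheory Matrix Filter Topology
open scoped ContDiff

namespace Pool.Agent.L5helper93.CE

/-- the 2-jets of metrics -/
abbrev CoefB_J : Type := (Fin 3 → Fin 3 → ℝ) × (Fin 3 → Fin 3 → Fin 3 → ℝ) ×
  (Fin 3 → Fin 3 → Fin 3 → Fin 3 → ℝ)

def CoefB_jet (G : Metric) (x : P3) : CoefB_J :=
  (fun i j => G.g x i j, fun k i j => G.d1 k i j x, fun k l i j => G.d2 k l i j x)

def CoefB_inv (a : CoefB_J) : Matrix (Fin 3) (Fin 3) ℝ := (Matrix.of a.1)⁻¹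

def CoefB_chr (a : CoefB_J) (m k l : Fin 3) : ℝ :=
  (a.2.1 k l m + a.2.1 l k m - a.2.1 m k l) / 2

def CoefB_Gam (a : CoefB_J) (n k l : Fin 3) : ℝ := ∑ m, CoefB_inv a n m * CoefB_chr a m k l

def CoefB_Riem (a : CoefB_J) (i k l m : Fin 3) : ℝ :=
  (a.2.2 k l i m + a.2.2 i m k l - a.2.2 k m i l - a.2.2 i l k m) / 2 +
    ∑ n, ∑ p, a.1 n p * (CoefB_Gam a n k l * CoefB_Gam a p i m - CoefB_Gam a n k m * CoefB_Gam a p i l)

def CoefB_scal (a : CoefB_J) : ℝ :=
  ∑ i, ∑ k, ∑ l, ∑ m, CoefB_inv a i l * CoefB_inv a k m * CoefB_Riem a i k l m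

def CoefB_vol (a : CoefB_J) : ℝ := Real.sqrt (Matrix.of a.1).det

def CoefB_Psi (a : CoefB_J) : (Fin 3 → Fin 3 → ℝ) × ℝ :=
  (fun i j => CoefB_inv a i j * CoefB_vol a, 1 / 8 * CoefB_scal a * CoefB_vol a)

theorem CoefB_Psi_jet (G : Metric) (x : P3) : CoefB_Psi (CoefB_jet G x) =
    (fun i j => G.inv x i j * G.vol x, 1 / 8 * G.scal x * G.vol x) := rfl

theorem CoefB_cont_of : Continuous fun b : CoefB_J => Matrix.of b.1 :=
  continuous_matrix fun i j => by
    show Continuous fun b : CoefB_J => b.1 i j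
    fun_prop

theorem CoefB_cont_inv {a : CoefB_J} (ha : (Matrix.of a.1).det ≠ 0) (i j : Fin 3) :
    ContinuousAt (fun b : CoefB_J => CoefB_inv b i j) a := by
  have h : (fun b : CoefB_J => CoefB_inv b i j) =
      fun b => ((Matrix.of b.1).det)⁻¹ * (Matrix.of b.1).adjugate i j := by
    funext b
    unfold CoefB_inv
    rw [Matrix.inv_def, Ring.inverse_eq_inv', Matrix.smul_apply, smul_eq_mul]
  rw [h]
  have h1 : ContinuousAt (fun b : CoefB_J => (Matrix.of b.1).det) a :=
    CoefB_cont_of.matrix_det.continuousAt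
  have h2 : ContinuousAt (fun b : CoefB_J => (Matrix.of b.1).adjugate i j) a :=
    (CoefB_cont_of.matrix_adjugate.matrix_elem i j).continuousAt
  exact (h1.inv₀ ha).mul h2

theorem CoefB_cont_Psi {a : CoefB_J} (ha : (Matrix.of a.1).det ≠ 0) :
    ContinuousAt CoefB_Psi a := by
  have hinv := fun i j => CoefB_cont_inv ha i j
  have hvol : ContinuousAt (fun b : CoefB_J => CoefB_vol b) a :=
    (Real.continuous_sqrt.comp CoefB_cont_of.matrix_det).continuousAt
  have hchr : ∀ m k l, ContinuousAt (fun b : CoefB_J => CoefB_chr b m k l) a := by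
    intro m k l
    have : Continuous fun b : CoefB_J => CoefB_chr b m k l := by
      unfold CoefB_chr
      fun_prop
    exact this.continuousAt
  have hGam : ∀ n k l, ContinuousAt (fun b : CoefB_J => CoefB_Gam b n k l) a := by
    intro n k l
    exact tendsto_finsetSum _ fun m _ => (hinv n m).mul (hchr m k l)
  have hRiem : ∀ i k l m, ContinuousAt (fun b : CoefB_J => CoefB_Riem b i k l m) a := by
    intro i k l m
    have h1 : ContinuousAt (fun b : CoefB_J =>
        (b.2.2 k l i m + b.2.2 i m k l - b.2.2 k m i l - b.2.2 i l k m) / 2) a := by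
      have : Continuous (fun b : CoefB_J =>
        (b.2.2 k l i m + b.2.2 i m k l - b.2.2 k m i l - b.2.2 i l k m) / 2) := by fun_prop
      exact this.continuousAt
    have h2 : ∀ n p, ContinuousAt (fun b : CoefB_J => b.1 n p) a := by
      intro n p
      have : Continuous (fun b : CoefB_J => b.1 n p) := by fun_prop
      exact this.continuousAt
    exact h1.add (tendsto_finsetSum _ fun n _ => tendsto_finsetSum _ fun p _ =>
      (h2 n p).mul (((hGam n k l).mul (hGam p i m)).sub ((hGam n k m).mul (hGam p i l))))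
  have hscal : ContinuousAt (fun b : CoefB_J => CoefB_scal b) a :=
    tendsto_finsetSum _ fun i _ => tendsto_finsetSum _ fun k _ => tendsto_finsetSum _ fun l _ =>
      tendsto_finsetSum _ fun m _ => ((hinv i l).mul (hinv k m)).mul (hRiem i k l m)
  have hA : ContinuousAt (fun b : CoefB_J => fun i j => CoefB_inv b i j * CoefB_vol b) a :=
    continuousAt_pi.2 fun i => continuousAt_pi.2 fun j => (hinv i j).mul hvol
  have hB : ContinuousAt (fun b : CoefB_J => 1 / 8 * CoefB_scal b * CoefB_vol b) a :=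
    (continuousAt_const.mul hscal).mul hvol
  exact hA.prodMk hB

theorem CoefB_jet_cont (G : Metric) : Continuous (CoefB_jet G) := by
  refine Continuous.prodMk ?_ (Continuous.prodMk ?_ ?_)
  · exact continuous_pi fun i => continuous_pi fun j => (G.smooth i j).cont
  · exact continuous_pi fun k => continuous_pi fun i => continuous_pi fun j =>
      ((G.smooth i j).pd k).cont
  · exact continuous_pi fun k => continuous_pi fun l => continuous_pi fun i =>
      continuous_pi fun j => (((G.smooth i j).pd l).pd k).cont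

theorem CoefB_bv (i : Fin 3) : ‖bv i‖ = 1 := by
  unfold bv
  simp

theorem CoefB_d0 {F : P3 → ℝ} {x : P3} {ε : ℝ} (h : ‖iteratedFDeriv ℝ 0 F x‖ ≤ ε) : |F x| ≤ ε := by
  rwa [norm_iteratedFDeriv_zero, Real.norm_eq_abs] at h

theorem CoefB_d1 {F : P3 → ℝ} {x : P3} {ε : ℝ} (h : ‖iteratedFDeriv ℝ 1 F x‖ ≤ ε) (k : Fin 3) :
    |pd k F x| ≤ ε := by
  have h1 : pd k F x = iteratedFDeriv ℝ 1 F x (fun _ => bv k) := by
    rw [iteratedFDeriv_one_apply]; rfl
  rw [h1, ← Real.norm_eq_abs]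
  refine ((iteratedFDeriv ℝ 1 F x).le_opNorm _).trans ?_
  simpa [CoefB_bv] using h

theorem CoefB_d2 {F : P3 → ℝ} (hF : ContDiff ℝ ∞ F) {x : P3} {ε : ℝ}
    (h : ‖iteratedFDeriv ℝ 2 F x‖ ≤ ε) (k l : Fin 3) : |pd k (pd l F) x| ≤ ε := by
  have h0 : DifferentiableAt ℝ (fderiv ℝ F) x :=
    ((hF.fderiv_right (m := ∞) (by simp)).differentiable (by simp)) x
  have h1 : pd k (pd l F) x = iteratedFDeriv ℝ 2 F x ![bv k, bv l] := by
    rw [iteratedFDeriv_two_apply]
    unfold pd
    rw [fderiv_clm_apply h0 (differentiableAt_const _)]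
    simp
  rw [h1, ← Real.norm_eq_abs]
  refine ((iteratedFDeriv ℝ 2 F x).le_opNorm _).trans ?_
  rw [Fin.prod_univ_two]
  simpa [CoefB_bv] using h

theorem curve_close {G : ℝ → Metric} (hG : IsCurve G) {t : ℝ} (ht : t ∈ Set.Icc (0 : ℝ) 1) {ε : ℝ}
    (hε : 0 < ε) : ∃ δ : ℝ, 0 < δ ∧ ∀ s ∈ Set.Icc (0 : ℝ) 1, |s - t| < δ → ∀ x ∈ Cube,
      (∀ i j, |(G s).inv x i j * (G s).vol x - (G t).inv x i j * (G t).vol x| ≤ ε) ∧
      |1 / 8 * (G s).scal x * (G s).vol x - 1 / 8 * (G t).scal x * (G t).vol x| ≤ ε := by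
  have hK : IsCompact (CoefB_jet (G t) '' Cube) := isCompact_Cube.image (CoefB_jet_cont (G t))
  have hc : ∀ a ∈ CoefB_jet (G t) '' Cube, ContinuousAt CoefB_Psi a := by
    rintro a ⟨x, hx, rfl⟩
    exact CoefB_cont_Psi ((G t).pos x (Cube_sub hx)).det_pos.ne'
  have hU := hK.uniformContinuousAt_of_continuousAt CoefB_Psi hc
    (Metric.dist_mem_uniformity hε)
  obtain ⟨η, hη, hU⟩ := Metric.mem_uniformity_dist.1 hU
  obtain ⟨δ0, hδ0, h0⟩ := hG t ht 0 (η / 2) (by positivity)
  obtain ⟨δ1, hδ1, h1⟩ := hG t ht 1 (η / 2) (by positivity)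
  obtain ⟨δ2, hδ2, h2⟩ := hG t ht 2 (η / 2) (by positivity)
  refine ⟨min δ0 (min δ1 δ2), by positivity, fun s hs hst x hx => ?_⟩
  have hst0 : |s - t| < δ0 := lt_of_lt_of_le hst (min_le_left _ _)
  have hst1 : |s - t| < δ1 :=
    lt_of_lt_of_le hst ((min_le_right _ _).trans (min_le_left _ _))
  have hst2 : |s - t| < δ2 :=
    lt_of_lt_of_le hst ((min_le_right _ _).trans (min_le_right _ _))
  have hxS := Cube_sub hx
  have hη2 : 0 ≤ η / 2 := by positivity
  have hd : dist (CoefB_jet (G t) x) (CoefB_jet (G s) x) < η := by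
    rw [dist_comm]
    refine lt_of_le_of_lt ?_ (half_lt_self hη)
    rw [Prod.dist_eq, Prod.dist_eq]
    refine max_le ?_ (max_le ?_ ?_)
    · refine (dist_pi_le_iff hη2).2 fun i => (dist_pi_le_iff hη2).2 fun j => ?_
      exact CoefB_d0 (h0 s hs hst0 x hxS i j)
    · refine (dist_pi_le_iff hη2).2 fun k => (dist_pi_le_iff hη2).2 fun i =>
        (dist_pi_le_iff hη2).2 fun j => ?_
      have h := CoefB_d1 (h1 s hs hst1 x hxS i j) k
      rw [pd_sub ((G s).smooth i j) ((G t).smooth i j)] at h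
      exact h
    · refine (dist_pi_le_iff hη2).2 fun k => (dist_pi_le_iff hη2).2 fun l =>
        (dist_pi_le_iff hη2).2 fun i => (dist_pi_le_iff hη2).2 fun j => ?_
      have h := CoefB_d2 (((G s).smooth i j).sub ((G t).smooth i j)).cd (h2 s hs hst2 x hxS i j) k l
      have h3 : pd l (fun y => (G s).g y i j - (G t).g y i j) =
          fun y => pd l (fun y => (G s).g y i j) y - pd l (fun y => (G t).g y i j) y := by
        funext y
        exact pd_sub ((G s).smooth i j) ((G t).smooth i j) l y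
      rw [h3, pd_sub (((G s).smooth i j).pd l) (((G t).smooth i j).pd l)] at h
      exact h
  have h := hU hd ⟨x, hx, rfl⟩
  simp only at h
  have h' : dist (CoefB_Psi (CoefB_jet (G s) x)) (CoefB_Psi (CoefB_jet (G t) x)) < ε := by
    rw [dist_comm]; exact h
  rw [CoefB_Psi_jet, CoefB_Psi_jet, Prod.dist_eq] at h'
  have hA := lt_of_le_of_lt (le_max_left _ _) h'
  have hB := lt_of_le_of_lt (le_max_right _ _) h'
  refine ⟨fun i j => ?_, hB.le⟩
  have h4 := (dist_le_pi_dist _ _ i).trans hA.le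
  exact (dist_le_pi_dist _ _ j).trans h4

end Pool.Agent.L5helper93.CE
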