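import Pool.Agent.L5helper93.CE.Basic

set_option autoImplicit false

noncomputable section

open MeasureTheory Matrix Filter Topology
open scoped ContDiff

namespace Pool.Agent.L5helper93.CE

theorem null_plane (c : ℝ) : volume {x : P3 | x 0 = c} = 0 := by
  have h1 : volume (LinearMap.ker (EuclideanSpace.proj (𝕜 := ℝ) (0 : Fin 3)).toLinearMap : Set P3) = 0 := by
    refine Measure.addHaar_submodule _ _ fun h => ?_
    have h2 : bv 0 ∈ LinearMap.ker (EuclideanSpace.proj (𝕜 := ℝ) (0 : Fin 3)).toLinearMap := by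
      rw [h]; trivial
    rw [LinearMap.mem_ker] at h2
    simp [bv] at h2
  have h3 : {x : P3 | x 0 = c} = (fun x => x + (-(c • bv 0))) ⁻¹'
      (LinearMap.ker (EuclideanSpace.proj (𝕜 := ℝ) (0 : Fin 3)).toLinearMap : Set P3) := by
    ext x
    simp [bv, add_neg_eq_zero]
  rw [h3, measure_preimage_add_right, h1]

theorem dens_congr {G H : Metric} (h : ∀ x ∈ Slab, G.g x = H.g x) {x : P3} (h0 : 0 < x 0)
    (h1 : x 0 < 1) (p : Fin 3 → ℝ) (u : ℝ) (q : Fin 3 → ℝ) (v : ℝ) :
    G.dens x p u q v = H.dens x p u q v := by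
  have hev : ∀ᶠ y in 𝓝 x, y ∈ Slab := by
    have hc : Continuous fun y : P3 => y 0 := by fun_prop
    filter_upwards [hc.continuousAt.eventually (lt_mem_nhds h0),
      hc.continuousAt.eventually (gt_mem_nhds h1)] with y hy1 hy2
    exact ⟨hy1.le, hy2.le⟩
  have he : ∀ i j, (fun y => G.g y i j) =ᶠ[𝓝 x] fun y => H.g y i j := fun i j => by
    filter_upwards [hev] with y hy
    rw [h y hy]
  have hx : G.g x = H.g x := h x ⟨h0.le, h1.le⟩
  have e1 : ∀ k i j, G.d1 k i j x = H.d1 k i j x := fun k i j => by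
    unfold Metric.d1 pd
    rw [(he i j).fderiv_eq]
  have e2 : ∀ k l i j, G.d2 k l i j x = H.d2 k l i j x := fun k l i j => by
    unfold Metric.d2
    have h3 : (pd l fun y => G.g y i j) =ᶠ[𝓝 x] pd l fun y => H.g y i j := by
      filter_upwards [(he i j).fderiv (𝕜 := ℝ)] with y hy
      unfold pd
      rw [hy]
    show fderiv ℝ (pd l fun y => G.g y i j) x (bv k) = fderiv ℝ (pd l fun y => H.g y i j) x (bv k)
    rw [h3.fderiv_eq]
  have e3 : G.inv x = H.inv x := by unfold Metric.inv; rw [hx]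
  have e4 : G.vol x = H.vol x := by unfold Metric.vol; rw [hx]
  have e5 : ∀ m k l, G.chr m k l x = H.chr m k l x := fun m k l => by
    unfold Metric.chr; rw [e1, e1, e1]
  have e6 : ∀ n k l, G.Gam n k l x = H.Gam n k l x := fun n k l => by
    unfold Metric.Gam; simp only [e3, e5]
  have e7 : ∀ i k l m, G.Riem i k l m x = H.Riem i k l m x := fun i k l m => by
    unfold Metric.Riem; simp only [e2, e6, hx]
  have e8 : G.scal x = H.scal x := by unfold Metric.scal; simp only [e3, e7]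
  unfold Metric.dens
  rw [e3, e4, e8]

theorem Q_congr {G H : Metric} (h : ∀ x ∈ Slab, G.g x = H.g x) (φ ψ : P3 → ℝ) :
    G.Q φ ψ = H.Q φ ψ := by
  refine setIntegral_congr_ae measurableSet_Cube ?_
  have h1 : ∀ᵐ x : P3, x 0 ≠ 0 := by
    rw [ae_iff]; simpa using null_plane 0
  have h2 : ∀ᵐ x : P3, x 0 ≠ 1 := by
    rw [ae_iff]; simpa using null_plane 1
  filter_upwards [h1, h2] with x hx1 hx2 hx
  exact dens_congr h (lt_of_le_of_ne (hx 0).1 (Ne.symm hx1)) (lt_of_le_of_ne (hx 0).2 hx2) _ _ _ _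

end Pool.Agent.L5helper93.CE
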