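import Mathlib

/-!
# Conformal Steklov eigenvalues of the metrics on `[0, 1] × T²`

Points of `ℝ × T²` are given by their coordinates `x : P3` in `ℝ³`, where `x 1` and `x 2` are taken
modulo `1`. The manifold `M = [0, 1] × T²` is the slab `0 ≤ x 0 ≤ 1`.
-/

set_option autoImplicit false

noncomputable section

open MeasureTheory Matrix Filter Topology
open scoped ContDiff

namespace Pool.Agent.L5helper93.CE

/-- `ℝ³`. -/
abbrev P3 : Type := EuclideanSpace ℝ (Fin 3)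

/-- The basis vectors. -/
def bv (i : Fin 3) : P3 := EuclideanSpace.single i (1 : ℝ)

/-- The partial derivative in the direction `i`. -/
def pd (i : Fin 3) (f : P3 → ℝ) (x : P3) : ℝ := fderiv ℝ f x (bv i)

/-- The slab `0 ≤ x 0 ≤ 1`, which represents `M = [0, 1] × T²`. -/
def Slab : Set P3 := {x | 0 ≤ x 0 ∧ x 0 ≤ 1}

/-- The boundary of `M`. -/
def Bdry : Set P3 := {x | x 0 = 0 ∨ x 0 = 1}

/-- The unit cube, a fundamental domain of `M`. -/
def Cube : Set P3 := {x | ∀ i, 0 ≤ x i ∧ x i ≤ 1}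

/-- Smooth functions on `ℝ × T²` (which represent smooth functions on `M` by restriction). -/
def IsSmooth (f : P3 → ℝ) : Prop :=
  ContDiff ℝ ∞ f ∧ ∀ x, f (x + bv 1) = f x ∧ f (x + bv 2) = f x

/-- A smooth Riemannian metric on `M`: a matrix of smooth functions, symmetric and positive definite
on the slab. -/
structure Metric where
  g : P3 → Matrix (Fin 3) (Fin 3) ℝ
  smooth : ∀ i j, IsSmooth fun x => g x i j
  pos : ∀ x ∈ Slab, (g x).PosDef

/-- The inverse matrix `g^{ij}`. -/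
def Metric.inv (G : Metric) (x : P3) : Matrix (Fin 3) (Fin 3) ℝ := (G.g x)⁻¹

/-- The density `√det g` of the Riemannian volume. -/
def Metric.vol (G : Metric) (x : P3) : ℝ := Real.sqrt (G.g x).det

/-- `∂_k g_{ij}` -/
def Metric.d1 (G : Metric) (k i j : Fin 3) (x : P3) : ℝ := pd k (fun y => G.g y i j) x

/-- `∂_k ∂_l g_{ij}` -/
def Metric.d2 (G : Metric) (k l i j : Fin 3) (x : P3) : ℝ := pd k (pd l fun y => G.g y i j) x

/-- The Christoffel symbols of the first kind `(∂_k g_{lm} + ∂_l g_{km} - ∂_m g_{kl}) / 2`. -/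
def Metric.chr (G : Metric) (m k l : Fin 3) (x : P3) : ℝ :=
  (G.d1 k l m x + G.d1 l k m x - G.d1 m k l x) / 2

/-- The Christoffel symbols `Γ^n_{kl}`. -/
def Metric.Gam (G : Metric) (n k l : Fin 3) (x : P3) : ℝ := ∑ m, G.inv x n m * G.chr m k l x

/-- The curvature tensor `R_{iklm}`. -/
def Metric.Riem (G : Metric) (i k l m : Fin 3) (x : P3) : ℝ :=
  (G.d2 k l i m x + G.d2 i m k l x - G.d2 k m i l x - G.d2 i l k m x) / 2 +
    ∑ n, ∑ p, G.g x n p * (G.Gam n k l x * G.Gam p i m x - G.Gam n k m x * G.Gam p i l x)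

/-- The scalar curvature `g^{il} g^{km} R_{iklm}`. -/
def Metric.scal (G : Metric) (x : P3) : ℝ :=
  ∑ i, ∑ k, ∑ l, ∑ m, G.inv x i l * G.inv x k m * G.Riem i k l m x

/-- The divergence `(1 / √det g) ∑ ∂_i (√det g v^i)` of the vector field `v`. -/
def Metric.div (G : Metric) (v : P3 → Fin 3 → ℝ) (x : P3) : ℝ :=
  (∑ i, pd i (fun y => G.vol y * v y i) x) / G.vol x

/-- The gradient of a function. -/
def Metric.grad (G : Metric) (u : P3 → ℝ) (x : P3) (i : Fin 3) : ℝ := ∑ j, G.inv x i j * pd j u x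

/-- The conformal Laplacian `P_g = Δ_g + (n - 2) / (4 (n - 1)) R_g` for `n = 3`, where `Δ_g` is the
positive Laplacian. -/
def Metric.confLap (G : Metric) (u : P3 → ℝ) (x : P3) : ℝ :=
  - G.div (G.grad u) x + 1 / 8 * G.scal x * u x

/-- The outward sign at the boundary: `1` if `x 0 = 1` and `-1` if `x 0 = 0`. -/
def sgn (x : P3) : ℝ := if x 0 = 1 then 1 else -1

/-- For `s = 1` or `s = -1` the unit normal field `s grad x_0 / |grad x_0|` of the surfaces
`x 0 = const`. -/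
def Metric.nor (G : Metric) (s : ℝ) (x : P3) (i : Fin 3) : ℝ :=
  s * (G.inv x i 0 / Real.sqrt (G.inv x 0 0))

/-- The mean curvature `h_g = tr II` of the boundary: the divergence of the outward unit normal
field. -/
def Metric.mean (G : Metric) (x : P3) : ℝ := G.div (G.nor (sgn x)) x

/-- The conformal boundary operator `B_g u = ∂_ν u + (n - 2) / (2 (n - 1)) h_g u` for `n = 3`. -/
def Metric.confBdry (G : Metric) (u : P3 → ℝ) (x : P3) : ℝ :=
  ∑ i, G.nor (sgn x) x i * pd i u x + 1 / 4 * G.mean x * u x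

/-- Smooth functions on `M` which vanish near the boundary. -/
def IsTest (f : P3 → ℝ) : Prop :=
  IsSmooth f ∧ ∃ δ : ℝ, 0 < δ ∧ ∀ x, x 0 < δ ∨ 1 - δ < x 0 → f x = 0

/-- The density of the Dirichlet form of `P_g`: `(∑ g^{ij} p_i q_j + (1 / 8) R_g u v) √det g`. -/
def Metric.dens (G : Metric) (x : P3) (p : Fin 3 → ℝ) (u : ℝ) (q : Fin 3 → ℝ) (v : ℝ) : ℝ :=
  (∑ i, ∑ j, G.inv x i j * p i * q j + 1 / 8 * G.scal x * u * v) * G.vol x

/-- `u` is an element of the Sobolev space `H¹₀(M)` with the gradient `p`: they are limits in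
`L²(M)` of the `φ_n` and `∂_i φ_n` for test functions `φ_n`. -/
def IsH10 (u : P3 → ℝ) (p : P3 → Fin 3 → ℝ) : Prop :=
  MemLp u 2 (volume.restrict Cube) ∧ (∀ i, MemLp (fun x => p x i) 2 (volume.restrict Cube)) ∧
    ∃ φ : ℕ → P3 → ℝ, (∀ n, IsTest (φ n)) ∧
      Tendsto (fun n => ∫ x in Cube, (φ n x - u x) ^ 2) atTop (𝓝 0) ∧
      ∀ i, Tendsto (fun n => ∫ x in Cube, (pd i (φ n) x - p x i) ^ 2) atTop (𝓝 0)

/-- `0` is an eigenvalue of the Dirichlet problem `P_g φ = λ φ` in `M`, `φ = 0` on `∂M`: there is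
`u ≠ 0` in `H¹₀(M)` with `P_g u = 0` (weakly). -/
def Metric.ZeroDirichlet (G : Metric) : Prop :=
  ∃ u p, IsH10 u p ∧ ¬ (∀ᵐ x ∂(volume.restrict Cube), u x = 0) ∧
    ∀ ψ, IsTest ψ → ∫ x in Cube, G.dens x (p x) (u x) (fun i => pd i ψ x) (ψ x) = 0

/-- The smooth function `w` on `M` satisfies `P_g w = 0` in `M` and `B_g w = l w` on `∂M`: its
restriction to `∂M`, if not `0`, is an eigenfunction of the conformal Dirichlet-to-Robin map with the
eigenvalue `l`. -/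
def Metric.IsSteklov (G : Metric) (l : ℝ) (w : P3 → ℝ) : Prop :=
  IsSmooth w ∧ (∀ x ∈ Slab, G.confLap w x = 0) ∧ ∀ x ∈ Bdry, G.confBdry w x = l * w x

/-- `N_S(g) ≥ k`: the problem (S) is defined, and it has at least `k` negative eigenvalues, counted
with multiplicity. -/
def Metric.NS (G : Metric) (k : ℕ) : Prop :=
  ¬ G.ZeroDirichlet ∧ ∃ (l : Fin k → ℝ) (w : Fin k → P3 → ℝ),
    (∀ i, l i < 0 ∧ G.IsSteklov (l i) (w i)) ∧
    LinearIndependent ℝ fun (i : Fin k) (x : Bdry) => w i x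

/-- A curve of metrics, continuous in the `C^∞` topology: all derivatives of all orders `k` of the
coefficients depend continuously on `t`, uniformly on `M`. -/
def IsCurve (G : ℝ → Metric) : Prop :=
  ∀ t ∈ Set.Icc (0 : ℝ) 1, ∀ k : ℕ, ∀ ε : ℝ, 0 < ε → ∃ δ : ℝ, 0 < δ ∧
    ∀ s ∈ Set.Icc (0 : ℝ) 1, |s - t| < δ → ∀ x ∈ Slab, ∀ i j,
      ‖iteratedFDeriv ℝ k (fun y => (G s).g y i j - (G t).g y i j) x‖ ≤ ε

/-- The metrics `dx² + a² dy² + b² (dz - x dy)²`. -/
def nilm (a b : ℝ) (x : P3) : Matrix (Fin 3) (Fin 3) ℝ :=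
  !![1, 0, 0; 0, a ^ 2 + b ^ 2 * x 0 ^ 2, - (b ^ 2 * x 0); 0, - (b ^ 2 * x 0), b ^ 2]

/-- `∫_M φ²` -/
def I0 (φ : P3 → ℝ) : ℝ := ∫ x in Cube, φ x ^ 2

/-- `∫_M |∇φ|²` (flat) -/
def I1 (φ : P3 → ℝ) : ℝ := ∫ x in Cube, ∑ i, pd i φ x ^ 2

/-- The Dirichlet form. -/
def Metric.Q (G : Metric) (φ ψ : P3 → ℝ) : ℝ :=
  ∫ x in Cube, G.dens x (fun i => pd i φ x) (φ x) (fun i => pd i ψ x) (ψ x)

end Pool.Agent.L5helper93.CE
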