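import Pool.Agent.L5helper93.CE.Form

set_option autoImplicit false

noncomputable section

open MeasureTheory Matrix Filter Topology
open scoped ContDiff

namespace Pool.Agent.L5helper93.CE

/-! ### the cutoff -/

lemma Dens1_sd0 {y : ℝ} (h : y ≤ 0 ∨ 1 ≤ y) : deriv Real.smoothTransition y = 0 := by
  rcases h with h | h
  · have hm : IsLocalMin Real.smoothTransition y := Filter.Eventually.of_forall fun z => by
      rw [Real.smoothTransition.zero_of_nonpos h]
      exact Real.smoothTransition.nonneg z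
    exact hm.deriv_eq_zero
  · have hm : IsLocalMax Real.smoothTransition y := Filter.Eventually.of_forall fun z => by
      rw [Real.smoothTransition.one_of_one_le h]
      exact Real.smoothTransition.le_one z
    exact hm.deriv_eq_zero

lemma Dens1_sbd : ∃ S : ℝ, 0 ≤ S ∧ ∀ y, |deriv Real.smoothTransition y| ≤ S := by
  have hc : Continuous (deriv Real.smoothTransition) :=
    (Real.smoothTransition.contDiff (n := 1)).continuous_deriv le_rfl
  obtain ⟨S, hS⟩ := isCompact_Icc.exists_bound_of_continuousOn (s := Set.Icc (0 : ℝ) 1) hc.continuousOn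
  refine ⟨max S 0, le_max_right _ _, fun y => ?_⟩
  by_cases h : y ≤ 0 ∨ 1 ≤ y
  · rw [Dens1_sd0 h, abs_zero]
    exact le_max_right _ _
  · push Not at h
    exact (hS y ⟨h.1.le, h.2.le⟩).trans (le_max_left _ _)

/-- the cutoff -/
def Dens1_chi (δ x : ℝ) : ℝ :=
  Real.smoothTransition ((x - δ) / δ) * Real.smoothTransition ((1 - δ - x) / δ)

/-- its derivative -/
def Dens1_chi' (δ x : ℝ) : ℝ :=
  deriv Real.smoothTransition ((x - δ) / δ) * (1 / δ) * Real.smoothTransition ((1 - δ - x) / δ) +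
    Real.smoothTransition ((x - δ) / δ) * (deriv Real.smoothTransition ((1 - δ - x) / δ) * (-1 / δ))

lemma Dens1_chi_hasDeriv (δ x : ℝ) : HasDerivAt (Dens1_chi δ) (Dens1_chi' δ x) x := by
  have hs : ∀ y, HasDerivAt Real.smoothTransition (deriv Real.smoothTransition y) y := fun y =>
    ((Real.smoothTransition.contDiff (n := 1)).differentiable one_ne_zero y).hasDerivAt
  have h1 : HasDerivAt (fun x : ℝ => (x - δ) / δ) (1 / δ) x :=
    ((hasDerivAt_id x).sub_const δ).div_const δ
  have h2 : HasDerivAt (fun x : ℝ => (1 - δ - x) / δ) (-1 / δ) x :=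
    ((hasDerivAt_id x).const_sub (1 - δ)).div_const δ
  exact ((hs _).comp x h1).mul ((hs _).comp x h2)

lemma Dens1_chi_nonneg (δ x : ℝ) : 0 ≤ Dens1_chi δ x :=
  mul_nonneg (Real.smoothTransition.nonneg _) (Real.smoothTransition.nonneg _)

lemma Dens1_chi_le (δ x : ℝ) : Dens1_chi δ x ≤ 1 :=
  mul_le_one₀ (Real.smoothTransition.le_one _) (Real.smoothTransition.nonneg _)
    (Real.smoothTransition.le_one _)

lemma Dens1_chi'_le {S : ℝ} (hS : ∀ y, |deriv Real.smoothTransition y| ≤ S) {δ : ℝ} (hδ : 0 < δ)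
    (x : ℝ) : |Dens1_chi' δ x| ≤ 2 * S / δ := by
  have hS0 : 0 ≤ S := (abs_nonneg _).trans (hS 0)
  unfold Dens1_chi'
  have h1 : |deriv Real.smoothTransition ((x - δ) / δ) * (1 / δ) *
      Real.smoothTransition ((1 - δ - x) / δ)| ≤ S / δ := by
    rw [abs_mul, abs_mul, abs_of_nonneg (Real.smoothTransition.nonneg _),
      abs_of_pos (by positivity : (0 : ℝ) < 1 / δ)]
    calc |deriv Real.smoothTransition ((x - δ) / δ)| * (1 / δ) * Real.smoothTransition ((1 - δ - x) / δ)
        ≤ (S * (1 / δ)) * 1 := by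
          apply mul_le_mul _ (Real.smoothTransition.le_one _) (Real.smoothTransition.nonneg _)
            (by positivity)
          exact mul_le_mul_of_nonneg_right (hS _) (by positivity)
      _ = S / δ := by ring
  have h2 : |Real.smoothTransition ((x - δ) / δ) *
      (deriv Real.smoothTransition ((1 - δ - x) / δ) * (-1 / δ))| ≤ S / δ := by
    rw [abs_mul, abs_mul, abs_of_nonneg (Real.smoothTransition.nonneg _),
      show |(-1 : ℝ) / δ| = 1 / δ by rw [abs_div, abs_neg, abs_one, abs_of_pos hδ]]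
    calc Real.smoothTransition ((x - δ) / δ) * (|deriv Real.smoothTransition ((1 - δ - x) / δ)| * (1 / δ))
        ≤ 1 * (S * (1 / δ)) := by
          apply mul_le_mul (Real.smoothTransition.le_one _) _ (by positivity) zero_le_one
          exact mul_le_mul_of_nonneg_right (hS _) (by positivity)
      _ = S / δ := by ring
  calc _ ≤ _ := abs_add_le _ _
    _ ≤ S / δ + S / δ := add_le_add h1 h2
    _ = 2 * S / δ := by ring

lemma Dens1_mid {δ x : ℝ} (hδ : 0 < δ) (h1 : 2 * δ ≤ x) (h2 : x ≤ 1 - 2 * δ) :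
    Dens1_chi δ x = 1 ∧ Dens1_chi' δ x = 0 := by
  have e1 : 1 ≤ (x - δ) / δ := by rw [le_div_iff₀ hδ]; linarith
  have e2 : 1 ≤ (1 - δ - x) / δ := by rw [le_div_iff₀ hδ]; linarith
  unfold Dens1_chi Dens1_chi'
  rw [Real.smoothTransition.one_of_one_le e1, Real.smoothTransition.one_of_one_le e2,
    Dens1_sd0 (Or.inr e1), Dens1_sd0 (Or.inr e2)]
  constructor <;> ring

lemma Dens1_out {δ x : ℝ} (hδ : 0 < δ) (h : x < δ ∨ 1 - δ < x) : Dens1_chi δ x = 0 := by
  unfold Dens1_chi
  rcases h with h | h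
  · rw [Real.smoothTransition.zero_of_nonpos (x := (x - δ) / δ), zero_mul]
    exact div_nonpos_of_nonpos_of_nonneg (by linarith) hδ.le
  · rw [Real.smoothTransition.zero_of_nonpos (x := (1 - δ - x) / δ), mul_zero]
    exact div_nonpos_of_nonpos_of_nonneg (by linarith) hδ.le

lemma Dens1_chi_smooth (δ : ℝ) : ContDiff ℝ ∞ (Dens1_chi δ) := by
  unfold Dens1_chi
  have hs : ContDiff ℝ ∞ Real.smoothTransition := Real.smoothTransition.contDiff
  exact (hs.comp (by fun_prop)).mul (hs.comp (by fun_prop))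

theorem dens1 {f : ℝ → ℝ} (hf : ContDiff ℝ ∞ f) (h0 : f 0 = 0) (h1 : f 1 = 0) {ε : ℝ} (hε : 0 < ε) :
    ∃ h : ℝ → ℝ, ContDiff ℝ ∞ h ∧ (∃ δ : ℝ, 0 < δ ∧ ∀ x, x < δ ∨ 1 - δ < x → h x = 0) ∧
      ∫ x in (0 : ℝ)..1, ((h x - f x) ^ 2 + (deriv h x - deriv f x) ^ 2) ≤ ε := by
  obtain ⟨S, hS0, hS⟩ := Dens1_sbd
  have hfd : Differentiable ℝ f := hf.differentiable (by simp)
  have hf' : Continuous (deriv f) := hf.continuous_deriv (by simp)
  obtain ⟨M, hM⟩ := isCompact_Icc.exists_bound_of_continuousOn (s := Set.Icc (0 : ℝ) 1) hf'.continuousOn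
  have hM0 : 0 ≤ M := (norm_nonneg _).trans (hM 0 ⟨le_rfl, zero_le_one⟩)
  have hbd : ∀ x ∈ Set.Icc (0 : ℝ) 1, ∀ y ∈ Set.Icc (0 : ℝ) 1, |f y - f x| ≤ M * |y - x| := by
    intro x hx y hy
    exact Convex.norm_image_sub_le_of_norm_deriv_le (fun z _ => hfd z) hM (convex_Icc 0 1) hx hy
  set K : ℝ := M ^ 2 + (M + 4 * M * S) ^ 2 with hK
  have hK0 : 0 ≤ K := by positivity
  set δ : ℝ := min (1 / 4) (ε / (4 * K + 1)) with hδdef
  have hδ : 0 < δ := lt_min (by norm_num) (by positivity)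
  have hδ4 : δ ≤ 1 / 4 := min_le_left _ _
  have hδK : 4 * K * δ ≤ ε := by
    have h2 : δ ≤ ε / (4 * K + 1) := min_le_right _ _
    calc 4 * K * δ ≤ (4 * K + 1) * (ε / (4 * K + 1)) := by
          apply mul_le_mul (by linarith) h2 hδ.le (by positivity)
      _ = ε := by field_simp
  refine ⟨fun x => f x * Dens1_chi δ x, hf.mul (Dens1_chi_smooth δ), ⟨δ, hδ, fun x hx => ?_⟩, ?_⟩
  · show f x * Dens1_chi δ x = 0
    rw [Dens1_out hδ hx, mul_zero]
  have hd : ∀ x, deriv (fun x => f x * Dens1_chi δ x) x = deriv f x * Dens1_chi δ x + f x * Dens1_chi' δ x :=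
    fun x => ((hfd x).hasDerivAt.mul (Dens1_chi_hasDeriv δ x)).deriv
  set F : ℝ → ℝ := fun x => (f x * Dens1_chi δ x - f x) ^ 2 +
    (deriv (fun x => f x * Dens1_chi δ x) x - deriv f x) ^ 2 with hF
  have hFc : Continuous F := by
    have h2 : Continuous (deriv fun x => f x * Dens1_chi δ x) :=
      (hf.mul (Dens1_chi_smooth δ)).continuous_deriv (by simp)
    have h3 : Continuous (Dens1_chi δ) := (Dens1_chi_smooth δ).continuous
    have h4 : Continuous f := hf.continuous
    exact (((h4.mul h3).sub h4).pow 2).add ((h2.sub hf').pow 2)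
  have hFK : ∀ x ∈ Set.Icc (0 : ℝ) 1, |f x| ≤ M * (2 * δ) → F x ≤ K := by
    intro x hx hfx
    have c1 := Dens1_chi_nonneg δ x
    have c2 := Dens1_chi_le δ x
    have c3 : |Dens1_chi δ x - 1| ≤ 1 := abs_le.2 ⟨by linarith, by linarith⟩
    have hM1 : |deriv f x| ≤ M := hM x hx
    have b1 : |f x * Dens1_chi δ x - f x| ≤ M := by
      rw [show f x * Dens1_chi δ x - f x = f x * (Dens1_chi δ x - 1) by ring, abs_mul]
      calc |f x| * |Dens1_chi δ x - 1| ≤ (M * (2 * δ)) * 1 :=
            mul_le_mul hfx c3 (abs_nonneg _) (by positivity)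
        _ ≤ M := by nlinarith
    have b2 : |deriv (fun x => f x * Dens1_chi δ x) x - deriv f x| ≤ M + 4 * M * S := by
      rw [hd x, show deriv f x * Dens1_chi δ x + f x * Dens1_chi' δ x - deriv f x =
        deriv f x * (Dens1_chi δ x - 1) + f x * Dens1_chi' δ x by ring]
      refine (abs_add_le _ _).trans (add_le_add ?_ ?_)
      · rw [abs_mul]
        calc |deriv f x| * |Dens1_chi δ x - 1| ≤ M * 1 := mul_le_mul hM1 c3 (abs_nonneg _) hM0
          _ = M := mul_one _
      · rw [abs_mul]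
        calc |f x| * |Dens1_chi' δ x| ≤ (M * (2 * δ)) * (2 * S / δ) :=
              mul_le_mul hfx (Dens1_chi'_le hS hδ x) (abs_nonneg _) (by positivity)
          _ = 4 * M * S := by field_simp; ring
    have b1' : (f x * Dens1_chi δ x - f x) ^ 2 ≤ M ^ 2 := by
      rw [← sq_abs]
      exact pow_le_pow_left₀ (abs_nonneg _) b1 2
    have b2' : (deriv (fun x => f x * Dens1_chi δ x) x - deriv f x) ^ 2 ≤ (M + 4 * M * S) ^ 2 := by
      rw [← sq_abs]
      exact pow_le_pow_left₀ (abs_nonneg _) b2 2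
    exact add_le_add b1' b2'
  have hmid : ∀ x ∈ Set.Icc (2 * δ) (1 - 2 * δ), F x = 0 := by
    intro x hx
    obtain ⟨m1, m2⟩ := Dens1_mid hδ hx.1 hx.2
    simp only [hF]
    rw [hd x, m1, m2]
    ring
  have hint : ∀ a b : ℝ, IntervalIntegrable F volume a b := fun a b => hFc.intervalIntegrable a b
  have s1 : ∫ x in (0 : ℝ)..(2 * δ), F x ≤ K * (2 * δ) := by
    have h2 := intervalIntegral.integral_mono_on (a := 0) (b := 2 * δ) (by linarith) (hint _ _)
      (intervalIntegrable_const (c := K)) (fun x hx => hFK x ⟨hx.1, by linarith [hx.2]⟩ (by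
        have h3 := hbd 0 ⟨le_rfl, zero_le_one⟩ x ⟨hx.1, by linarith [hx.2]⟩
        rw [h0, sub_zero, sub_zero, abs_of_nonneg hx.1] at h3
        exact h3.trans (mul_le_mul_of_nonneg_left hx.2 hM0)))
    rw [intervalIntegral.integral_const, smul_eq_mul] at h2
    linarith
  have s2 : ∫ x in (2 * δ)..(1 - 2 * δ), F x = 0 := by
    rw [intervalIntegral.integral_congr (g := fun _ => (0 : ℝ))]
    · simp
    · intro x hx
      rw [Set.uIcc_of_le (by linarith)] at hx
      exact hmid x hx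
  have s3 : ∫ x in (1 - 2 * δ)..1, F x ≤ K * (2 * δ) := by
    have h2 := intervalIntegral.integral_mono_on (a := 1 - 2 * δ) (b := 1) (by linarith) (hint _ _)
      (intervalIntegrable_const (c := K)) (fun x hx => hFK x ⟨by linarith [hx.1], hx.2⟩ (by
        have h3 := hbd 1 ⟨zero_le_one, le_rfl⟩ x ⟨by linarith [hx.1], hx.2⟩
        have h4 : |x - 1| = 1 - x := by
          rw [abs_sub_comm, abs_of_nonneg (by linarith [hx.2])]
        rw [h1, sub_zero, h4] at h3
        exact h3.trans (mul_le_mul_of_nonneg_left (by linarith [hx.1]) hM0)))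
    rw [intervalIntegral.integral_const, smul_eq_mul] at h2
    linarith
  have hsplit : ∫ x in (0 : ℝ)..1, F x =
      (∫ x in (0 : ℝ)..(2 * δ), F x) + (∫ x in (2 * δ)..(1 - 2 * δ), F x) +
        ∫ x in (1 - 2 * δ)..1, F x := by
    rw [intervalIntegral.integral_add_adjacent_intervals (hint _ _) (hint _ _),
      intervalIntegral.integral_add_adjacent_intervals (hint _ _) (hint _ _)]
  show ∫ x in (0 : ℝ)..1, F x ≤ ε
  rw [hsplit, s2]
  linarith

/-! ### the test function with negative form -/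

lemma Dens1_cube {F : ℝ → ℝ} (hF : Continuous F) : ∫ x in Cube, F (x 0) = ∫ s in (0 : ℝ)..1, F s := by
  have hpre : Cube = (@WithLp.ofLp 2 (Fin 3 → ℝ)) ⁻¹' (Set.univ.pi fun _ => Set.Icc (0 : ℝ) 1) := by
    ext x
    simp only [Cube, Set.mem_preimage, Set.mem_pi, Set.mem_univ, true_imp_iff, Set.mem_Icc]
    rfl
  have hmeas : MeasurableSet (Set.univ.pi fun _ : Fin 3 => Set.Icc (0 : ℝ) 1) :=
    MeasurableSet.univ_pi fun _ => measurableSet_Icc
  have h1 : MeasurePreserving (@WithLp.ofLp 2 (Fin 3 → ℝ)) (volume.restrict Cube)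
      (volume.restrict (Set.univ.pi fun _ => Set.Icc (0 : ℝ) 1)) := by
    rw [hpre]
    exact (PiLp.volume_preserving_ofLp (Fin 3)).restrict_preimage hmeas
  have h2 : (volume : Measure (Fin 3 → ℝ)).restrict (Set.univ.pi fun _ => Set.Icc (0 : ℝ) 1) =
      Measure.pi (fun _ => volume.restrict (Set.Icc (0 : ℝ) 1)) := by
    rw [volume_pi, Measure.restrict_pi_pi]
  haveI hprob : IsProbabilityMeasure (volume.restrict (Set.Icc (0 : ℝ) 1)) := ⟨by simp⟩
  have h3 := measurePreserving_eval (fun _ : Fin 3 => (volume.restrict (Set.Icc (0 : ℝ) 1))) 0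
  rw [h2] at h1
  have h4 := h3.comp h1
  have h5 : ∫ x in Cube, F (x 0) = ∫ s, F s ∂(volume.restrict (Set.Icc (0 : ℝ) 1)) := by
    rw [← h4.map_eq, integral_map h4.measurable.aemeasurable hF.aestronglyMeasurable]
    rfl
  rw [h5, intervalIntegral.integral_of_le zero_le_one, integral_Icc_eq_integral_Ioc]

lemma Dens1_pd {h : ℝ → ℝ} (hh : Differentiable ℝ h) (i : Fin 3) (x : P3) :
    pd i (fun y => h (y 0)) x = deriv h (x 0) * (bv i) 0 := by
  unfold pd
  have h1 : HasFDerivAt (fun y : P3 => y 0) (EuclideanSpace.proj 0 : P3 →L[ℝ] ℝ) x :=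
    (EuclideanSpace.proj (0 : Fin 3) : P3 →L[ℝ] ℝ).hasFDerivAt
  have h2 := (hh (x 0)).hasDerivAt.comp_hasFDerivAt x h1
  have h3 : fderiv ℝ (fun y : P3 => h (y 0)) x = deriv h (x 0) • (EuclideanSpace.proj 0 : P3 →L[ℝ] ℝ) :=
    h2.fderiv
  rw [h3]
  rfl

lemma Dens1_cos : ∫ x in (0 : ℝ)..1, Real.cos (2 * Real.pi * x) = 0 := by
  rw [intervalIntegral.integral_comp_mul_left (fun x => Real.cos x) (by positivity), integral_cos]
  simp

theorem neg {a : ℝ} (ha : 0 < a) (hb : 0 < 16 * a) : ∃ φ, IsTest φ ∧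
    (nil a (16 * a) ha hb).Q φ φ < 0 := by
  set f : ℝ → ℝ := fun x => Real.sin (Real.pi * x) with hf
  have hfs : ContDiff ℝ ∞ f := by
    rw [hf]
    exact Real.contDiff_sin.comp (by fun_prop)
  obtain ⟨h, hh, ⟨δ, hδ, hz⟩, hint⟩ := dens1 hfs (by simp [hf]) (by simp [hf])
    (ε := 1 / 160) (by norm_num)
  have hhd : Differentiable ℝ h := hh.differentiable (by simp)
  have hhc : Continuous h := hh.continuous
  have hh' : Continuous (deriv h) := hh.continuous_deriv (by simp)
  have hfc : Continuous f := hfs.continuous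
  have hf' : Continuous (deriv f) := hfs.continuous_deriv (by simp)
  refine ⟨fun x => h (x 0), ⟨isSmooth_zero_coord hh, δ, hδ, fun x hx => hz (x 0) hx⟩, ?_⟩
  have hQ : (nil a (16 * a) ha hb).Q (fun x => h (x 0)) (fun x => h (x 0)) =
      ∫ s in (0 : ℝ)..1, 16 * a ^ 2 * (deriv h s ^ 2 - 16 * h s ^ 2) := by
    rw [← Dens1_cube (by fun_prop)]
    unfold Metric.Q
    refine integral_congr_ae (Filter.Eventually.of_forall fun x => ?_)
    simp only
    rw [nil_dens, Dens1_pd hhd, Dens1_pd hhd, Dens1_pd hhd]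
    have e0 : (bv 0) 0 = (1 : ℝ) := by simp [bv]
    have e1 : (bv 1) 0 = (0 : ℝ) := by simp [bv]
    have e2 : (bv 2) 0 = (0 : ℝ) := by simp [bv]
    rw [e0, e1, e2]
    field_simp
    ring
  rw [hQ, intervalIntegral.integral_const_mul]
  have hneg : ∫ s in (0 : ℝ)..1, (deriv h s ^ 2 - 16 * h s ^ 2) < 0 := by
    have hpt : ∀ s ∈ Set.Icc (0 : ℝ) 1, deriv h s ^ 2 - 16 * h s ^ 2 ≤
        (-17 / 10 + 127 / 10 * Real.cos (2 * Real.pi * s)) +
          160 * ((h s - f s) ^ 2 + (deriv h s - deriv f s) ^ 2) := by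
      intro s _
      have hdf : deriv f s = Real.pi * Real.cos (Real.pi * s) := by
        have h1 : HasDerivAt f (Real.cos (Real.pi * s) * (Real.pi * 1)) s :=
          (Real.hasDerivAt_sin (Real.pi * s)).comp s ((hasDerivAt_id s).const_mul Real.pi)
        rw [h1.deriv]
        ring
      have hfs' : f s = Real.sin (Real.pi * s) := rfl
      set c := Real.cos (Real.pi * s) with hc
      set n := Real.sin (Real.pi * s) with hn
      have hcn : n ^ 2 + c ^ 2 = 1 := Real.sin_sq_add_cos_sq _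
      have h2 : Real.cos (2 * Real.pi * s) = 2 * c ^ 2 - 1 := by
        rw [show 2 * Real.pi * s = 2 * (Real.pi * s) by ring, Real.cos_two_mul]
      have hpi : Real.pi ^ 2 ≤ 10 := by
        have h3 := Real.pi_lt_d2
        have h4 := Real.pi_pos
        nlinarith
      rw [h2, hdf, hfs']
      set u := h s - n with hu
      set v := deriv h s - Real.pi * c with hv
      have e1 : deriv h s = Real.pi * c + v := by rw [hv]; ring
      have e2 : h s = n + u := by rw [hu]; ring
      rw [e1, e2]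
      have i1 : (Real.pi * c + v) ^ 2 ≤ 11 / 10 * (Real.pi ^ 2 * c ^ 2) + 11 * v ^ 2 := by
        nlinarith [sq_nonneg (Real.pi * c - 10 * v)]
      have i2 : 9 / 10 * n ^ 2 - 9 * u ^ 2 ≤ (n + u) ^ 2 := by
        nlinarith [sq_nonneg (n + 10 * u)]
      have i3 : Real.pi ^ 2 * c ^ 2 ≤ 10 * c ^ 2 := mul_le_mul_of_nonneg_right hpi (sq_nonneg c)
      have i4 := sq_nonneg u
      have i5 := sq_nonneg v
      nlinarith
    have c0 : IntervalIntegrable (fun s : ℝ => deriv h s ^ 2 - 16 * h s ^ 2) volume 0 1 :=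
      (by fun_prop : Continuous fun s : ℝ => deriv h s ^ 2 - 16 * h s ^ 2).intervalIntegrable _ _
    have c3 : IntervalIntegrable (fun _ : ℝ => (-17 / 10 : ℝ)) volume 0 1 :=
      intervalIntegrable_const
    have c4 : IntervalIntegrable (fun s : ℝ => 127 / 10 * Real.cos (2 * Real.pi * s)) volume 0 1 :=
      (by fun_prop : Continuous fun s : ℝ => 127 / 10 * Real.cos (2 * Real.pi * s)).intervalIntegrable _ _
    have c2 : IntervalIntegrable (fun s : ℝ => 160 * ((h s - f s) ^ 2 + (deriv h s - deriv f s) ^ 2))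
        volume 0 1 :=
      (by fun_prop : Continuous fun s : ℝ =>
        160 * ((h s - f s) ^ 2 + (deriv h s - deriv f s) ^ 2)).intervalIntegrable _ _
    have hm := intervalIntegral.integral_mono_on (a := 0) (b := 1) zero_le_one c0
      ((c3.add c4).add c2) hpt
    have e1 : ∫ s in (0 : ℝ)..1, ((-17 / 10 + 127 / 10 * Real.cos (2 * Real.pi * s)) +
          160 * ((h s - f s) ^ 2 + (deriv h s - deriv f s) ^ 2)) =
        (∫ s in (0 : ℝ)..1, (-17 / 10 : ℝ)) + (∫ s in (0 : ℝ)..1, 127 / 10 * Real.cos (2 * Real.pi * s)) +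
          ∫ s in (0 : ℝ)..1, 160 * ((h s - f s) ^ 2 + (deriv h s - deriv f s) ^ 2) := by
      rw [← intervalIntegral.integral_add c3 c4, ← intervalIntegral.integral_add (c3.add c4) c2]
    rw [intervalIntegral.integral_const_mul, intervalIntegral.integral_const_mul, Dens1_cos,
      intervalIntegral.integral_const] at e1
    have hm2 := hm.trans (le_of_eq e1)
    simp only [smul_eq_mul] at hm2
    linarith
  have ha2 : 0 < 16 * a ^ 2 := by positivity
  exact mul_neg_of_pos_of_neg ha2 hneg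

end Pool.Agent.L5helper93.CE
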