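import Pool.Agent.L5helper93.CE.Nil

set_option autoImplicit false

noncomputable section

open MeasureTheory Matrix Filter Topology
open scoped ContDiff

namespace Pool.Agent.L5helper93.CE

theorem nil_dens {a b : ℝ} (ha : 0 < a) (hb : 0 < b) (x : P3) (p q : Fin 3 → ℝ) (u v : ℝ) :
    (nil a b ha hb).dens x p u q v = a * b * (p 0 * q 0 +
      (p 1 + x 0 * p 2) * (q 1 + x 0 * q 2) / a ^ 2 + p 2 * q 2 / b ^ 2 -
      (b / (4 * a)) ^ 2 * (u * v)) := by
  unfold Metric.dens
  rw [nil_inv, nil_vol, nil_scal]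
  simp only [Fin.sum_univ_three]
  simp
  field_simp
  ring

/-! ### Fubini on the cube -/

/-- the coordinates `(x 0, (x 1, x 2))` -/
def Form_e (p : ℝ × (Fin 2 → ℝ)) : P3 := WithLp.toLp 2 (Fin.cons p.1 p.2)

theorem Form_mp : MeasurePreserving Form_e := by
  have h := (PiLp.volume_preserving_toLp (Fin 3)).comp
    (volume_preserving_piFinSuccAbove (fun _ : Fin 3 => ℝ) 0).symm
  have e : Form_e = (@WithLp.toLp 2 (Fin 3 → ℝ)) ∘
      (MeasurableEquiv.piFinSuccAbove (fun _ : Fin 3 => ℝ) 0).symm := by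
    funext p
    rw [Function.comp_apply, MeasurableEquiv.piFinSuccAbove_symm_apply]
    simp [Form_e, Fin.insertNthEquiv]
  rw [e]
  exact h

theorem Form_emb : MeasurableEmbedding Form_e := by
  have e : Form_e = (@WithLp.toLp 2 (Fin 3 → ℝ)) ∘
      (MeasurableEquiv.piFinSuccAbove (fun _ : Fin 3 => ℝ) 0).symm := by
    funext p
    rw [Function.comp_apply, MeasurableEquiv.piFinSuccAbove_symm_apply]
    simp [Form_e, Fin.insertNthEquiv]
  rw [e]
  exact (MeasurableEquiv.toLp 2 (Fin 3 → ℝ)).measurableEmbedding.comp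
    (MeasurableEquiv.piFinSuccAbove (fun _ : Fin 3 => ℝ) 0).symm.measurableEmbedding

theorem Form_pre : Form_e ⁻¹' Cube = Set.Icc (0 : ℝ) 1 ×ˢ Set.Icc (0 : Fin 2 → ℝ) 1 := by
  ext ⟨s, y⟩
  simp only [Set.mem_preimage, Cube, Set.mem_ofPred_eq, Set.mem_prod, Set.mem_Icc, Pi.le_def]
  rw [Fin.forall_fin_succ]
  simp [Form_e]
  intro _ _
  tauto

theorem Form_cont : Continuous Form_e := by
  unfold Form_e
  refine (PiLp.continuous_toLp 2 _).comp ?_
  refine continuous_pi fun i => ?_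
  refine Fin.cases ?_ (fun j => ?_) i
  · simp only [Fin.cons_zero]; fun_prop
  · simp only [Fin.cons_succ]; fun_prop

theorem Form_int {f : P3 → ℝ} (hf : Continuous f) : Integrable (fun p => f (Form_e p))
    ((volume.restrict (Set.Icc (0 : ℝ) 1)).prod (volume.restrict (Set.Icc (0 : Fin 2 → ℝ) 1))) := by
  rw [Measure.prod_restrict]
  exact ((hf.comp Form_cont).continuousOn).integrableOn_compact (isCompact_Icc.prod isCompact_Icc)

theorem Form_fub {f : P3 → ℝ} (hf : Continuous f) : ∫ x in Cube, f x =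
    ∫ y in Set.Icc (0 : Fin 2 → ℝ) 1, ∫ s in Set.Icc (0 : ℝ) 1, f (Form_e (s, y)) := by
  rw [← integral_prod_symm _ (Form_int hf), Measure.prod_restrict, ← Form_pre]
  exact (Form_mp.setIntegral_preimage_emb Form_emb f Cube).symm

/-! ### The Poincare inequality on an interval -/

theorem Form_one (h h' : ℝ → ℝ) (hd : ∀ s, HasDerivAt h (h' s) s) (hc : Continuous h')
    (h0 : h 0 = 0) : ∫ s in Set.Icc (0 : ℝ) 1, h s ^ 2 ≤
      1 / 2 * ∫ s in Set.Icc (0 : ℝ) 1, h' s ^ 2 := by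
  have hch : Continuous h := continuous_iff_continuousAt.2 fun s => (hd s).continuousAt
  rw [integral_Icc_eq_integral_Ioc, integral_Icc_eq_integral_Ioc,
    ← intervalIntegral.integral_of_le zero_le_one, ← intervalIntegral.integral_of_le zero_le_one]
  set D := ∫ s in (0 : ℝ)..1, h' s ^ 2 with hD
  have hint : ∀ u v : ℝ, IntervalIntegrable h' volume u v := fun u v => hc.intervalIntegrable u v
  have hint2 : ∀ u v : ℝ, IntervalIntegrable (fun t => h' t ^ 2) volume u v :=
    fun u v => (hc.pow 2).intervalIntegrable u v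
  have key : ∀ s ∈ Set.Icc (0 : ℝ) 1, h s ^ 2 ≤ s * D := by
    intro s hs
    have e1 : ∫ t in (0 : ℝ)..s, h' t = h s := by
      rw [intervalIntegral.integral_eq_sub_of_hasDerivAt (fun t _ => hd t) (hint 0 s), h0, sub_zero]
    have e2 : ∫ t in (0 : ℝ)..s, h' t ^ 2 ≤ D := by
      rw [hD, ← intervalIntegral.integral_add_adjacent_intervals (hint2 0 s) (hint2 s 1)]
      have : 0 ≤ ∫ t in s..(1 : ℝ), h' t ^ 2 :=
        intervalIntegral.integral_nonneg hs.2 fun t _ => sq_nonneg _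
      linarith
    have e3 : ∀ l : ℝ, 0 ≤ (∫ t in (0 : ℝ)..s, h' t ^ 2) - 2 * l * h s + l ^ 2 * s := by
      intro l
      have h1 : 0 ≤ ∫ t in (0 : ℝ)..s, (h' t - l) ^ 2 :=
        intervalIntegral.integral_nonneg hs.1 fun t _ => sq_nonneg _
      have h2 : (fun t => (h' t - l) ^ 2) = fun t => (h' t ^ 2 - 2 * l * h' t) + l ^ 2 := by
        funext t; ring
      rw [h2, intervalIntegral.integral_add ((hint2 0 s).sub ((hint 0 s).const_mul _))
        intervalIntegrable_const, intervalIntegral.integral_sub (hint2 0 s)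
        ((hint 0 s).const_mul _), intervalIntegral.integral_const_mul, e1,
        intervalIntegral.integral_const] at h1
      simp only [smul_eq_mul, sub_zero] at h1
      linarith
    rcases eq_or_lt_of_le hs.1 with hs0 | hs0
    · rw [← hs0, h0]; simp
    · have h3 := e3 (h s / s)
      have h4 : (∫ t in (0 : ℝ)..s, h' t ^ 2) - 2 * (h s / s) * h s + (h s / s) ^ 2 * s =
          (∫ t in (0 : ℝ)..s, h' t ^ 2) - h s ^ 2 / s := by
        field_simp
        ring
      rw [h4] at h3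
      have h5 : h s ^ 2 / s ≤ D := by linarith
      rw [div_le_iff₀ hs0] at h5
      linarith
  calc ∫ s in (0 : ℝ)..1, h s ^ 2 ≤ ∫ s in (0 : ℝ)..1, s * D :=
        intervalIntegral.integral_mono_on zero_le_one ((hch.pow 2).intervalIntegrable _ _)
          ((continuous_id.mul continuous_const).intervalIntegrable _ _) key
    _ = 1 / 2 * D := by
        rw [intervalIntegral.integral_mul_const, integral_id]
        ring

theorem Form_line (s : ℝ) (y : Fin 2 → ℝ) : Form_e (s, y) = Form_e (0, y) + s • bv 0 := by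
  ext i
  refine Fin.cases ?_ (fun j => ?_) i
  · simp [Form_e, bv]
  · simp [Form_e, bv]

theorem Form_deriv {φ : P3 → ℝ} (hφ : Differentiable ℝ φ) (y : Fin 2 → ℝ) (s : ℝ) :
    HasDerivAt (fun s => φ (Form_e (s, y))) (pd 0 φ (Form_e (s, y))) s := by
  have h1 : HasDerivAt (fun s : ℝ => Form_e (s, y)) (bv 0) s := by
    have h2 : (fun s : ℝ => Form_e (s, y)) = fun s : ℝ => Form_e (0, y) + s • bv 0 :=
      funext fun s => Form_line s y
    rw [h2]
    have h3 := ((hasDerivAt_id s).smul_const (bv 0)).const_add (Form_e (0, y))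
    simpa using h3
  exact (hφ (Form_e (s, y))).hasFDerivAt.comp_hasDerivAt s h1

theorem poin0 {φ : P3 → ℝ} (hφ : IsTest φ) : I0 φ ≤ 1 / 2 * ∫ x in Cube, pd 0 φ x ^ 2 := by
  have hc : Continuous φ := hφ.smooth.cont
  have hc' : Continuous (pd 0 φ) := (hφ.smooth.pd 0).cont
  have hs : Continuous fun x => φ x ^ 2 := hc.pow 2
  have hs' : Continuous fun x => pd 0 φ x ^ 2 := hc'.pow 2
  unfold I0
  rw [Form_fub hs, Form_fub hs', ← integral_const_mul]
  refine integral_mono (Form_int hs).integral_prod_right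
    ((Form_int hs').integral_prod_right.const_mul _) fun y => ?_
  refine Form_one (fun s => φ (Form_e (s, y))) (fun s => pd 0 φ (Form_e (s, y)))
    (fun s => Form_deriv hφ.smooth.diff y s) ?_ ?_
  · exact hc'.comp (Form_cont.comp (by fun_prop))
  · obtain ⟨_, δ, hδ, h⟩ := hφ
    refine h _ (Or.inl ?_)
    simpa [Form_e] using hδ

theorem coer {a : ℝ} (ha : 0 < a) (hb : 0 < 4 * a) : ∃ c : ℝ, 0 < c ∧ ∀ φ, IsTest φ →
    c * (I0 φ + I1 φ) ≤ (nil a (4 * a) ha hb).Q φ φ := by
  refine ⟨min (a ^ 2) (1 / 12), lt_min (by positivity) (by norm_num), fun φ hφ => ?_⟩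
  set c := min (a ^ 2) (1 / 12) with hc
  have hc0 : 0 < c := lt_min (by positivity) (by norm_num)
  have hc1 : c ≤ a ^ 2 := min_le_left _ _
  have hc2 : c ≤ 1 / 12 := min_le_right _ _
  have h0 : IsSmooth φ := hφ.smooth
  have k : ∀ i, Continuous (pd i φ) := fun i => (h0.pd i).cont
  have i0 : IntegrableOn (fun x => φ x ^ 2) Cube := integrableOn_Cube (h0.cont.pow 2).continuousOn
  have i1 : ∀ i, IntegrableOn (fun x => pd i φ x ^ 2) Cube := fun i =>
    integrableOn_Cube ((k i).pow 2).continuousOn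
  have i12 : IntegrableOn (fun x => pd 1 φ x ^ 2 + pd 2 φ x ^ 2) Cube := (i1 1).add (i1 2)
  have i00 : IntegrableOn (fun x => pd 0 φ x ^ 2 - φ x ^ 2) Cube := (i1 0).sub i0
  have hp := poin0 hφ
  have e1 : I1 φ = (∫ x in Cube, pd 0 φ x ^ 2) + ∫ x in Cube, (pd 1 φ x ^ 2 + pd 2 φ x ^ 2) := by
    unfold I1
    rw [← integral_add (i1 0) i12]
    refine integral_congr_ae (Eventually.of_forall fun x => ?_)
    simp only [Fin.sum_univ_three]
    ring
  have e2 : (nil a (4 * a) ha hb).Q φ φ ≥ (4 * a ^ 2) * ((∫ x in Cube, pd 0 φ x ^ 2) - I0 φ) +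
      1 / 12 * ∫ x in Cube, (pd 1 φ x ^ 2 + pd 2 φ x ^ 2) := by
    unfold I0 Metric.Q
    rw [← integral_sub (i1 0) i0, ← integral_const_mul, ← integral_const_mul,
      ← integral_add (i00.const_mul _) (i12.const_mul _)]
    refine setIntegral_mono_on ((i00.const_mul _).add (i12.const_mul _))
      ?_ measurableSet_Cube fun x hx => ?_
    · refine integrableOn_Cube (Continuous.continuousOn ?_)
      have : (fun x => (nil a (4 * a) ha hb).dens x (fun i => pd i φ x) (φ x)
          (fun i => pd i φ x) (φ x)) = fun x => a * (4 * a) * (pd 0 φ x * pd 0 φ x +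
          (pd 1 φ x + x 0 * pd 2 φ x) * (pd 1 φ x + x 0 * pd 2 φ x) / a ^ 2 +
          pd 2 φ x * pd 2 φ x / (4 * a) ^ 2 - ((4 * a) / (4 * a)) ^ 2 * (φ x * φ x)) :=
        funext fun x => nil_dens ha hb x _ _ _ _
      rw [this]
      have k0 := k 0
      have k1 := k 1
      have k2 := k 2
      have k3 := h0.cont
      fun_prop
    · rw [nil_dens]
      have hx0 := hx 0
      have h1 : (4 * a / (4 * a)) = 1 := div_self hb.ne'
      rw [h1]
      have h2 : a * (4 * a) * (pd 0 φ x * pd 0 φ x +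
          (pd 1 φ x + x 0 * pd 2 φ x) * (pd 1 φ x + x 0 * pd 2 φ x) / a ^ 2 +
          pd 2 φ x * pd 2 φ x / (4 * a) ^ 2 - 1 ^ 2 * (φ x * φ x)) =
          (4 * a ^ 2) * (pd 0 φ x ^ 2 - φ x ^ 2) +
          (4 * (pd 1 φ x + x 0 * pd 2 φ x) ^ 2 + pd 2 φ x ^ 2 / 4) := by
        field_simp
        ring
      rw [h2]
      have h3 : 1 / 12 * (pd 1 φ x ^ 2 + pd 2 φ x ^ 2) ≤
          4 * (pd 1 φ x + x 0 * pd 2 φ x) ^ 2 + pd 2 φ x ^ 2 / 4 := by
        set P := pd 1 φ x
        set R := pd 2 φ x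
        set t := x 0
        have h4 : t ^ 2 * R ^ 2 ≤ R ^ 2 := by
          have : t ^ 2 ≤ 1 := by nlinarith [hx0.1, hx0.2]
          nlinarith [sq_nonneg R]
        have h5 : P ^ 2 ≤ 2 * (P + t * R) ^ 2 + 2 * (t ^ 2 * R ^ 2) := by
          nlinarith [sq_nonneg (P + 2 * (t * R))]
        nlinarith [sq_nonneg (P + t * R), sq_nonneg R]
      linarith
  have e3 : 0 ≤ ∫ x in Cube, (pd 1 φ x ^ 2 + pd 2 φ x ^ 2) :=
    integral_nonneg fun x => by positivity
  have e4 : 0 ≤ ∫ x in Cube, pd 0 φ x ^ 2 := integral_nonneg fun x => sq_nonneg _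
  have e5 : 0 ≤ I0 φ := integral_nonneg fun x => sq_nonneg _
  rw [e1]
  set X := ∫ x in Cube, pd 0 φ x ^ 2
  set Y := ∫ x in Cube, (pd 1 φ x ^ 2 + pd 2 φ x ^ 2)
  set Z := I0 φ
  have a2 : 0 < a ^ 2 := by positivity
  have f1 : c * (Z + (X + Y)) ≤ a ^ 2 * (Z + X) + 1 / 12 * Y := by
    nlinarith [mul_le_mul_of_nonneg_right hc1 (add_nonneg e5 e4), mul_le_mul_of_nonneg_right hc2 e3]
  have f2 : a ^ 2 * (Z + X) ≤ 4 * a ^ 2 * (X - Z) := by
    nlinarith
  linarith

end Pool.Agent.L5helper93.CE
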