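import Pool.Agent.L5helper93.CE.MeanDefs
import Pool.Agent.W585.Param

set_option autoImplicit false

noncomputable section

open MeasureTheory Matrix Filter Topology
open scoped ContDiff

namespace Pool.Agent.L5helper93.CE

/-! ## Fubini on the cube -/

theorem Mean_fubini_pi {g : (Fin 3 → ℝ) → ℝ} (hg : Continuous g) :
    ∫ w in Set.univ.pi (fun _ : Fin 3 => Set.Icc (0 : ℝ) 1), g w =
      ∫ s in (0 : ℝ)..1, ∫ y in (0 : ℝ)..1, ∫ z in (0 : ℝ)..1, g ![s, y, z] := by
  have hII : ∀ h : ℝ → ℝ, ∫ s in (0 : ℝ)..1, h s = ∫ s in Set.Icc (0 : ℝ) 1, h s := by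
    intro h
    rw [intervalIntegral.integral_of_le zero_le_one, integral_Icc_eq_integral_Ioc]
  set e : ℝ × (Fin 2 → ℝ) ≃ᵐ (Fin 3 → ℝ) := (MeasurableEquiv.piFinSuccAbove (fun _ : Fin 3 => ℝ) 0).symm with he
  have hep : MeasurePreserving e := (volume_preserving_piFinSuccAbove (fun _ : Fin 3 => ℝ) 0).symm _
  have heq : ∀ (s : ℝ) (u : Fin 2 → ℝ), e (s, u) = ![s, u 0, u 1] := by
    intro s u
    have : e (s, u) = Fin.insertNth (0 : Fin 3) s u := rfl
    rw [this]
    ext i
    fin_cases i <;> rfl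
  rw [← hep.setIntegral_preimage_emb e.measurableEmbedding g]
  have hpre : e ⁻¹' (Set.univ.pi (fun _ : Fin 3 => Set.Icc (0 : ℝ) 1)) =
      Set.Icc (0 : ℝ) 1 ×ˢ Set.univ.pi (fun _ : Fin 2 => Set.Icc (0 : ℝ) 1) := by
    ext ⟨s, u⟩
    simp only [Set.mem_preimage, heq, Set.mem_pi, Set.mem_univ, true_implies, Set.mem_prod,
      Fin.forall_fin_succ]
    simp
  rw [hpre, Measure.volume_eq_prod]
  have hcont : Continuous fun x : ℝ × (Fin 2 → ℝ) => g (e x) := by
    have : (fun x : ℝ × (Fin 2 → ℝ) => g (e x)) = fun x => g ![x.1, x.2 0, x.2 1] := by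
      funext x
      rw [← heq]
    rw [this]
    exact hg.comp (by fun_prop)
  have hcomp : IsCompact (Set.Icc (0 : ℝ) 1 ×ˢ Set.univ.pi (fun _ : Fin 2 => Set.Icc (0 : ℝ) 1)) :=
    isCompact_Icc.prod (isCompact_univ_pi fun _ => isCompact_Icc)
  rw [setIntegral_prod _ (hcont.continuousOn.integrableOn_compact hcomp), hII]
  refine setIntegral_congr_fun measurableSet_Icc fun s _ => ?_
  simp only [heq]
  set e2 : ℝ × ℝ ≃ᵐ (Fin 2 → ℝ) := (MeasurableEquiv.finTwoArrow (α := ℝ)).symm with he2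
  have hep2 : MeasurePreserving e2 := (volume_preserving_finTwoArrow ℝ).symm _
  have heq2 : ∀ y z : ℝ, e2 (y, z) = ![y, z] := fun y z => rfl
  rw [← hep2.setIntegral_preimage_emb e2.measurableEmbedding]
  have hpre2 : e2 ⁻¹' (Set.univ.pi (fun _ : Fin 2 => Set.Icc (0 : ℝ) 1)) =
      Set.Icc (0 : ℝ) 1 ×ˢ Set.Icc (0 : ℝ) 1 := by
    ext ⟨y, z⟩
    simp only [Set.mem_preimage, heq2, Set.mem_pi, Set.mem_univ, true_implies, Set.mem_prod,
      Fin.forall_fin_two]
    rfl
  rw [hpre2, Measure.volume_eq_prod]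
  have hcont2 : Continuous fun x : ℝ × ℝ => g ![s, e2 x 0, e2 x 1] := by
    have : (fun x : ℝ × ℝ => g ![s, e2 x 0, e2 x 1]) = fun x => g ![s, x.1, x.2] := by
      funext x
      rfl
    rw [this]
    exact hg.comp (by fun_prop)
  rw [setIntegral_prod _ (hcont2.continuousOn.integrableOn_compact (isCompact_Icc.prod isCompact_Icc)), hII]
  refine setIntegral_congr_fun measurableSet_Icc fun y _ => ?_
  rw [hII]
  rfl

theorem Mean_fubini {f : P3 → ℝ} (hf : Continuous f) : ∫ x in Cube, f x =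
    ∫ s in (0 : ℝ)..1, ∫ y in (0 : ℝ)..1, ∫ z in (0 : ℝ)..1, f (WithLp.toLp 2 ![s, y, z]) := by
  have h1 : MeasurePreserving (WithLp.toLp 2 : (Fin 3 → ℝ) → P3) := PiLp.volume_preserving_toLp (Fin 3)
  have h2 : MeasurableEmbedding (WithLp.toLp 2 : (Fin 3 → ℝ) → P3) :=
    (MeasurableEquiv.toLp 2 (Fin 3 → ℝ)).measurableEmbedding
  rw [← h1.setIntegral_preimage_emb h2]
  have h3 : (WithLp.toLp 2 : (Fin 3 → ℝ) → P3) ⁻¹' Cube =
      Set.univ.pi (fun _ : Fin 3 => Set.Icc (0 : ℝ) 1) := by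
    ext w
    simp only [Set.mem_preimage, Cube, Set.mem_ofPred_eq, Set.mem_pi, Set.mem_univ, true_implies, Set.mem_Icc]
  rw [h3]
  exact Mean_fubini_pi (g := fun w => f (WithLp.toLp 2 w)) (hf.comp (by fun_prop))

/-! ## Smoothness of the mean -/

theorem Mean_cd {φ : P3 → ℝ} (hφ : IsSmooth φ) : ContDiff ℝ ∞ (mean2 φ) := by
  have h1 : ContDiff ℝ ∞ (fun p : (ℝ × ℝ) × ℝ => φ (WithLp.toLp 2 ![p.1.1, p.1.2, p.2])) := by
    refine hφ.cd.comp ?_
    rw [contDiff_euclidean]
    intro i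
    fin_cases i
    · exact contDiff_fst.comp contDiff_fst
    · exact contDiff_snd.comp contDiff_fst
    · exact contDiff_snd
  have h2 := Pool.Agent.W585.contDiff_param (E := ℝ × ℝ) (G := ℝ)
    (F := fun q z => φ (WithLp.toLp 2 ![q.1, q.2, z])) h1 0 1
  exact Pool.Agent.W585.contDiff_param (E := ℝ) (G := ℝ)
    (F := fun s y => ∫ z in (0 : ℝ)..1, φ (WithLp.toLp 2 ![s, y, z])) h2 0 1

theorem mean2_test {φ : P3 → ℝ} (hφ : IsTest φ) : IsTest fun x => mean2 φ (x 0) := by
  obtain ⟨h1, δ, hδ, h2⟩ := hφ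
  refine ⟨isSmooth_zero_coord (Mean_cd h1), δ, hδ, fun x hx => ?_⟩
  show mean2 φ (x 0) = 0
  unfold mean2
  have h3 : ∀ y z : ℝ, φ (WithLp.toLp 2 ![x 0, y, z]) = 0 := fun y z => h2 _ (by simpa using hx)
  simp only [h3, intervalIntegral.integral_zero]

/-! ## The one dimensional estimates -/

/-- `(∫ h)² ≤ ∫ h²` on the unit interval -/
theorem Mean_jensen {h : ℝ → ℝ} (hh : Continuous h) :
    (∫ t in (0 : ℝ)..1, h t) ^ 2 ≤ ∫ t in (0 : ℝ)..1, h t ^ 2 := by
  set c : ℝ := ∫ t in (0 : ℝ)..1, h t with hc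
  have h1 : 0 ≤ ∫ t in (0 : ℝ)..1, (h t - c) ^ 2 :=
    intervalIntegral.integral_nonneg zero_le_one fun t _ => sq_nonneg _
  have h2 : ∫ t in (0 : ℝ)..1, (h t - c) ^ 2 = (∫ t in (0 : ℝ)..1, h t ^ 2) - 2 * c * c + c ^ 2 := by
    have e : ∀ t, (h t - c) ^ 2 = h t ^ 2 - 2 * c * h t + c ^ 2 := fun t => by ring
    simp only [e]
    rw [intervalIntegral.integral_add, intervalIntegral.integral_sub, intervalIntegral.integral_const_mul]
    · simp [hc]
    · exact (hh.pow 2).intervalIntegrable _ _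
    · exact (continuous_const.mul hh).intervalIntegrable _ _
    · exact ((hh.pow 2).sub (continuous_const.mul hh)).intervalIntegrable _ _
    · exact continuous_const.intervalIntegrable _ _
  rw [h2] at h1
  nlinarith

/-- the oscillation on the unit interval -/
theorem Mean_osc {g g' : ℝ → ℝ} (hg : ∀ t, HasDerivAt g (g' t) t) (hg' : Continuous g') {x y : ℝ}
    (hx : x ∈ Set.Icc (0 : ℝ) 1) (hy : y ∈ Set.Icc (0 : ℝ) 1) :
    (g x - g y) ^ 2 ≤ ∫ t in (0 : ℝ)..1, g' t ^ 2 := by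
  have h1 : g x - g y = ∫ t in y..x, g' t :=
    (intervalIntegral.integral_eq_sub_of_hasDerivAt (fun t _ => hg t) (hg'.intervalIntegrable _ _)).symm
  have h2 : |g x - g y| ≤ ∫ t in (0 : ℝ)..1, |g' t| := by
    rw [h1]
    refine (intervalIntegral.norm_integral_le_integral_norm_uIoc (f := g')).trans ?_
    rw [intervalIntegral.integral_of_le zero_le_one]
    refine setIntegral_mono_set ?_ ?_ ?_
    · exact (hg'.abs.intervalIntegrable 0 1).1
    · exact Eventually.of_forall fun t => abs_nonneg _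
    · refine LE.le.eventuallyLE ?_
      intro t ht
      rw [Set.mem_uIoc] at ht
      rcases ht with ht | ht
      · exact ⟨lt_of_le_of_lt hy.1 ht.1, ht.2.trans hx.2⟩
      · exact ⟨lt_of_le_of_lt hx.1 ht.1, ht.2.trans hy.2⟩
  have h3 := Mean_jensen (h := fun t => |g' t|) hg'.abs
  simp only [sq_abs] at h3
  calc (g x - g y) ^ 2 = |g x - g y| ^ 2 := (sq_abs _).symm
    _ ≤ (∫ t in (0 : ℝ)..1, |g' t|) ^ 2 := pow_le_pow_left₀ (abs_nonneg _) h2 2
    _ ≤ _ := h3

/-- the derivative along a coordinate line -/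
theorem Mean_line {φ : P3 → ℝ} (hφ : IsSmooth φ) (i : Fin 3) (x : P3) (t : ℝ) :
    HasDerivAt (fun t : ℝ => φ (x + t • bv i)) (pd i φ (x + t • bv i)) t := by
  have h1 : HasFDerivAt φ (fderiv ℝ φ (x + t • bv i)) (x + t • bv i) := (hφ.diff _).hasFDerivAt
  have h2 : HasDerivAt (fun t : ℝ => x + t • bv i) (bv i) t := by
    simpa using ((hasDerivAt_id t).smul_const (bv i)).const_add x
  exact h1.comp_hasDerivAt t h2

theorem Mean_swap {f : ℝ → ℝ → ℝ} (hf : Continuous (Function.uncurry f)) :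
    ∫ x in (0 : ℝ)..1, ∫ y in (0 : ℝ)..1, f x y = ∫ y in (0 : ℝ)..1, ∫ x in (0 : ℝ)..1, f x y := by
  simp only [intervalIntegral.integral_of_le zero_le_one]
  refine integral_integral_swap ?_
  rw [Measure.prod_restrict]
  have h1 : IntegrableOn (Function.uncurry f) (Set.Icc (0 : ℝ) 1 ×ˢ Set.Icc (0 : ℝ) 1)
      ((volume : Measure ℝ).prod (volume : Measure ℝ)) :=
    hf.continuousOn.integrableOn_compact (isCompact_Icc.prod isCompact_Icc)
  exact h1.mono_set (Set.prod_mono Set.Ioc_subset_Icc_self Set.Ioc_subset_Icc_self)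

/-- the Poincare inequality on the square -/
theorem Mean_two {F P1 P2 : ℝ → ℝ → ℝ} (hF : Continuous (Function.uncurry F))
    (h1 : Continuous (Function.uncurry P1)) (h2 : Continuous (Function.uncurry P2))
    (d1 : ∀ y z, HasDerivAt (fun y => F y z) (P1 y z) y)
    (d2 : ∀ y z, HasDerivAt (fun z => F y z) (P2 y z) z) :
    ∫ y in (0 : ℝ)..1, ∫ z in (0 : ℝ)..1, (F y z - ∫ y in (0 : ℝ)..1, ∫ z in (0 : ℝ)..1, F y z) ^ 2 ≤
      2 * ∫ y in (0 : ℝ)..1, ∫ z in (0 : ℝ)..1, (P1 y z ^ 2 + P2 y z ^ 2) := by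
  set m : ℝ := ∫ y in (0 : ℝ)..1, ∫ z in (0 : ℝ)..1, F y z with hm
  have cont : ∀ {G : ℝ → ℝ → ℝ}, Continuous (Function.uncurry G) →
      Continuous fun y => ∫ z in (0 : ℝ)..1, G y z := fun h =>
    intervalIntegral.continuous_parametric_intervalIntegral_of_continuous' h 0 1
  have hF' : Continuous fun p : ℝ × ℝ => F p.1 p.2 := hF
  have h1' : Continuous fun p : ℝ × ℝ => P1 p.1 p.2 := h1
  have h2' : Continuous fun p : ℝ × ℝ => P2 p.1 p.2 := h2
  have hFc : ∀ y, Continuous fun z => F y z := fun y => hF'.comp (by fun_prop : Continuous fun z : ℝ => (y, z))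
  set A : ℝ → ℝ := fun z => ∫ t in (0 : ℝ)..1, P1 t z ^ 2 with hA
  set B : ℝ → ℝ := fun y => ∫ t in (0 : ℝ)..1, P2 y t ^ 2 with hB
  have hAc : Continuous A := by
    refine cont (G := fun z t => P1 t z ^ 2) ?_
    exact (h1'.comp (by fun_prop : Continuous fun p : ℝ × ℝ => (p.2, p.1))).pow 2
  have hBc : Continuous B := cont (G := fun y t => P2 y t ^ 2) (h2'.pow 2)
  have hpt : ∀ y ∈ Set.Icc (0 : ℝ) 1, ∀ z ∈ Set.Icc (0 : ℝ) 1,
      (F y z - m) ^ 2 ≤ 2 * A z + 2 * ∫ y' in (0 : ℝ)..1, B y' := by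
    intro y hy z hz
    have e1 : F y z - m = ∫ y' in (0 : ℝ)..1, ∫ z' in (0 : ℝ)..1, (F y z - F y' z') := by
      have e2 : ∀ y', ∫ z' in (0 : ℝ)..1, (F y z - F y' z') = F y z - ∫ z' in (0 : ℝ)..1, F y' z' := by
        intro y'
        rw [intervalIntegral.integral_sub (continuous_const.intervalIntegrable _ _)
          ((hFc y').intervalIntegrable _ _)]
        simp
      simp only [e2]
      rw [intervalIntegral.integral_sub (continuous_const.intervalIntegrable _ _)
          ((cont hF).intervalIntegrable _ _)]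
      simp [hm]
    have hGc : Continuous (Function.uncurry fun y' z' => F y z - F y' z') := continuous_const.sub hF'
    rw [e1]
    refine (Mean_jensen (cont hGc)).trans ?_
    have e3 : 2 * A z + 2 * ∫ y' in (0 : ℝ)..1, B y' = ∫ y' in (0 : ℝ)..1, (2 * A z + 2 * B y') := by
      rw [intervalIntegral.integral_add (f := fun _ => 2 * A z) (g := fun y' => 2 * B y')
        (continuous_const.intervalIntegrable _ _)
        ((continuous_const.mul hBc).intervalIntegrable _ _), intervalIntegral.integral_const_mul]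
      simp
    rw [e3]
    refine intervalIntegral.integral_mono_on zero_le_one (((cont hGc).pow 2).intervalIntegrable _ _)
      ((continuous_const.add (continuous_const.mul hBc)).intervalIntegrable _ _) fun y' hy' => ?_
    have hGy : Continuous fun z' => F y z - F y' z' := continuous_const.sub (hFc y')
    refine (Mean_jensen hGy).trans ?_
    have e4 : 2 * A z + 2 * B y' = ∫ z' in (0 : ℝ)..1, (2 * A z + 2 * B y') := by simp
    rw [e4]
    refine intervalIntegral.integral_mono_on zero_le_one ((hGy.pow 2).intervalIntegrable _ _)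
      (continuous_const.intervalIntegrable _ _) fun z' hz' => ?_
    have o1 : (F y z - F y' z) ^ 2 ≤ A z :=
      Mean_osc (g := fun t => F t z) (g' := fun t => P1 t z) (fun t => d1 t z)
        (h1'.comp (by fun_prop : Continuous fun t : ℝ => (t, z))) hy hy'
    have o2 : (F y' z - F y' z') ^ 2 ≤ B y' :=
      Mean_osc (g := fun t => F y' t) (g' := fun t => P2 y' t) (fun t => d2 y' t)
        (h2'.comp (by fun_prop : Continuous fun t : ℝ => (y', t))) hz hz'
    nlinarith [sq_nonneg ((F y z - F y' z) - (F y' z - F y' z'))]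
  have hswap : ∫ z in (0 : ℝ)..1, A z = ∫ y in (0 : ℝ)..1, ∫ z in (0 : ℝ)..1, P1 y z ^ 2 := by
    exact Mean_swap (f := fun z y => P1 y z ^ 2)
      ((h1'.comp (by fun_prop : Continuous fun p : ℝ × ℝ => (p.2, p.1))).pow 2)
  have e5 : 2 * ∫ y in (0 : ℝ)..1, ∫ z in (0 : ℝ)..1, (P1 y z ^ 2 + P2 y z ^ 2) =
      ∫ y in (0 : ℝ)..1, ∫ z in (0 : ℝ)..1, (2 * A z + 2 * ∫ y' in (0 : ℝ)..1, B y') := by
    have e6 : ∀ y, ∫ z in (0 : ℝ)..1, (P1 y z ^ 2 + P2 y z ^ 2) =
        (∫ z in (0 : ℝ)..1, P1 y z ^ 2) + B y := by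
      intro y
      rw [intervalIntegral.integral_add]
      · exact ((h1'.comp (by fun_prop : Continuous fun z : ℝ => (y, z))).pow 2).intervalIntegrable _ _
      · exact ((h2'.comp (by fun_prop : Continuous fun z : ℝ => (y, z))).pow 2).intervalIntegrable _ _
    simp only [e6]
    have hP : Continuous (Function.uncurry fun y z => P1 y z ^ 2) := h1'.pow 2
    rw [intervalIntegral.integral_add (f := fun y => ∫ z in (0 : ℝ)..1, P1 y z ^ 2) (g := B)
      ((cont hP).intervalIntegrable _ _) (hBc.intervalIntegrable _ _), ← hswap]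
    have e7 : ∫ z in (0 : ℝ)..1, (2 * A z + 2 * ∫ y' in (0 : ℝ)..1, B y') =
        2 * (∫ z in (0 : ℝ)..1, A z) + 2 * ∫ y' in (0 : ℝ)..1, B y' := by
      rw [intervalIntegral.integral_add (f := fun z => 2 * A z) (g := fun _ => 2 * ∫ y' in (0 : ℝ)..1, B y')
        ((continuous_const.mul hAc).intervalIntegrable _ _)
        (continuous_const.intervalIntegrable _ _), intervalIntegral.integral_const_mul]
      simp
    rw [e7]
    simp
    ring
  rw [e5]
  have hL : Continuous (Function.uncurry fun y z => (F y z - m) ^ 2) := (hF'.sub continuous_const).pow 2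
  refine intervalIntegral.integral_mono_on zero_le_one ((cont hL).intervalIntegrable _ _)
    (continuous_const.intervalIntegrable _ _) fun y hy => ?_
  refine intervalIntegral.integral_mono_on zero_le_one
    ((((hFc y).sub continuous_const).pow 2).intervalIntegrable _ _)
    (((continuous_const.mul hAc).add continuous_const).intervalIntegrable _ _) fun z hz => ?_
  exact hpt y hy z hz

theorem Mean_pt1 (s y z : ℝ) : (WithLp.toLp 2 ![s, y, z] : P3) = WithLp.toLp 2 ![s, 0, z] + y • bv 1 := by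
  ext i
  fin_cases i <;> simp [bv]

theorem Mean_pt2 (s y z : ℝ) : (WithLp.toLp 2 ![s, y, z] : P3) = WithLp.toLp 2 ![s, y, 0] + z • bv 2 := by
  ext i
  fin_cases i <;> simp [bv]

theorem poin12 {φ : P3 → ℝ} (hφ : IsTest φ) : ∫ x in Cube, (φ x - mean2 φ (x 0)) ^ 2 ≤
    2 * ∫ x in Cube, (pd 1 φ x ^ 2 + pd 2 φ x ^ 2) := by
  have hs := hφ.smooth
  have hc := hs.cont
  have hm : Continuous (mean2 φ) := (Mean_cd hs).continuous
  have h1c := (hs.pd 1).cont
  have h2c := (hs.pd 2).cont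
  have hx0 : Continuous fun x : P3 => mean2 φ (x 0) := hm.comp (by fun_prop)
  rw [Mean_fubini (f := fun x => (φ x - mean2 φ (x 0)) ^ 2) ((hc.sub hx0).pow 2),
    Mean_fubini (f := fun x => pd 1 φ x ^ 2 + pd 2 φ x ^ 2) ((h1c.pow 2).add (h2c.pow 2)),
    ← intervalIntegral.integral_const_mul]
  have cont2 : ∀ {G : P3 → ℝ}, Continuous G →
      Continuous fun s => ∫ y in (0 : ℝ)..1, ∫ z in (0 : ℝ)..1, G (WithLp.toLp 2 ![s, y, z]) := by
    intro G hG
    refine intervalIntegral.continuous_parametric_intervalIntegral_of_continuous'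
      (f := fun s y => ∫ z in (0 : ℝ)..1, G (WithLp.toLp 2 ![s, y, z])) ?_ 0 1
    refine intervalIntegral.continuous_parametric_intervalIntegral_of_continuous'
      (f := fun (q : ℝ × ℝ) z => G (WithLp.toLp 2 ![q.1, q.2, z])) ?_ 0 1
    exact hG.comp (by fun_prop)
  refine intervalIntegral.integral_mono_on zero_le_one
    ((cont2 (G := fun x => (φ x - mean2 φ (x 0)) ^ 2) ((hc.sub hx0).pow 2)).intervalIntegrable _ _)
    ((continuous_const.mul (cont2 (G := fun x => pd 1 φ x ^ 2 + pd 2 φ x ^ 2)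
      ((h1c.pow 2).add (h2c.pow 2)))).intervalIntegrable _ _) fun s _ => ?_
  refine Mean_two (F := fun y z => φ (WithLp.toLp 2 ![s, y, z]))
    (P1 := fun y z => pd 1 φ (WithLp.toLp 2 ![s, y, z])) (P2 := fun y z => pd 2 φ (WithLp.toLp 2 ![s, y, z]))
    (hc.comp (by fun_prop)) (h1c.comp (by fun_prop)) (h2c.comp (by fun_prop)) ?_ ?_
  · intro y z
    have := Mean_line hs 1 (WithLp.toLp 2 ![s, 0, z]) y
    simp only [← Mean_pt1] at this
    exact this
  · intro y z
    have := Mean_line hs 2 (WithLp.toLp 2 ![s, y, 0]) z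
    simp only [← Mean_pt2] at this
    exact this

end Pool.Agent.L5helper93.CE
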