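import Pool.Agent.L5helper93.CE.CoefA
import Pool.Agent.L5helper93.CE.CoefB

set_option autoImplicit false

noncomputable section

open MeasureTheory Matrix Filter Topology
open scoped ContDiff

namespace Pool.Agent.L5helper93.CE

theorem Step_inv_symm (G : Metric) {x : P3} (hx : x ∈ Slab) (i j : Fin 3) :
    G.inv x i j = G.inv x j i := by
  have h1 := (G.pos x hx).isHermitian.inv
  have h2 := h1.apply i j
  show (G.g x)⁻¹ i j = (G.g x)⁻¹ j i
  simpa using h2.symm

theorem Step_dens_eq (G : Metric) (x : P3) (p q : Fin 3 → ℝ) (u v : ℝ) :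
    G.dens x p u q v = ∑ i, ∑ j, (G.inv x i j * G.vol x) * (p i * q j) +
      (1 / 8 * G.scal x * G.vol x) * (u * v) := by
  unfold Metric.dens
  rw [add_mul, Finset.sum_mul]
  congr 1
  · refine Finset.sum_congr rfl fun i _ => ?_
    rw [Finset.sum_mul]
    exact Finset.sum_congr rfl fun j _ => by ring
  · ring

theorem Step_dens_int (G : Metric) {φ ψ : P3 → ℝ} (hφ : IsSmooth φ) (hψ : IsSmooth ψ) :
    IntegrableOn (fun x => G.dens x (fun i => pd i φ x) (φ x) (fun i => pd i ψ x) (ψ x)) Cube := by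
  apply integrableOn_Cube
  simp only [Step_dens_eq]
  obtain ⟨h1, h2⟩ := met_cont G
  refine ContinuousOn.add ?_ (h2.mul (hφ.cont.mul hψ.cont).continuousOn)
  refine continuousOn_finsetSum _ fun i _ => continuousOn_finsetSum _ fun j _ => ?_
  exact (h1 i j).mul ((hφ.pd i).cont.mul (hψ.pd j).cont).continuousOn

theorem Q_symm (G : Metric) (φ ψ : P3 → ℝ) : G.Q φ ψ = G.Q ψ φ := by
  unfold Metric.Q
  refine setIntegral_congr_fun measurableSet_Cube fun x hx => ?_
  simp only [Step_dens_eq]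
  rw [Finset.sum_comm, mul_comm (φ x)]
  congr 1
  refine Finset.sum_congr rfl fun i _ => Finset.sum_congr rfl fun j _ => ?_
  rw [Step_inv_symm G (Cube_sub hx) j i]
  ring

theorem Q_add (G : Metric) {φ ψ χ : P3 → ℝ} (hφ : IsTest φ) (hψ : IsTest ψ) (hχ : IsTest χ) :
    G.Q (fun x => φ x + ψ x) χ = G.Q φ χ + G.Q ψ χ := by
  unfold Metric.Q
  rw [← integral_add (Step_dens_int G hφ.smooth hχ.smooth) (Step_dens_int G hψ.smooth hχ.smooth)]
  refine setIntegral_congr_fun measurableSet_Cube fun x _ => ?_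
  simp only [Step_dens_eq, pd_add hφ.smooth hψ.smooth]
  rw [add_add_add_comm, ← Finset.sum_add_distrib]
  congr 1
  · refine Finset.sum_congr rfl fun i _ => ?_
    rw [← Finset.sum_add_distrib]
    exact Finset.sum_congr rfl fun j _ => by ring
  · ring

theorem Q_smul (G : Metric) {φ χ : P3 → ℝ} (hφ : IsTest φ) (c : ℝ) (hχ : IsTest χ) :
    G.Q (fun x => c * φ x) χ = c * G.Q φ χ := by
  unfold Metric.Q
  rw [← integral_const_mul]
  refine setIntegral_congr_fun measurableSet_Cube fun x _ => ?_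
  simp only [Step_dens_eq, pd_smul hφ.smooth]
  rw [mul_add, Finset.mul_sum]
  congr 1
  · refine Finset.sum_congr rfl fun i _ => ?_
    rw [Finset.mul_sum]
    exact Finset.sum_congr rfl fun j _ => by ring
  · ring

theorem Q_cs (G : Metric) (hG : ∀ φ, IsTest φ → 0 ≤ G.Q φ φ) {φ ψ : P3 → ℝ} (hφ : IsTest φ)
    (hψ : IsTest ψ) : (G.Q φ ψ) ^ 2 ≤ G.Q φ φ * G.Q ψ ψ := by
  have key : ∀ t : ℝ, 0 ≤ G.Q ψ ψ * (t * t) + (2 * G.Q φ ψ) * t + G.Q φ φ := by
    intro t
    have ht := hψ.smul t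
    have h := hG _ (hφ.add ht)
    have e1 : G.Q (fun x => φ x + t * ψ x) (fun x => φ x + t * ψ x) =
        G.Q ψ ψ * (t * t) + (2 * G.Q φ ψ) * t + G.Q φ φ := by
      rw [Q_add G hφ ht (hφ.add ht), Q_symm G φ, Q_add G hφ ht hφ,
        Q_symm G (fun x => t * ψ x) (fun x => φ x + t * ψ x), Q_add G hφ ht ht,
        Q_smul G hψ t hφ, Q_symm G φ (fun x => t * ψ x), Q_smul G hψ t hφ,
        Q_smul G hψ t ht, Q_symm G ψ (fun x => t * ψ x), Q_smul G hψ t hψ,
        Q_symm G ψ φ]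
      ring
    rw [← e1]
    exact h
  have h := discrim_le_zero key
  unfold discrim at h
  nlinarith

theorem Step_I0_int {φ : P3 → ℝ} (hφ : IsTest φ) : IntegrableOn (fun x => φ x ^ 2) Cube :=
  integrableOn_Cube (hφ.smooth.cont.pow 2).continuousOn

theorem Step_I1_int {φ : P3 → ℝ} (hφ : IsTest φ) :
    IntegrableOn (fun x => ∑ i, pd i φ x ^ 2) Cube :=
  integrableOn_Cube (continuous_finsetSum _ fun i _ =>
    ((hφ.smooth.pd i).cont.pow 2)).continuousOn

theorem garding (G : Metric) : ∃ c C : ℝ, 0 < c ∧ 0 < C ∧ ∀ φ, IsTest φ →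
    c * I1 φ - C * I0 φ ≤ G.Q φ φ := by
  obtain ⟨c, C, hc, hC, h⟩ := met_bound G
  refine ⟨c, C, hc, hC, fun φ hφ => ?_⟩
  unfold I0 I1 Metric.Q
  rw [← integral_const_mul, ← integral_const_mul, ← integral_sub
    ((Step_I1_int hφ).const_mul c) ((Step_I0_int hφ).const_mul C)]
  exact setIntegral_mono_on (((Step_I1_int hφ).const_mul c).sub ((Step_I0_int hφ).const_mul C))
    (Step_dens_int G hφ.smooth hφ.smooth) measurableSet_Cube
    fun x hx => h x hx _ _

theorem Q_close {G : ℝ → Metric} (hG : IsCurve G) {t : ℝ} (ht : t ∈ Set.Icc (0 : ℝ) 1) {ε : ℝ}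
    (hε : 0 < ε) : ∃ δ : ℝ, 0 < δ ∧ ∀ s ∈ Set.Icc (0 : ℝ) 1, |s - t| < δ → ∀ φ, IsTest φ →
      |(G s).Q φ φ - (G t).Q φ φ| ≤ ε * (I0 φ + I1 φ) := by
  obtain ⟨δ, hδ, h⟩ := curve_close hG ht (ε := ε / 3) (by positivity)
  refine ⟨δ, hδ, fun s hs hst φ hφ => ?_⟩
  have h1 := h s hs hst
  unfold I0 I1 Metric.Q
  rw [← integral_sub (Step_dens_int (G s) hφ.smooth hφ.smooth)
    (Step_dens_int (G t) hφ.smooth hφ.smooth), ← integral_add (Step_I0_int hφ) (Step_I1_int hφ),
    ← integral_const_mul]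
  refine (abs_integral_le_integral_abs).trans ?_
  refine setIntegral_mono_on ?_ (((Step_I0_int hφ).add (Step_I1_int hφ)).const_mul ε)
    measurableSet_Cube fun x hx => ?_
  · exact ((Step_dens_int (G s) hφ.smooth hφ.smooth).sub
      (Step_dens_int (G t) hφ.smooth hφ.smooth)).abs
  obtain ⟨h2, h3⟩ := h1 x hx
  simp only [Step_dens_eq]
  set p : Fin 3 → ℝ := fun i => pd i φ x with hp
  have e1 : (∑ i, ∑ j, ((G s).inv x i j * (G s).vol x) * (p i * p j) +
        (1 / 8 * (G s).scal x * (G s).vol x) * (φ x * φ x)) -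
      (∑ i, ∑ j, ((G t).inv x i j * (G t).vol x) * (p i * p j) +
        (1 / 8 * (G t).scal x * (G t).vol x) * (φ x * φ x)) =
      ∑ i, ∑ j, ((G s).inv x i j * (G s).vol x - (G t).inv x i j * (G t).vol x) * (p i * p j) +
        (1 / 8 * (G s).scal x * (G s).vol x - 1 / 8 * (G t).scal x * (G t).vol x) *
          (φ x * φ x) := by
    simp only [sub_mul, Finset.sum_sub_distrib]
    ring
  rw [e1]
  have e2 : |∑ i, ∑ j, ((G s).inv x i j * (G s).vol x - (G t).inv x i j * (G t).vol x) *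
      (p i * p j)| ≤ ε / 3 * (3 * ∑ i, p i ^ 2) := by
    calc |∑ i, ∑ j, ((G s).inv x i j * (G s).vol x - (G t).inv x i j * (G t).vol x) *
          (p i * p j)|
        ≤ ∑ i, ∑ j, |((G s).inv x i j * (G s).vol x - (G t).inv x i j * (G t).vol x) *
          (p i * p j)| :=
          (Finset.abs_sum_le_sum_abs _ _).trans (Finset.sum_le_sum fun i _ =>
            Finset.abs_sum_le_sum_abs _ _)
      _ ≤ ∑ i, ∑ j, ε / 3 * ((p i ^ 2 + p j ^ 2) / 2) := by
          refine Finset.sum_le_sum fun i _ => Finset.sum_le_sum fun j _ => ?_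
          rw [abs_mul]
          refine mul_le_mul (h2 i j) ?_ (abs_nonneg _) (by positivity)
          rw [abs_le]
          constructor <;> nlinarith [sq_nonneg (p i + p j), sq_nonneg (p i - p j)]
      _ = ε / 3 * (3 * ∑ i, p i ^ 2) := by
          simp only [Fin.sum_univ_three]
          ring
  have e3 : |(1 / 8 * (G s).scal x * (G s).vol x - 1 / 8 * (G t).scal x * (G t).vol x) *
      (φ x * φ x)| ≤ ε / 3 * φ x ^ 2 := by
    rw [abs_mul, abs_mul_self, ← sq]
    exact mul_le_mul_of_nonneg_right h3 (sq_nonneg _)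
  have e4 : 0 ≤ φ x ^ 2 := sq_nonneg _
  calc _ ≤ ε / 3 * (3 * ∑ i, p i ^ 2) + ε / 3 * φ x ^ 2 :=
        (abs_add_le _ _).trans (add_le_add e2 e3)
    _ ≤ ε * (φ x ^ 2 + ∑ i, p i ^ 2) := by nlinarith

end Pool.Agent.L5helper93.CE
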