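import Pool.Agent.L5helper93.CE.Form
import Pool.Agent.L5helper93.CE.Mean
import Pool.Agent.L5helper93.CE.Step

set_option autoImplicit false

noncomputable section

open MeasureTheory Matrix Filter Topology
open scoped ContDiff

namespace Pool.Agent.L5helper93.CE

/-- the coordinates -/
def KernA_e : P3 ≃ᵐ ℝ × (ℝ × ℝ) :=
  ((MeasurableEquiv.toLp 2 (Fin 3 → ℝ)).symm.trans
    (MeasurableEquiv.piFinSuccAbove (fun _ : Fin 3 => ℝ) 0)).trans
    ((MeasurableEquiv.refl ℝ).prodCongr (MeasurableEquiv.finTwoArrow (α := ℝ)))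

theorem KernA_e_apply (x : P3) : KernA_e x = (x 0, (x 1, x 2)) := rfl

/-- the point with given coordinates -/
def KernA_E (p : ℝ × (ℝ × ℝ)) : P3 := WithLp.toLp 2 ![p.1, p.2.1, p.2.2]

theorem KernA_e_symm (p : ℝ × (ℝ × ℝ)) : KernA_e.symm p = KernA_E p := by
  rw [MeasurableEquiv.symm_apply_eq, KernA_e_apply]
  simp [KernA_E]

theorem KernA_mp : MeasurePreserving KernA_e := by
  refine (MeasurePreserving.comp (g := MeasurableEquiv.piFinSuccAbove (fun _ : Fin 3 => ℝ) 0)
    (volume_preserving_piFinSuccAbove (fun _ : Fin 3 => ℝ) 0)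
    (EuclideanSpace.volume_preserving_symm_measurableEquiv_toLp (Fin 3))).trans ?_
  exact (MeasurePreserving.id volume).prod (volume_preserving_finTwoArrow ℝ)


/-- the unit interval and the unit square -/
def KernA_I : Set ℝ := Set.Icc 0 1

def KernA_J : Set (ℝ × ℝ) := KernA_I ×ˢ KernA_I

theorem KernA_pre : KernA_e ⁻¹' (KernA_I ×ˢ KernA_J) = Cube := by
  ext x
  simp only [Set.mem_preimage, KernA_e_apply, KernA_I, KernA_J, Set.mem_prod, Set.mem_Icc, Cube,
    Set.mem_ofPred_eq, Fin.forall_fin_succ, Fin.isValue, IsEmpty.forall_iff, and_true]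
  rfl

theorem KernA_cont_E : Continuous KernA_E := by
  unfold KernA_E
  refine (PiLp.continuous_toLp 2 _).comp (continuous_pi fun i => ?_)
  fin_cases i <;> simp <;> fun_prop

theorem KernA_int {F : P3 → ℝ} : ∫ x in Cube, F x =
    ∫ p in KernA_I ×ˢ KernA_J, F (KernA_E p) := by
  have h := KernA_mp.setIntegral_preimage_emb KernA_e.measurableEmbedding
    (fun p => F (KernA_e.symm p)) (KernA_I ×ˢ KernA_J)
  rw [KernA_pre] at h
  simp only [MeasurableEquiv.symm_apply_apply, KernA_e_symm] at h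
  exact h

theorem KernA_compactI : IsCompact KernA_I := isCompact_Icc

theorem KernA_compactJ : IsCompact KernA_J := isCompact_Icc.prod isCompact_Icc

theorem KernA_integrable {F : P3 → ℝ} (hF : Continuous F) :
    IntegrableOn (fun p => F (KernA_E p)) (KernA_I ×ˢ KernA_J) :=
  (hF.comp KernA_cont_E).continuousOn.integrableOn_compact (KernA_compactI.prod KernA_compactJ)

theorem KernA_fub1 {F : P3 → ℝ} (hF : Continuous F) : ∫ x in Cube, F x =
    ∫ s in KernA_I, ∫ w in KernA_J, F (KernA_E (s, w)) := by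
  rw [KernA_int]
  exact setIntegral_prod _ (KernA_integrable hF)

theorem KernA_fub2 {F : P3 → ℝ} (hF : Continuous F) : ∫ x in Cube, F x =
    ∫ w in KernA_J, ∫ s in KernA_I, F (KernA_E (s, w)) := by
  rw [KernA_int]
  have h := KernA_integrable hF
  have h2 : (volume : Measure (ℝ × (ℝ × ℝ))) = volume.prod volume := rfl
  rw [IntegrableOn, h2, ← Measure.prod_restrict] at h
  rw [h2, ← Measure.prod_restrict]
  exact integral_prod_symm _ h

theorem KernA_mean {F : P3 → ℝ} (hF : Continuous F) (s : ℝ) :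
    ∫ w in KernA_J, F (KernA_E (s, w)) = mean2 F s := by
  have h : IntegrableOn (fun w => F (KernA_E (s, w))) (KernA_I ×ˢ KernA_I) :=
    (hF.comp (KernA_cont_E.comp (by fun_prop))).continuousOn.integrableOn_compact KernA_compactJ
  have h1 := setIntegral_prod (μ := (volume : Measure ℝ)) (ν := (volume : Measure ℝ)) _ h
  have h2 : ∫ w in KernA_J, F (KernA_E (s, w)) =
    ∫ w in KernA_I ×ˢ KernA_I, F (KernA_E (s, w)) ∂((volume : Measure ℝ).prod volume) := rfl
  rw [h2, h1]
  unfold mean2
  rw [intervalIntegral.integral_of_le zero_le_one, KernA_I, integral_Icc_eq_integral_Ioc]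
  refine integral_congr_ae (Eventually.of_forall fun y => ?_)
  simp only
  rw [intervalIntegral.integral_of_le zero_le_one, integral_Icc_eq_integral_Ioc]
  rfl

theorem KernA_volJ : (volume : Measure (ℝ × ℝ)).real KernA_J = 1 := by
  have h2 : (volume : Measure (ℝ × ℝ)) = (volume : Measure ℝ).prod volume := rfl
  rw [KernA_J, h2, Measure.real, Measure.prod_prod, KernA_I, Real.volume_Icc]
  simp

/-- functions of `x 0` are orthogonal to `orth φ` -/
theorem KernA_orth0 {φ : P3 → ℝ} (hφ : IsTest φ) {k : P3 → ℝ} (hk : Continuous k)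
    (hk0 : ∀ s w w', k (KernA_E (s, w)) = k (KernA_E (s, w'))) :
    ∫ x in Cube, k x * orth φ x = 0 := by
  have hm : Continuous fun x : P3 => mean2 φ (x 0) := (mean2_test hφ).smooth.cont
  have ho : Continuous (orth φ) := hφ.smooth.cont.sub hm
  rw [KernA_fub1 (F := fun x => k x * orth φ x) (hk.mul ho)]
  have : ∀ s, ∫ w in KernA_J, k (KernA_E (s, w)) * orth φ (KernA_E (s, w)) = 0 := by
    intro s
    have e1 : ∀ w, k (KernA_E (s, w)) * orth φ (KernA_E (s, w)) =
        k (KernA_E (s, (0, 0))) * (φ (KernA_E (s, w)) - mean2 φ s) := by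
      intro w
      rw [hk0 s w (0, 0)]
      rfl
    simp only [e1]
    rw [integral_const_mul, integral_sub, KernA_mean hφ.smooth.cont, integral_const,
      measureReal_restrict_apply_univ, KernA_volJ]
    · simp
    · exact (hφ.smooth.cont.comp (KernA_cont_E.comp (by fun_prop))).continuousOn.integrableOn_compact
        KernA_compactJ
    · exact continuousOn_const.integrableOn_compact KernA_compactJ
  simp [this]

/-- the integral of `pd 0` of a test function -/
theorem KernA_pd0 {f : P3 → ℝ} (hf : IsTest f) : ∫ x in Cube, pd 0 f x = 0 := by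
  rw [KernA_fub2 (hf.smooth.pd 0).cont]
  have : ∀ w, ∫ s in KernA_I, pd 0 f (KernA_E (s, w)) = 0 := by
    intro w
    have hd : ∀ s : ℝ, HasDerivAt (fun s => f (KernA_E (s, w))) (pd 0 f (KernA_E (s, w))) s := by
      intro s
      have h1 : HasDerivAt (fun s : ℝ => KernA_E (s, w)) (bv 0) s := by
        have : (fun s : ℝ => KernA_E (s, w)) = fun s => KernA_E (0, w) + s • bv 0 := by
          funext s
          ext i
          fin_cases i <;> simp [KernA_E, bv]
        rw [this]
        simpa using ((hasDerivAt_id s).smul_const (bv 0)).const_add (KernA_E (0, w))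
      exact (hf.smooth.diff _).hasFDerivAt.comp_hasDerivAt s h1
    rw [KernA_I, integral_Icc_eq_integral_Ioc, ← intervalIntegral.integral_of_le zero_le_one,
      intervalIntegral.integral_eq_sub_of_hasDerivAt (fun s _ => hd s)]
    · obtain ⟨_, δ, hδ, h⟩ := hf
      rw [h _ (Or.inr (by simp [KernA_E]; exact hδ)), h _ (Or.inl (by simp [KernA_E]; exact hδ)), sub_zero]
    · exact ((hf.smooth.pd 0).cont.comp (KernA_cont_E.comp (by fun_prop))).intervalIntegrable _ _
  simp [this]

theorem KernA_line {h : P3 → ℝ} (hh : IsSmooth h) (i : Fin 3) (x : P3) :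
    HasDerivAt (fun t : ℝ => h (x + t • bv i)) (pd i h x) 0 := by
  have h1 : HasDerivAt (fun t : ℝ => x + t • bv i) (bv i) 0 := by
    simpa using ((hasDerivAt_id (0 : ℝ)).smul_const (bv i)).const_add x
  have h2 : HasFDerivAt h (fderiv ℝ h (x + (0 : ℝ) • bv i)) (x + (0 : ℝ) • bv i) :=
    (hh.diff _).hasFDerivAt
  have h3 := h2.comp_hasDerivAt (0 : ℝ) h1
  simp only [zero_smul, add_zero] at h3
  exact h3

/-- functions of `x 0` -/
theorem KernA_dep {h : P3 → ℝ} (hh : IsSmooth h) {g : ℝ → ℝ} (e : ∀ x, h x = g (x 0)) :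
    (∀ x, pd 0 h x = deriv (fun t => g (x 0 + t)) 0) ∧ (∀ x, pd 1 h x = 0) ∧ ∀ x, pd 2 h x = 0 := by
  refine ⟨fun x => ?_, fun x => ?_, fun x => ?_⟩
  · have h1 := (KernA_line hh 0 x).deriv
    rw [← h1]
    congr 1
    funext t
    rw [e]
    congr 1
    simp [bv]
  · have h1 := (KernA_line hh 1 x).deriv
    have h2 : (fun t : ℝ => h (x + t • bv 1)) = fun _ => h x := by
      funext t
      rw [e, e]
      congr 1
      simp [bv]
    rw [h2, deriv_const] at h1
    exact h1.symm
  · have h1 := (KernA_line hh 2 x).deriv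
    have h2 : (fun t : ℝ => h (x + t • bv 2)) = fun _ => h x := by
      funext t
      rw [e, e]
      congr 1
      simp [bv]
    rw [h2, deriv_const] at h1
    exact h1.symm

theorem KernA_pd_mul {f g : P3 → ℝ} (h : IsSmooth f) (h' : IsSmooth g) (i : Fin 3) (x : P3) :
    pd i (fun y => f y * g y) x = pd i f x * g x + f x * pd i g x := by
  unfold pd
  rw [fderiv_fun_mul (h.diff x) (h'.diff x)]
  simp only [_root_.add_apply, _root_.smul_apply, smul_eq_mul]
  ring

theorem KernA_cross {φ : P3 → ℝ} (hφ : IsTest φ) :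
    ∫ x in Cube, pd 0 (fun y => mean2 φ (y 0)) x * pd 0 (orth φ) x = 0 := by
  have hM := mean2_test hφ
  have hψ : IsTest (orth φ) := hφ.sub hM
  set M : P3 → ℝ := fun y => mean2 φ (y 0) with hMdef
  have d1 := KernA_dep hM.smooth (g := mean2 φ) fun x => rfl
  have d2 := KernA_dep (hM.smooth.pd 0) (g := fun s => deriv (fun t => mean2 φ (s + t)) 0) d1.1
  have hT : IsTest fun x => pd 0 M x * orth φ x := by
    obtain ⟨hs, δ, hδ, h⟩ := hψ
    exact ⟨(hM.smooth.pd 0).mul hs, δ, hδ, fun x hx => by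
      show pd 0 M x * orth φ x = 0
      rw [h x hx, mul_zero]⟩
  have h1 := KernA_pd0 hT
  have h2 : ∀ x, pd 0 (fun y => pd 0 M y * orth φ y) x =
      pd 0 (pd 0 M) x * orth φ x + pd 0 M x * pd 0 (orth φ) x := fun x =>
    KernA_pd_mul (hM.smooth.pd 0) hψ.smooth 0 x
  simp only [h2] at h1
  rw [integral_add] at h1
  · have h3 := KernA_orth0 hφ ((hM.smooth.pd 0).pd 0).cont (fun s w w' => by
      rw [d2.1, d2.1]; rfl)
    rw [h3, zero_add] at h1
    exact h1
  · exact integrableOn_Cube ((((hM.smooth.pd 0).pd 0).mul hψ.smooth).cont).continuousOn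
  · exact integrableOn_Cube (((hM.smooth.pd 0).mul (hψ.smooth.pd 0)).cont).continuousOn

theorem kernA : ∃ a : ℝ, ∃ ha : 0 < a, ∃ hb : 0 < 16 * a, ∃ c : ℝ, 0 < c ∧ ∀ φ, IsTest φ →
    c * (I0 (orth φ) + I1 (orth φ)) ≤ (nil a (16 * a) ha hb).Q φ (orth φ) := by
  refine ⟨1 / 1000, by norm_num, by norm_num, 16 * (1 / 1000) ^ 2, by norm_num, fun φ hφ => ?_⟩
  have hM := mean2_test hφ
  have hψ : IsTest (orth φ) := hφ.sub hM
  set M : P3 → ℝ := fun y => mean2 φ (y 0) with hMdef
  have d1 := KernA_dep hM.smooth (g := mean2 φ) fun x => rfl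
  set G := nil (1 / 1000) (16 * (1 / 1000)) (by norm_num) (by norm_num) with hG
  have e1 : φ = fun x => M x + orth φ x := by
    funext x; simp [hMdef, orth]
  have e2 : G.Q φ (orth φ) = G.Q M (orth φ) + G.Q (orth φ) (orth φ) := by
    conv_lhs => rw [e1]
    have := Q_add G hM hψ hψ
    rw [← e1] at this ⊢
    exact this
  have e3 : G.Q M (orth φ) = 0 := by
    unfold Metric.Q
    have : ∀ x, G.dens x (fun i => pd i M x) (M x) (fun i => pd i (orth φ) x) (orth φ x) =
        16 * (1 / 1000) ^ 2 * (pd 0 M x * pd 0 (orth φ) x) -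
          256 * (1 / 1000) ^ 2 * (M x * orth φ x) := by
      intro x
      rw [hG, nil_dens]
      simp only [d1.2.1, d1.2.2]
      ring
    simp only [this]
    rw [integral_sub, integral_const_mul, integral_const_mul, KernA_cross hφ,
      KernA_orth0 hφ hM.smooth.cont (fun s w w' => rfl)]
    · simp
    · exact (integrableOn_Cube (((hM.smooth.pd 0).mul (hψ.smooth.pd 0)).cont).continuousOn).const_mul _
    · exact (integrableOn_Cube ((hM.smooth.mul hψ.smooth).cont).continuousOn).const_mul _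
  rw [e2, e3, zero_add]
  have p1 : ∀ x, pd 1 (orth φ) x = pd 1 φ x := by
    intro x
    have := pd_sub hφ.smooth hM.smooth 1 x
    rw [d1.2.1, sub_zero] at this
    exact this
  have p2 : ∀ x, pd 2 (orth φ) x = pd 2 φ x := by
    intro x
    have := pd_sub hφ.smooth hM.smooth 2 x
    rw [d1.2.2, sub_zero] at this
    exact this
  have hpoin : I0 (orth φ) ≤ 2 * ∫ x in Cube, (pd 1 (orth φ) x ^ 2 + pd 2 (orth φ) x ^ 2) := by
    simp only [p1, p2]
    exact poin12 hφ
  have c0 := (hψ.smooth.pd 0).cont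
  have c1 := (hψ.smooth.pd 1).cont
  have c2 := (hψ.smooth.pd 2).cont
  have c3 := hψ.smooth.cont
  have hI1 : I1 (orth φ) = (∫ x in Cube, pd 0 (orth φ) x ^ 2) +
      ∫ x in Cube, (pd 1 (orth φ) x ^ 2 + pd 2 (orth φ) x ^ 2) := by
    unfold I1
    rw [← integral_add]
    · refine integral_congr_ae (Eventually.of_forall fun x => ?_)
      simp only [Fin.sum_univ_three]
      ring
    · exact integrableOn_Cube (by fun_prop)
    · exact integrableOn_Cube (by fun_prop)
  have hJ : 0 ≤ ∫ x in Cube, (pd 1 (orth φ) x ^ 2 + pd 2 (orth φ) x ^ 2) :=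
    integral_nonneg fun x => by positivity
  have hlow : 16 * (1 / 1000) ^ 2 * ((∫ x in Cube, pd 0 (orth φ) x ^ 2) +
      1302 * (∫ x in Cube, (pd 1 (orth φ) x ^ 2 + pd 2 (orth φ) x ^ 2)) - 16 * I0 (orth φ)) ≤
      G.Q (orth φ) (orth φ) := by
    have i0 : IntegrableOn (fun x => pd 0 (orth φ) x ^ 2) Cube := integrableOn_Cube (by fun_prop)
    have i1 : IntegrableOn (fun x => pd 1 (orth φ) x ^ 2 + pd 2 (orth φ) x ^ 2) Cube :=
      integrableOn_Cube (by fun_prop)
    have i2 : IntegrableOn (fun x => orth φ x ^ 2) Cube := integrableOn_Cube (by fun_prop)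
    have hL : 16 * (1 / 1000) ^ 2 * ((∫ x in Cube, pd 0 (orth φ) x ^ 2) +
      1302 * (∫ x in Cube, (pd 1 (orth φ) x ^ 2 + pd 2 (orth φ) x ^ 2)) - 16 * I0 (orth φ)) =
      ∫ x in Cube, 16 * (1 / 1000) ^ 2 * (pd 0 (orth φ) x ^ 2 +
        1302 * (pd 1 (orth φ) x ^ 2 + pd 2 (orth φ) x ^ 2) - 16 * orth φ x ^ 2) := by
      rw [integral_const_mul]
      have i3 : IntegrableOn (fun x => pd 0 (orth φ) x ^ 2 +
        1302 * (pd 1 (orth φ) x ^ 2 + pd 2 (orth φ) x ^ 2)) Cube := integrableOn_Cube (by fun_prop)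
      have i4 : IntegrableOn (fun x => 16 * orth φ x ^ 2) Cube := integrableOn_Cube (by fun_prop)
      have i5 : IntegrableOn (fun x => 1302 * (pd 1 (orth φ) x ^ 2 + pd 2 (orth φ) x ^ 2)) Cube :=
        integrableOn_Cube (by fun_prop)
      have q1 := integral_sub i3 i4
      have q2 := integral_add i0 i5
      simp only [integral_const_mul] at q1 q2
      rw [q1, q2]
      rfl
    rw [hL]
    unfold Metric.Q
    simp only [hG, nil_dens]
    refine setIntegral_mono_on ?_ ?_ measurableSet_Cube fun x hx => ?_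
    · exact integrableOn_Cube (by fun_prop)
    · refine integrableOn_Cube (Continuous.continuousOn ?_)
      have cx : Continuous fun x : P3 => x 0 := by fun_prop
      fun_prop
    · have hx0 := hx 0
      have hx1 := hx0.1
      have hx2 := hx0.2
      set s := x 0
      set P := pd 1 (orth φ) x
      set R := pd 2 (orth φ) x
      have k1 : P ^ 2 + R ^ 2 ≤ 2 * (P + s * R) ^ 2 + 3 * R ^ 2 := by
        have k2 : s ^ 2 ≤ 1 := by nlinarith
        nlinarith [sq_nonneg (P + 2 * (s * R)), mul_nonneg (sub_nonneg.2 k2) (sq_nonneg R)]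
      have k3 : 1 / 1000 * (16 * (1 / 1000)) *
          (pd 0 (orth φ) x * pd 0 (orth φ) x + (P + s * R) * (P + s * R) / (1 / 1000) ^ 2 +
            R * R / (16 * (1 / 1000)) ^ 2 -
            (16 * (1 / 1000) / (4 * (1 / 1000))) ^ 2 * (orth φ x * orth φ x)) =
          16 * (1 / 1000) ^ 2 * (pd 0 (orth φ) x ^ 2 + 1000000 * (P + s * R) ^ 2 +
            15625 / 4 * R ^ 2 - 16 * orth φ x ^ 2) := by ring
      rw [k3]
      have k4 := sq_nonneg (P + s * R)
      have k5 := sq_nonneg R
      apply mul_le_mul_of_nonneg_left _ (by norm_num)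
      linarith
  rw [hI1]
  nlinarith [hlow, hpoin, hJ]

end Pool.Agent.L5helper93.CE
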