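import Pool.Agent.L5helper93.CE.Form
import Pool.Agent.L5helper93.CE.Mean
import Pool.Agent.L5helper93.CE.Dens1

set_option autoImplicit false

noncomputable section

open MeasureTheory Matrix Filter Topology
open scoped ContDiff

namespace Pool.Agent.L5helper93.CE

/-! ### Fubini on the cube -/

/-- coordinates -/
def KernB_e : (ℝ × (Fin 2 → ℝ)) ≃ᵐ P3 :=
  (MeasurableEquiv.piFinSuccAbove (fun _ => ℝ) 0).symm.trans (MeasurableEquiv.toLp 2 (Fin 3 → ℝ))

theorem KernB_e_mp : MeasurePreserving KernB_e := by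
  have h1 := (volume_preserving_piFinSuccAbove (fun _ : Fin 3 => ℝ) 0).symm
  have h2 : MeasurePreserving (MeasurableEquiv.toLp 2 (Fin 3 → ℝ)) :=
    PiLp.volume_preserving_toLp (Fin 3)
  exact h2.comp h1

def KernB_f : (ℝ × (ℝ × ℝ)) ≃ᵐ P3 :=
  (MeasurableEquiv.prodCongr (MeasurableEquiv.refl ℝ) (MeasurableEquiv.finTwoArrow (α := ℝ)).symm).trans
    KernB_e

theorem KernB_f_mp : MeasurePreserving KernB_f := by
  refine KernB_e_mp.comp ?_
  exact (MeasurePreserving.id _).prod (volume_preserving_finTwoArrow ℝ).symm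

theorem KernB_f_apply (p : ℝ × (ℝ × ℝ)) : KernB_f p = WithLp.toLp 2 ![p.1, p.2.1, p.2.2] := by
  ext i
  fin_cases i <;> simp [KernB_f, KernB_e, MeasurableEquiv.piFinSuccAbove, MeasurableEquiv.finTwoArrow] <;> rfl

theorem KernB_pre : KernB_f ⁻¹' Cube = Set.Icc (0 : ℝ) 1 ×ˢ (Set.Icc (0 : ℝ) 1 ×ˢ Set.Icc (0 : ℝ) 1) := by
  ext p
  simp only [Set.mem_preimage, KernB_f_apply, Cube, Set.mem_ofPred_eq, Set.mem_prod, Set.mem_Icc]
  constructor
  · intro h
    exact ⟨h 0, h 1, h 2⟩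
  · rintro ⟨h0, h1, h2⟩ i
    fin_cases i
    · exact h0
    · exact h1
    · exact h2

theorem KernB_cont_f : Continuous fun p : ℝ × (ℝ × ℝ) => (WithLp.toLp 2 ![p.1, p.2.1, p.2.2] : P3) := by
  refine (PiLp.continuous_toLp 2 _).comp ?_
  refine continuous_pi fun i => ?_
  fin_cases i
  · exact continuous_fst
  · exact continuous_fst.comp continuous_snd
  · exact continuous_snd.comp continuous_snd

theorem KernB_fub (F : P3 → ℝ) : (∫ x in Cube, F x =
    ∫ p in Set.Icc (0 : ℝ) 1 ×ˢ (Set.Icc (0 : ℝ) 1 ×ˢ Set.Icc (0 : ℝ) 1),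
      F (WithLp.toLp 2 ![p.1, p.2.1, p.2.2])) := by
  rw [← KernB_f_mp.setIntegral_preimage_emb KernB_f.measurableEmbedding, KernB_pre]
  simp only [KernB_f_apply]

theorem KernB_int {F : P3 → ℝ} (hF : Continuous F) :
    IntegrableOn (fun p : ℝ × (ℝ × ℝ) => F (WithLp.toLp 2 ![p.1, p.2.1, p.2.2]))
      (Set.Icc (0 : ℝ) 1 ×ˢ (Set.Icc (0 : ℝ) 1 ×ˢ Set.Icc (0 : ℝ) 1))
      ((volume : Measure ℝ).prod ((volume : Measure (ℝ × ℝ)))) := by
  refine ContinuousOn.integrableOn_compact ?_ (hF.comp KernB_cont_f).continuousOn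
  exact isCompact_Icc.prod (isCompact_Icc.prod isCompact_Icc)

/-- integral over the cube of `g (x 0) φ x` -/
theorem KernB_fub1 {g : ℝ → ℝ} {φ : P3 → ℝ} (hg : Continuous g) (hφ : Continuous φ) :
    ∫ x in Cube, g (x 0) * φ x = ∫ s in (0 : ℝ)..1, g s * mean2 φ s := by
  have hF : Continuous fun x : P3 => g (x 0) * φ x := by
    refine (hg.comp ?_).mul hφ
    fun_prop
  rw [KernB_fub]
  have h1 := setIntegral_prod (μ := (volume : Measure ℝ)) (ν := (volume : Measure (ℝ × ℝ)))
    (fun p : ℝ × (ℝ × ℝ) => (fun x : P3 => g (x 0) * φ x) (WithLp.toLp 2 ![p.1, p.2.1, p.2.2]))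
    (KernB_int hF)
  rw [Measure.volume_eq_prod, h1, intervalIntegral.integral_of_le zero_le_one,
    ← integral_Icc_eq_integral_Ioc]
  refine setIntegral_congr_fun measurableSet_Icc fun s _ => ?_
  have h3 : ∀ q : ℝ × ℝ, (fun x : P3 => g (x 0) * φ x) (WithLp.toLp 2 ![s, q.1, q.2]) =
      g s * φ (WithLp.toLp 2 ![s, q.1, q.2]) := fun q => rfl
  simp only [h3]
  rw [integral_const_mul]
  congr 1
  have hc : Continuous fun q : ℝ × ℝ => φ (WithLp.toLp 2 ![s, q.1, q.2]) :=
    (hφ.comp KernB_cont_f).comp (Continuous.prodMk continuous_const continuous_id)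
  have h2 := setIntegral_prod (μ := (volume : Measure ℝ)) (ν := (volume : Measure ℝ))
    (fun q : ℝ × ℝ => φ (WithLp.toLp 2 ![s, q.1, q.2])) (s := Set.Icc (0 : ℝ) 1)
    (t := Set.Icc (0 : ℝ) 1) (ContinuousOn.integrableOn_compact (isCompact_Icc.prod isCompact_Icc) hc.continuousOn)
  rw [Measure.volume_eq_prod, h2]
  unfold mean2
  rw [intervalIntegral.integral_of_le zero_le_one, ← integral_Icc_eq_integral_Ioc]
  refine setIntegral_congr_fun measurableSet_Icc fun y _ => ?_
  simp only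
  rw [intervalIntegral.integral_of_le zero_le_one, ← integral_Icc_eq_integral_Ioc]

theorem KernB_line (s y z : ℝ) : HasDerivAt (fun s : ℝ => (WithLp.toLp 2 ![s, y, z] : P3)) (bv 0) s := by
  have h1 : (fun s : ℝ => (WithLp.toLp 2 ![s, y, z] : P3)) =
      fun s : ℝ => s • bv 0 + (WithLp.toLp 2 ![0, y, z] : P3) := by
    funext s
    ext i
    fin_cases i <;> simp [bv]
  rw [h1]
  have h2 : HasDerivAt (fun s : ℝ => s • bv 0) ((1 : ℝ) • bv 0) s := (hasDerivAt_id s).smul_const (bv 0)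
  rw [one_smul] at h2
  exact h2.add_const _

theorem KernB_lined {G : P3 → ℝ} (hG : IsSmooth G) (s y z : ℝ) :
    HasDerivAt (fun s : ℝ => G (WithLp.toLp 2 ![s, y, z])) (pd 0 G (WithLp.toLp 2 ![s, y, z])) s := by
  have h1 := (hG.diff (WithLp.toLp 2 ![s, y, z])).hasFDerivAt
  exact h1.comp_hasDerivAt s (KernB_line s y z)

/-- integral of `pd 0 G` is zero -/
theorem KernB_fub2 {G : P3 → ℝ} (hG : IsSmooth G) (h0 : ∀ x, x 0 = 0 → G x = 0)
    (h1 : ∀ x, x 0 = 1 → G x = 0) : ∫ x in Cube, pd 0 G x = 0 := by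
  have hF : Continuous fun x : P3 => pd 0 G x := (hG.pd 0).cont
  rw [KernB_fub, Measure.volume_eq_prod, ← Measure.prod_restrict]
  rw [integral_prod_symm (fun p : ℝ × (ℝ × ℝ) => pd 0 G (WithLp.toLp 2 ![p.1, p.2.1, p.2.2]))
    (by have := KernB_int hF
        rw [IntegrableOn, ← Measure.prod_restrict] at this
        exact this)]
  refine integral_eq_zero_of_ae (Eventually.of_forall fun q => ?_)
  show ∫ s in Set.Icc (0 : ℝ) 1, pd 0 G (WithLp.toLp 2 ![s, q.1, q.2]) = 0
  rw [integral_Icc_eq_integral_Ioc, ← intervalIntegral.integral_of_le zero_le_one]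
  have hc : Continuous fun s : ℝ => pd 0 G (WithLp.toLp 2 ![s, q.1, q.2]) :=
    (hF.comp KernB_cont_f).comp (Continuous.prodMk continuous_id continuous_const)
  rw [intervalIntegral.integral_eq_sub_of_hasDerivAt (fun s _ => KernB_lined hG s q.1 q.2)
    (hc.intervalIntegrable 0 1), h1 _ (by simp), h0 _ (by simp), sub_zero]

theorem KernB_pd {h : ℝ → ℝ} (hh : ContDiff ℝ ∞ h) (i : Fin 3) (x : P3) :
    pd i (fun y => h (y 0)) x = deriv h (x 0) * bv i 0 := by
  have h1 : HasFDerivAt (fun y : P3 => y 0) (EuclideanSpace.proj (𝕜 := ℝ) (0 : Fin 3)) x :=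
    (EuclideanSpace.proj (𝕜 := ℝ) (0 : Fin 3)).hasFDerivAt
  have h2 : HasDerivAt h (deriv h (x 0)) (x 0) := (hh.differentiable (by simp) _).hasDerivAt
  have h3 := h2.comp_hasFDerivAt x h1
  unfold pd
  have h4 : fderiv ℝ (fun y : P3 => h (y 0)) x = deriv h (x 0) • EuclideanSpace.proj (𝕜 := ℝ) (0 : Fin 3) :=
    h3.fderiv
  rw [h4]
  simp

theorem KernB_pd0 {h : ℝ → ℝ} (hh : ContDiff ℝ ∞ h) (x : P3) :
    pd 0 (fun y => h (y 0)) x = deriv h (x 0) := by
  rw [KernB_pd hh]; simp [bv]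

theorem KernB_pd1 {h : ℝ → ℝ} (hh : ContDiff ℝ ∞ h) (x : P3) :
    pd 1 (fun y => h (y 0)) x = 0 := by
  rw [KernB_pd hh]; simp [bv]

theorem KernB_pd2 {h : ℝ → ℝ} (hh : ContDiff ℝ ∞ h) (x : P3) :
    pd 2 (fun y => h (y 0)) x = 0 := by
  rw [KernB_pd hh]; simp [bv]

theorem KernB_pdmul {f g : P3 → ℝ} (h : IsSmooth f) (h' : IsSmooth g) (i : Fin 3) (x : P3) :
    pd i (fun y => f y * g y) x = f x * pd i g x + g x * pd i f x := by
  unfold pd
  rw [fderiv_fun_mul (h.diff x) (h'.diff x)]; simp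

theorem KernB_deriv_cd {h : ℝ → ℝ} (hh : ContDiff ℝ ∞ h) : ContDiff ℝ ∞ (deriv h) :=
  (contDiff_infty_iff_deriv.1 hh).2

/-- one dimensional test functions -/
def KernB_T (h : ℝ → ℝ) : Prop :=
  ContDiff ℝ ∞ h ∧ ∃ δ : ℝ, 0 < δ ∧ ∀ x, x < δ ∨ 1 - δ < x → h x = 0

theorem KernB_T.test {h : ℝ → ℝ} (hh : KernB_T h) : IsTest fun x => h (x 0) := by
  obtain ⟨h1, δ, hδ, h2⟩ := hh
  exact ⟨isSmooth_zero_coord h1, δ, hδ, fun x hx => h2 _ hx⟩

theorem KernB_T.end0 {h : ℝ → ℝ} (hh : KernB_T h) : h 0 = 0 := by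
  obtain ⟨h1, δ, hδ, h2⟩ := hh
  exact h2 _ (Or.inl hδ)

theorem KernB_T.end1 {h : ℝ → ℝ} (hh : KernB_T h) : h 1 = 0 := by
  obtain ⟨h1, δ, hδ, h2⟩ := hh
  exact h2 _ (Or.inr (by linarith))

theorem KernB_mean_T {φ : P3 → ℝ} (hφ : IsTest φ) : KernB_T (mean2 φ) := by
  obtain ⟨h1, δ, hδ, h2⟩ := mean2_test hφ
  have hc : ContDiff ℝ ∞ fun s : ℝ => s • bv 0 := by fun_prop
  have h3 : mean2 φ = (fun x : P3 => mean2 φ (x 0)) ∘ fun s : ℝ => s • bv 0 := by
    funext s
    simp [bv]
  refine ⟨?_, δ, hδ, fun x hx => ?_⟩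
  · rw [h3]
    exact h1.1.comp hc
  · have := h2 (x • bv 0) (by simpa [bv] using hx)
    simpa [bv] using this

/-- the form on functions of `x 0` -/
theorem KernB_Q {a : ℝ} (ha : 0 < a) (hb : 0 < 16 * a) {φ : P3 → ℝ} (hφ : IsTest φ) {h : ℝ → ℝ}
    (hh : KernB_T h) : (nil a (16 * a) ha hb).Q φ (fun x => h (x 0)) =
      a * (16 * a) * ∫ s in (0 : ℝ)..1, mean2 φ s * (- deriv (deriv h) s - 16 * h s) := by
  have hs := hφ.smooth
  have hd := KernB_deriv_cd hh.1
  have hdd := KernB_deriv_cd hd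
  have e1 : ∀ x : P3, (nil a (16 * a) ha hb).dens x (fun i => pd i φ x) (φ x)
      (fun i => pd i (fun y : P3 => h (y 0)) x) (h (x 0)) =
      a * (16 * a) * (pd 0 (fun y => φ y * deriv h (y 0)) x -
        (deriv (deriv h) (x 0) + 16 * h (x 0)) * φ x) := by
    intro x
    rw [nil_dens, KernB_pdmul hs (isSmooth_zero_coord hd), KernB_pd0 hd]
    simp only [KernB_pd0 hh.1, KernB_pd1 hh.1, KernB_pd2 hh.1]
    have : (16 * a) / (4 * a) = 4 := by field_simp; norm_num
    rw [this]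
    ring
  unfold Metric.Q
  simp only [e1]
  rw [integral_const_mul, integral_sub, KernB_fub2 (hs.mul (isSmooth_zero_coord hd)),
    KernB_fub1 (g := fun s => deriv (deriv h) s + 16 * h s) (by
      have := hdd.continuous
      have := hh.1.continuous
      fun_prop) hs.cont, zero_sub, ← intervalIntegral.integral_neg]
  · congr 1
    refine intervalIntegral.integral_congr fun s _ => ?_
    ring
  · intro x hx
    obtain ⟨_, δ, hδ, h2⟩ := hφ
    show φ x * _ = 0
    rw [h2 x (Or.inl (by rw [hx]; exact hδ)), zero_mul]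
  · intro x hx
    obtain ⟨_, δ, hδ, h2⟩ := hφ
    show φ x * _ = 0
    rw [h2 x (Or.inr (by rw [hx]; linarith)), zero_mul]
  · exact integrableOn_Cube ((hs.mul (isSmooth_zero_coord hd)).pd 0).cont.continuousOn
  · exact integrableOn_Cube (((isSmooth_zero_coord hdd).add
      ((IsSmooth.const 16).mul (isSmooth_zero_coord hh.1))).mul hs).cont.continuousOn

theorem KernB_one (s : ℝ) : mean2 (fun _ => 1) s = 1 := by
  simp [mean2]

theorem KernB_fub0 {g : ℝ → ℝ} (hg : Continuous g) :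
    ∫ x in Cube, g (x 0) = ∫ s in (0 : ℝ)..1, g s := by
  have := KernB_fub1 (φ := fun _ => 1) hg continuous_const
  simpa [KernB_one] using this

theorem KernB_norm {h : ℝ → ℝ} (hh : ContDiff ℝ ∞ h) :
    I0 (fun x => h (x 0)) + I1 (fun x => h (x 0)) =
      ∫ s in (0 : ℝ)..1, (h s ^ 2 + deriv h s ^ 2) := by
  have hd := KernB_deriv_cd hh
  have hc := hh.continuous
  have hdc := hd.continuous
  unfold I0 I1
  have e : ∀ x : P3, ∑ i, pd i (fun x : P3 => h (x 0)) x ^ 2 = deriv h (x 0) ^ 2 := by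
    intro x
    simp only [Fin.sum_univ_three, KernB_pd0 hh, KernB_pd1 hh, KernB_pd2 hh]
    ring
  simp only [e]
  rw [KernB_fub0 (g := fun s => h s ^ 2) (by fun_prop), KernB_fub0 (g := fun s => deriv h s ^ 2) (by fun_prop),
    intervalIntegral.integral_add]
  · exact (Continuous.intervalIntegrable (by fun_prop) _ _)
  · exact (Continuous.intervalIntegrable (by fun_prop) _ _)

/-! ### one dimensional part -/

theorem KernB_parts {v h : ℝ → ℝ} (hv : ContDiff ℝ ∞ v) (v0 : v 0 = 0) (v1 : v 1 = 0)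
    (hh : ContDiff ℝ ∞ h) :
    ∫ s in (0 : ℝ)..1, v s * (- deriv (deriv h) s - 16 * h s) =
      ∫ s in (0 : ℝ)..1, (deriv v s * deriv h s - 16 * (v s * h s)) := by
  have hd := KernB_deriv_cd hh
  have hdd := (KernB_deriv_cd hd).continuous
  have hvd := (KernB_deriv_cd hv).continuous
  have hc := hh.continuous
  have hdc := hd.continuous
  have hvc := hv.continuous
  have e1 : ∀ s ∈ Set.uIcc (0 : ℝ) 1, HasDerivAt (fun s => v s * deriv h s)
      (deriv v s * deriv h s + v s * deriv (deriv h) s) s := by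
    intro s _
    have a1 : HasDerivAt v (deriv v s) s := (hv.differentiable (by simp) s).hasDerivAt
    have a2 : HasDerivAt (deriv h) (deriv (deriv h) s) s := (hd.differentiable (by simp) s).hasDerivAt
    exact a1.mul a2
  have e2 := intervalIntegral.integral_eq_sub_of_hasDerivAt e1
    (Continuous.intervalIntegrable (by fun_prop) _ _)
  rw [v0, v1] at e2
  have e3 : ∫ s in (0 : ℝ)..1, (deriv v s * deriv h s - 16 * (v s * h s)) -
      v s * (- deriv (deriv h) s - 16 * h s) = 0 := by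
    have e4 : ∫ s in (0 : ℝ)..1, (deriv v s * deriv h s - 16 * (v s * h s)) -
        v s * (- deriv (deriv h) s - 16 * h s) =
        ∫ s in (0 : ℝ)..1, (deriv v s * deriv h s + v s * deriv (deriv h) s) := by
      refine intervalIntegral.integral_congr fun s _ => ?_
      ring
    rw [e4, e2]
    ring
  rw [intervalIntegral.integral_sub] at e3
  · linarith
  · exact (Continuous.intervalIntegrable (by fun_prop) _ _)
  · exact (Continuous.intervalIntegrable (by fun_prop) _ _)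

theorem KernB_cs {u : ℝ → ℝ} (hu : Continuous u) {x : ℝ} (h0 : 0 ≤ x) (h1 : x ≤ 1) :
    (∫ s in (0 : ℝ)..x, u s) ^ 2 ≤ ∫ s in (0 : ℝ)..1, u s ^ 2 := by
  set m := ∫ s in (0 : ℝ)..x, u s with hm
  have e1 : 0 ≤ ∫ s in (0 : ℝ)..x, (u s - m) ^ 2 :=
    intervalIntegral.integral_nonneg h0 fun s _ => sq_nonneg _
  have e2 : ∫ s in (0 : ℝ)..x, (u s - m) ^ 2 = (∫ s in (0 : ℝ)..x, u s ^ 2) - 2 * m * m + x * m ^ 2 := by
    have : ∀ s, (u s - m) ^ 2 = u s ^ 2 - 2 * m * u s + m ^ 2 := fun s => by ring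
    simp only [this]
    rw [intervalIntegral.integral_add, intervalIntegral.integral_sub, intervalIntegral.integral_const_mul,
      intervalIntegral.integral_const, ← hm]
    · simp
    · exact (Continuous.intervalIntegrable (by fun_prop) _ _)
    · exact (Continuous.intervalIntegrable (by fun_prop) _ _)
    · exact (Continuous.intervalIntegrable (by fun_prop) _ _)
    · exact (Continuous.intervalIntegrable (by fun_prop) _ _)
  have e3 : ∫ s in (0 : ℝ)..x, u s ^ 2 ≤ ∫ s in (0 : ℝ)..1, u s ^ 2 := by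
    have := intervalIntegral.integral_add_adjacent_intervals (μ := volume) (f := fun s => u s ^ 2)
      (a := 0) (b := x) (c := 1)
      (Continuous.intervalIntegrable (by fun_prop) _ _) (Continuous.intervalIntegrable (by fun_prop) _ _)
    have h2 : 0 ≤ ∫ s in x..1, u s ^ 2 := intervalIntegral.integral_nonneg h1 fun s _ => sq_nonneg _
    linarith
  nlinarith [sq_nonneg m]

theorem KernB_prim {g : ℝ → ℝ} (hg : ContDiff ℝ ∞ g) :
    ContDiff ℝ ∞ (fun x => ∫ s in (0 : ℝ)..x, g s) ∧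
      ∀ x, HasDerivAt (fun x => ∫ s in (0 : ℝ)..x, g s) (g x) x := by
  have h1 : ∀ x, HasDerivAt (fun x => ∫ s in (0 : ℝ)..x, g s) (g x) x := fun x =>
    intervalIntegral.integral_hasDerivAt_right (hg.continuous.intervalIntegrable 0 x)
      hg.continuous.aestronglyMeasurable.stronglyMeasurableAtFilter hg.continuous.continuousAt
  refine ⟨?_, h1⟩
  rw [contDiff_infty_iff_deriv]
  refine ⟨fun x => (h1 x).differentiableAt, ?_⟩
  have : deriv (fun x => ∫ s in (0 : ℝ)..x, g s) = g := funext fun x => (h1 x).deriv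
  rw [this]
  exact hg

theorem KernB_sin4 : Real.sin 4 ≠ 0 := by
  have h1 := Real.pi_gt_three
  have h2 := Real.pi_lt_four
  have h3 : 0 < Real.sin (4 - Real.pi) := Real.sin_pos_of_pos_of_lt_pi (by linarith) (by linarith)
  rw [Real.sin_sub_pi] at h3
  intro h
  rw [h] at h3
  simp at h3

/-- variation of constants -/
theorem KernB_ode : ∃ C : ℝ, 0 < C ∧ ∀ v : ℝ → ℝ, ContDiff ℝ ∞ v → ∃ f : ℝ → ℝ, ContDiff ℝ ∞ f ∧
    f 0 = 0 ∧ f 1 = 0 ∧ (∀ x, - deriv (deriv f) x - 16 * f x = v x) ∧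
    ∫ s in (0 : ℝ)..1, (f s ^ 2 + deriv f s ^ 2) ≤ C * ∫ s in (0 : ℝ)..1, v s ^ 2 := by
  have hs4 := KernB_sin4
  set S := Real.sin 4 with hS
  refine ⟨3 * (1 / 8 + 1 / (4 * S ^ 2)) + 3 * (2 + 4 / S ^ 2), by positivity, fun v hv => ?_⟩
  have c1 : ContDiff ℝ ∞ fun s : ℝ => Real.cos (4 * s) := by fun_prop
  have c2 : ContDiff ℝ ∞ fun s : ℝ => Real.sin (4 * s) := by fun_prop
  obtain ⟨hA, hA'⟩ := KernB_prim (g := fun s => Real.cos (4 * s) * v s) (c1.mul hv)
  obtain ⟨hB, hB'⟩ := KernB_prim (g := fun s => Real.sin (4 * s) * v s) (c2.mul hv)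
  set A : ℝ → ℝ := fun x => ∫ s in (0 : ℝ)..x, Real.cos (4 * s) * v s with hAd
  set B : ℝ → ℝ := fun x => ∫ s in (0 : ℝ)..x, Real.sin (4 * s) * v s with hBd
  set c : ℝ := (S * A 1 - Real.cos 4 * B 1) / (4 * S) with hc
  set N : ℝ := ∫ s in (0 : ℝ)..1, v s ^ 2 with hN
  have A0 : A 0 = 0 := by simp [hAd]
  have B0 : B 0 = 0 := by simp [hBd]
  have hvc := hv.continuous
  have bA : ∀ x, 0 ≤ x → x ≤ 1 → A x ^ 2 ≤ N := by
    intro x h0 h1
    refine (KernB_cs (u := fun s => Real.cos (4 * s) * v s) (by fun_prop) h0 h1).trans ?_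
    refine intervalIntegral.integral_mono_on zero_le_one
      (Continuous.intervalIntegrable (by fun_prop) _ _) (Continuous.intervalIntegrable (by fun_prop) _ _)
      fun s _ => ?_
    nlinarith [Real.cos_sq_add_sin_sq (4 * s), sq_nonneg (Real.sin (4 * s) * v s)]
  have bB : ∀ x, 0 ≤ x → x ≤ 1 → B x ^ 2 ≤ N := by
    intro x h0 h1
    refine (KernB_cs (u := fun s => Real.sin (4 * s) * v s) (by fun_prop) h0 h1).trans ?_
    refine intervalIntegral.integral_mono_on zero_le_one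
      (Continuous.intervalIntegrable (by fun_prop) _ _) (Continuous.intervalIntegrable (by fun_prop) _ _)
      fun s _ => ?_
    nlinarith [Real.cos_sq_add_sin_sq (4 * s), sq_nonneg (Real.cos (4 * s) * v s)]
  set f : ℝ → ℝ := fun x => -(1 / 4) * (Real.sin (4 * x) * A x - Real.cos (4 * x) * B x) +
    c * Real.sin (4 * x) with hf
  have dsin : ∀ x : ℝ, HasDerivAt (fun x : ℝ => Real.sin (4 * x)) (4 * Real.cos (4 * x)) x := by
    intro x
    have := ((hasDerivAt_id x).const_mul (4 : ℝ)).sin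
    simp only [id, mul_one] at this
    rw [mul_comm] at this
    exact this
  have dcos : ∀ x : ℝ, HasDerivAt (fun x : ℝ => Real.cos (4 * x)) (-(4 * Real.sin (4 * x))) x := by
    intro x
    have := ((hasDerivAt_id x).const_mul (4 : ℝ)).cos
    simp only [id, mul_one] at this
    have e : -Real.sin (4 * x) * 4 = -(4 * Real.sin (4 * x)) := by ring
    rw [e] at this
    exact this
  have df : ∀ x, HasDerivAt f (-(Real.cos (4 * x) * A x + Real.sin (4 * x) * B x) +
      4 * c * Real.cos (4 * x)) x := by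
    intro x
    have h1 := ((((dsin x).mul (hA' x)).sub ((dcos x).mul (hB' x))).const_mul (-(1 / 4) : ℝ)).add
      ((dsin x).const_mul c)
    refine h1.congr_deriv ?_
    ring
  have df' : deriv f = fun x => -(Real.cos (4 * x) * A x + Real.sin (4 * x) * B x) +
      4 * c * Real.cos (4 * x) := funext fun x => (df x).deriv
  have ddf : ∀ x, HasDerivAt (deriv f) (4 * (Real.sin (4 * x) * A x - Real.cos (4 * x) * B x) - v x -
      16 * c * Real.sin (4 * x)) x := by
    intro x
    rw [df']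
    have h1 := (((dcos x).mul (hA' x)).add ((dsin x).mul (hB' x))).neg.add
      ((dcos x).const_mul (4 * c))
    refine h1.congr_deriv ?_
    have := Real.cos_sq_add_sin_sq (4 * x)
    linear_combination (- v x) * this
  have hA1 := bA 1 zero_le_one le_rfl
  have hB1 := bB 1 zero_le_one le_rfl
  have hN0 : 0 ≤ N := (sq_nonneg _).trans hA1
  have hc2 : c ^ 2 ≤ N / (4 * S ^ 2) := by
    rw [hc, div_pow, div_le_div_iff₀ (by positivity) (by positivity)]
    have h1 : (S * A 1 - Real.cos 4 * B 1) ^ 2 ≤ A 1 ^ 2 + B 1 ^ 2 := by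
      have := Real.cos_sq_add_sin_sq 4
      rw [← hS] at this
      nlinarith [sq_nonneg (Real.cos 4 * A 1 + S * B 1)]
    have h2 : 0 < S ^ 2 := by positivity
    nlinarith [mul_le_mul_of_nonneg_right (h1.trans (add_le_add hA1 hB1)) h2.le, mul_nonneg hN0 h2.le]
  refine ⟨f, ?_, ?_, ?_, ?_, ?_⟩
  · exact (contDiff_const.mul ((c2.mul hA).sub (c1.mul hB))).add (contDiff_const.mul c2)
  · simp [hf, A0, B0]
  · simp only [hf, mul_one, ← hS, hc]
    field_simp
    ring
  · intro x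
    rw [(ddf x).deriv]
    simp only [hf]
    ring
  · have hb : ∀ x, 0 ≤ x → x ≤ 1 → f x ^ 2 + deriv f x ^ 2 ≤
        (3 * (1 / 8 + 1 / (4 * S ^ 2)) + 3 * (2 + 4 / S ^ 2)) * N := by
      intro x h0 h1
      have hAx := bA x h0 h1
      have hBx := bB x h0 h1
      have hcs := Real.cos_sq_add_sin_sq (4 * x)
      have k1 : (Real.sin (4 * x) * A x - Real.cos (4 * x) * B x) ^ 2 ≤ 2 * N := by
        nlinarith [sq_nonneg (Real.cos (4 * x) * A x + Real.sin (4 * x) * B x)]
      have k2 : (Real.cos (4 * x) * A x + Real.sin (4 * x) * B x) ^ 2 ≤ 2 * N := by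
        nlinarith [sq_nonneg (Real.sin (4 * x) * A x - Real.cos (4 * x) * B x)]
      have k3 : (c * Real.sin (4 * x)) ^ 2 ≤ N / (4 * S ^ 2) := by
        refine le_trans ?_ hc2
        nlinarith [sq_nonneg (c * Real.cos (4 * x))]
      have k4 : (c * Real.cos (4 * x)) ^ 2 ≤ N / (4 * S ^ 2) := by
        refine le_trans ?_ hc2
        nlinarith [sq_nonneg (c * Real.sin (4 * x))]
      have k5 : f x ^ 2 ≤ 2 * (N / 8 + N / (4 * S ^ 2)) := by
        simp only [hf]
        set P := Real.sin (4 * x) * A x - Real.cos (4 * x) * B x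
        set R := c * Real.sin (4 * x)
        nlinarith [sq_nonneg (-(1 / 4) * P - R)]
      have k6 : deriv f x ^ 2 ≤ 2 * (2 * N + 16 * (N / (4 * S ^ 2))) := by
        rw [df']
        simp only
        set P := Real.cos (4 * x) * A x + Real.sin (4 * x) * B x
        have e : 4 * c * Real.cos (4 * x) = 4 * (c * Real.cos (4 * x)) := by ring
        rw [e]
        set R := c * Real.cos (4 * x)
        nlinarith [sq_nonneg (-P - 4 * R)]
      have k7 : 0 ≤ N / (4 * S ^ 2) := by positivity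
      have k8 : (3 * (1 / 8 + 1 / (4 * S ^ 2)) + 3 * (2 + 4 / S ^ 2)) * N =
          3 * (N / 8 + N / (4 * S ^ 2)) + 3 * (2 * N + 16 * (N / (4 * S ^ 2))) := by
        field_simp
        ring
      rw [k8]
      linarith
    have hfc : Continuous f := (continuous_iff_continuousAt.2 fun x => (df x).continuousAt)
    have hdc : Continuous (deriv f) := (continuous_iff_continuousAt.2 fun x => (ddf x).continuousAt)
    calc ∫ s in (0 : ℝ)..1, (f s ^ 2 + deriv f s ^ 2)
        ≤ ∫ s in (0 : ℝ)..1, (3 * (1 / 8 + 1 / (4 * S ^ 2)) + 3 * (2 + 4 / S ^ 2)) * N := by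
          refine intervalIntegral.integral_mono_on zero_le_one
            (Continuous.intervalIntegrable (by fun_prop) _ _)
            (Continuous.intervalIntegrable (by fun_prop) _ _) fun s hs => hb s hs.1 hs.2
      _ = _ := by simp

theorem kernB {a : ℝ} (ha : 0 < a) (hb : 0 < 16 * a) : ∃ C : ℝ, ∀ φ, IsTest φ → ∀ ε : ℝ, 0 ≤ ε →
    (∀ ψ, IsTest ψ → |(nil a (16 * a) ha hb).Q φ ψ| ≤ ε * √(I0 ψ + I1 ψ)) →
    I0 (fun x => mean2 φ (x 0)) ≤ C * ε ^ 2 := by
  obtain ⟨C, hC, hode⟩ := KernB_ode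
  refine ⟨(2 * C + 1) / (64 * a ^ 4), fun φ hφ ε hε hQ => ?_⟩
  have hv := KernB_mean_T hφ
  set v := mean2 φ with hvd
  have hvs := hv.1
  have hvc := hvs.continuous
  have hvdc := (KernB_deriv_cd hvs).continuous
  have hN : I0 (fun x => v (x 0)) = ∫ s in (0 : ℝ)..1, v s ^ 2 := by
    unfold I0
    exact KernB_fub0 (g := fun s => v s ^ 2) (by fun_prop)
  rw [hN]
  set N := ∫ s in (0 : ℝ)..1, v s ^ 2 with hNd
  have hN0 : 0 ≤ N := intervalIntegral.integral_nonneg zero_le_one fun s _ => sq_nonneg _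
  rcases hN0.eq_or_lt with h | hNpos
  · rw [← h]
    positivity
  obtain ⟨f, hf, f0, f1, hode', hbd⟩ := hode v hvs
  have hfc := hf.continuous
  have hfdc := (KernB_deriv_cd hf).continuous
  -- `∫ v² = ∫ (v' f' - 16 v f)`
  have hL : ∫ s in (0 : ℝ)..1, (deriv v s * deriv f s - 16 * (v s * f s)) = N := by
    rw [← KernB_parts hvs hv.end0 hv.end1 hf, hNd]
    refine intervalIntegral.integral_congr fun s _ => ?_
    simp only [hode']
    ring
  set A := ∫ s in (0 : ℝ)..1, (deriv v s ^ 2 + (16 * v s) ^ 2) with hA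
  have hA0 : 0 ≤ A := intervalIntegral.integral_nonneg zero_le_one fun s _ => by positivity
  set t := N / (4 * (A + 1)) with ht
  have ht0 : 0 < t := by positivity
  have hη : 0 < min (t * N / 4) (N / 4) := by positivity
  obtain ⟨h, hh, hhδ, hclose⟩ := dens1 hf f0 f1 hη
  have hT : KernB_T h := ⟨hh, hhδ⟩
  have hhc := hh.continuous
  have hhdc := (KernB_deriv_cd hh).continuous
  set E := ∫ s in (0 : ℝ)..1, ((h s - f s) ^ 2 + (deriv h s - deriv f s) ^ 2) with hE
  have hE1 : E ≤ t * N / 4 := hclose.trans (min_le_left _ _)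
  have hE2 : E ≤ N / 4 := hclose.trans (min_le_right _ _)
  have q1 := hQ _ hT.test
  rw [KernB_Q ha hb hφ hT, KernB_norm hh, ← hvd, KernB_parts hvs hv.end0 hv.end1 hh] at q1
  set L := ∫ s in (0 : ℝ)..1, (deriv v s * deriv h s - 16 * (v s * h s)) with hLd
  -- `L ≥ N / 2`
  have hLN : N / 2 ≤ L := by
    have e1 : N - L = ∫ s in (0 : ℝ)..1, (deriv v s * (deriv f s - deriv h s) +
        (16 * v s) * (h s - f s)) := by
      rw [← hL, hLd, ← intervalIntegral.integral_sub]
      · refine intervalIntegral.integral_congr fun s _ => ?_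
        ring
      · exact (Continuous.intervalIntegrable (by fun_prop) _ _)
      · exact (Continuous.intervalIntegrable (by fun_prop) _ _)
    have e2 : ∫ s in (0 : ℝ)..1, (deriv v s * (deriv f s - deriv h s) + (16 * v s) * (h s - f s)) ≤
        ∫ s in (0 : ℝ)..1, (t / 2 * (deriv v s ^ 2 + (16 * v s) ^ 2) +
          1 / (2 * t) * ((h s - f s) ^ 2 + (deriv h s - deriv f s) ^ 2)) := by
      refine intervalIntegral.integral_mono_on zero_le_one
        (Continuous.intervalIntegrable (by fun_prop) _ _)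
        (Continuous.intervalIntegrable (by fun_prop) _ _) fun s _ => ?_
      have am : ∀ p q : ℝ, p * q ≤ t / 2 * p ^ 2 + 1 / (2 * t) * q ^ 2 := by
        intro p q
        have : t / 2 * p ^ 2 + 1 / (2 * t) * q ^ 2 - p * q = (t * p - q) ^ 2 / (2 * t) := by
          field_simp
          ring
        have h2 : 0 ≤ (t * p - q) ^ 2 / (2 * t) := by positivity
        linarith
      have a1 := am (deriv v s) (deriv f s - deriv h s)
      have a2 := am (16 * v s) (h s - f s)
      have a3 : (deriv f s - deriv h s) ^ 2 = (deriv h s - deriv f s) ^ 2 := by ring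
      rw [a3] at a1
      linarith
    have e5 : ∫ s in (0 : ℝ)..1, (t / 2 * (deriv v s ^ 2 + (16 * v s) ^ 2) +
          1 / (2 * t) * ((h s - f s) ^ 2 + (deriv h s - deriv f s) ^ 2)) =
        t / 2 * A + 1 / (2 * t) * E := by
      rw [intervalIntegral.integral_add, intervalIntegral.integral_const_mul,
        intervalIntegral.integral_const_mul, ← hA, ← hE]
      · exact (Continuous.intervalIntegrable (by fun_prop) _ _)
      · exact (Continuous.intervalIntegrable (by fun_prop) _ _)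
    have e3 : t / 2 * A ≤ N / 8 := by
      rw [ht]
      rw [div_div, div_mul_eq_mul_div, div_le_div_iff₀ (by positivity) (by norm_num)]
      nlinarith
    have e4 : 1 / (2 * t) * E ≤ N / 8 := by
      rw [div_mul_eq_mul_div, one_mul, div_le_div_iff₀ (by positivity) (by norm_num)]
      nlinarith
    linarith
  -- norm of `h`
  have hH : ∫ s in (0 : ℝ)..1, (h s ^ 2 + deriv h s ^ 2) ≤ (2 * C + 1) * N := by
    have e1 : ∫ s in (0 : ℝ)..1, (h s ^ 2 + deriv h s ^ 2) ≤
        ∫ s in (0 : ℝ)..1, (2 * (f s ^ 2 + deriv f s ^ 2) +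
          2 * ((h s - f s) ^ 2 + (deriv h s - deriv f s) ^ 2)) := by
      refine intervalIntegral.integral_mono_on zero_le_one
        (Continuous.intervalIntegrable (by fun_prop) _ _)
        (Continuous.intervalIntegrable (by fun_prop) _ _) fun s _ => ?_
      nlinarith [sq_nonneg (h s - 2 * f s), sq_nonneg (deriv h s - 2 * deriv f s)]
    have e2 : ∫ s in (0 : ℝ)..1, (2 * (f s ^ 2 + deriv f s ^ 2) +
          2 * ((h s - f s) ^ 2 + (deriv h s - deriv f s) ^ 2)) =
        2 * (∫ s in (0 : ℝ)..1, (f s ^ 2 + deriv f s ^ 2)) + 2 * E := by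
      rw [intervalIntegral.integral_add, intervalIntegral.integral_const_mul,
        intervalIntegral.integral_const_mul, ← hE]
      · exact (Continuous.intervalIntegrable (by fun_prop) _ _)
      · exact (Continuous.intervalIntegrable (by fun_prop) _ _)
    rw [e2] at e1
    linarith
  have q2 : a * (16 * a) * (N / 2) ≤ ε * √((2 * C + 1) * N) := by
    have h1 : a * (16 * a) * (N / 2) ≤ a * (16 * a) * L := by gcongr
    have h2 : ε * √(∫ s in (0 : ℝ)..1, (h s ^ 2 + deriv h s ^ 2)) ≤ ε * √((2 * C + 1) * N) := by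
      gcongr
    exact h1.trans ((le_abs_self _).trans (q1.trans h2))
  have q3 : (a * (16 * a) * (N / 2)) ^ 2 ≤ ε ^ 2 * ((2 * C + 1) * N) := by
    have h1 : 0 ≤ a * (16 * a) * (N / 2) := by positivity
    have h2 := pow_le_pow_left₀ h1 q2 2
    rw [mul_pow ε, Real.sq_sqrt (by positivity)] at h2
    exact h2
  rw [div_mul_eq_mul_div, le_div_iff₀ (by positivity)]
  have q4 : N * (N * (64 * a ^ 4)) ≤ N * ((2 * C + 1) * ε ^ 2) := by nlinarith
  exact le_of_mul_le_mul_left q4 hNpos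

end Pool.Agent.L5helper93.CE
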