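import Pool.Agent.L5helper93.CE.Basic

set_option autoImplicit false

noncomputable section

open MeasureTheory Matrix Filter Topology
open scoped ContDiff

namespace Pool.Agent.L5helper93.CE

/-- the measure of the cube -/
abbrev limMu : Measure P3 := volume.restrict Cube

theorem lim_memLp {f : P3 → ℝ} (hf : Continuous f) : MemLp f 2 limMu := by
  have hm : AEStronglyMeasurable f limMu := hf.aestronglyMeasurable
  rw [memLp_two_iff_integrable_sq hm]
  exact integrableOn_Cube (hf.pow 2).continuousOn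

theorem lim_norm {f : P3 → ℝ} (hf : MemLp f 2 limMu) :
    ‖hf.toLp f‖ ^ 2 = ∫ x in Cube, f x ^ 2 := by
  have h0 : 0 ≤ ∫ x in Cube, f x ^ 2 := integral_nonneg fun x => sq_nonneg _
  rw [Lp.norm_toLp, hf.eLpNorm_eq_integral_rpow_norm two_ne_zero ENNReal.ofNat_ne_top]
  have h1 : ∫ a, ‖f a‖ ^ (2 : ENNReal).toReal ∂limMu = ∫ x in Cube, f x ^ 2 := by
    refine integral_congr_ae (Eventually.of_forall fun x => ?_)
    simp
  rw [h1, ENNReal.toReal_ofReal (Real.rpow_nonneg h0 _), ← Real.rpow_natCast, ← Real.rpow_mul h0]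
  simp

/-- completeness of `L²` for continuous functions on the cube -/
theorem lim_one {f : ℕ → P3 → ℝ} (hf : ∀ n, Continuous (f n))
    (hc : ∀ ε : ℝ, 0 < ε → ∃ N, ∀ m n, N ≤ m → N ≤ n → ∫ x in Cube, (f m x - f n x) ^ 2 ≤ ε) :
    ∃ g : P3 → ℝ, MemLp g 2 limMu ∧
      Tendsto (fun n => ∫ x in Cube, (f n x - g x) ^ 2) atTop (𝓝 0) := by
  have hm : ∀ n, MemLp (f n) 2 limMu := fun n => lim_memLp (hf n)
  let F : ℕ → Lp ℝ 2 limMu := fun n => (hm n).toLp (f n)
  have hF : ∀ m n, ‖F m - F n‖ ^ 2 = ∫ x in Cube, (f m x - f n x) ^ 2 := by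
    intro m n
    have h1 : F m - F n = ((hm m).sub (hm n)).toLp (f m - f n) := (MemLp.toLp_sub _ _).symm
    rw [h1, lim_norm]
    rfl
  have hcau : CauchySeq F := by
    rw [Metric.cauchySeq_iff]
    intro ε hε
    obtain ⟨N, hN⟩ := hc (ε ^ 2 / 4) (by positivity)
    refine ⟨N, fun m hm' n hn' => ?_⟩
    have h1 := hN m n hm' hn'
    rw [← hF] at h1
    rw [dist_eq_norm]
    have h2 : ‖F m - F n‖ ≤ ε / 2 := by
      refine abs_le_of_sq_le_sq' ?_ (by positivity) |>.2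
      calc ‖F m - F n‖ ^ 2 ≤ ε ^ 2 / 4 := h1
        _ = (ε / 2) ^ 2 := by ring
    linarith
  obtain ⟨G, hG⟩ := cauchySeq_tendsto_of_complete hcau
  refine ⟨G, Lp.memLp G, ?_⟩
  have h3 : ∀ n, ∫ x in Cube, (f n x - G x) ^ 2 = ‖F n - G‖ ^ 2 := by
    intro n
    have h1 : F n - G = ((hm n).sub (Lp.memLp G)).toLp (f n - (G : P3 → ℝ)) := by
      rw [MemLp.toLp_sub (hm n) (Lp.memLp G), Lp.toLp_coeFn G (Lp.memLp G)]
    rw [h1, lim_norm]
    rfl
  simp only [h3]
  have h4 := (tendsto_iff_norm_sub_tendsto_zero.mp hG).pow 2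
  simpa using h4

/-- completeness of `L²` -/
theorem lim {φ : ℕ → P3 → ℝ} (hφ : ∀ n, IsTest (φ n)) (hc : ∀ ε : ℝ, 0 < ε → ∃ N, ∀ m n, N ≤ m →
    N ≤ n → I0 (fun x => φ m x - φ n x) + I1 (fun x => φ m x - φ n x) ≤ ε) :
    ∃ u p, IsH10 u p ∧ Tendsto (fun n => ∫ x in Cube, (φ n x - u x) ^ 2) atTop (𝓝 0) ∧
      ∀ i, Tendsto (fun n => ∫ x in Cube, (pd i (φ n) x - p x i) ^ 2) atTop (𝓝 0) := by
  have hI0 : ∀ m n, I0 (fun x => φ m x - φ n x) = ∫ x in Cube, (φ m x - φ n x) ^ 2 :=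
    fun m n => rfl
  have hI0' : ∀ f : P3 → ℝ, 0 ≤ I0 f := fun f => integral_nonneg fun x => sq_nonneg _
  have hI1' : ∀ f : P3 → ℝ, 0 ≤ I1 f :=
    fun f => integral_nonneg fun x => Finset.sum_nonneg fun i _ => sq_nonneg _
  have hpd : ∀ (i : Fin 3) m n, ∫ x in Cube, (pd i (φ m) x - pd i (φ n) x) ^ 2 ≤
      I1 (fun x => φ m x - φ n x) := by
    intro i m n
    have h1 : ∀ x, pd i (φ m) x - pd i (φ n) x = pd i (fun y => φ m y - φ n y) x :=
      fun x => (pd_sub (hφ m).smooth (hφ n).smooth i x).symm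
    have hs := ((hφ m).smooth.sub (hφ n).smooth)
    unfold I1
    refine setIntegral_mono_on ?_ ?_ measurableSet_Cube fun x _ => ?_
    · refine integrableOn_Cube (Continuous.continuousOn ?_)
      exact (((hφ m).smooth.pd i).cont.sub ((hφ n).smooth.pd i).cont).pow 2
    · refine integrableOn_Cube (Continuous.continuousOn ?_)
      exact continuous_finsetSum _ fun j _ => (hs.pd j).cont.pow 2
    · rw [h1]
      exact Finset.single_le_sum (f := fun j => pd j (fun y => φ m y - φ n y) x ^ 2)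
        (fun j _ => sq_nonneg _) (Finset.mem_univ i)
  obtain ⟨u, hu, hu'⟩ := lim_one (fun n => (hφ n).smooth.cont) (fun ε hε => by
    obtain ⟨N, hN⟩ := hc ε hε
    refine ⟨N, fun m n hm hn => ?_⟩
    have h1 := hN m n hm hn
    have h2 := hI1' (fun x => φ m x - φ n x)
    rw [hI0] at h1
    linarith)
  have hp : ∀ i : Fin 3, ∃ g : P3 → ℝ, MemLp g 2 limMu ∧
      Tendsto (fun n => ∫ x in Cube, (pd i (φ n) x - g x) ^ 2) atTop (𝓝 0) := by
    intro i
    refine lim_one (fun n => ((hφ n).smooth.pd i).cont) (fun ε hε => ?_)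
    obtain ⟨N, hN⟩ := hc ε hε
    refine ⟨N, fun m n hm hn => ?_⟩
    have h1 := hN m n hm hn
    have h2 := hI0' (fun x => φ m x - φ n x)
    have h3 := hpd i m n
    linarith
  choose p hp1 hp2 using hp
  exact ⟨u, fun x i => p i x, ⟨hu, hp1, φ, hφ, hu', hp2⟩, hu', hp2⟩

end Pool.Agent.L5helper93.CE
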