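import Pool.Agent.L5helper93.CE.CoefA

set_option autoImplicit false

noncomputable section

open MeasureTheory Matrix Filter Topology
open scoped ContDiff

namespace Pool.Agent.L5helper93.CE

/-- Cauchy-Schwarz -/
theorem pass_cs {f g : P3 → ℝ} (hf : MemLp f 2 (volume.restrict Cube))
    (hg : MemLp g 2 (volume.restrict Cube)) :
    ∫ x in Cube, |f x| * |g x| ≤ √(∫ x in Cube, f x ^ 2) * √(∫ x in Cube, g x ^ 2) := by
  have h2 : ENNReal.ofReal 2 = 2 := by norm_num
  have h := integral_mul_norm_le_Lp_mul_Lq (μ := volume.restrict Cube) (f := f) (g := g)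
    Real.HolderConjugate.two_two (by rw [h2]; exact hf) (by rw [h2]; exact hg)
  have e : ∀ h : P3 → ℝ, (∫ a in Cube, ‖h a‖ ^ (2 : ℝ)) ^ (1 / (2 : ℝ)) =
      √(∫ x in Cube, h x ^ 2) := by
    intro h
    rw [Real.sqrt_eq_rpow]
    congr 1
    refine integral_congr_ae (Eventually.of_forall fun x => ?_)
    show ‖h x‖ ^ (2 : ℝ) = h x ^ 2
    rw [Real.rpow_two, Real.norm_eq_abs, sq_abs]
  rw [e f, e g] at h
  exact h

theorem pass_memLp {f : P3 → ℝ} (hf : Continuous f) : MemLp f 2 (volume.restrict Cube) := by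
  have hc : IsCompact Cube := isCompact_Cube
  have : IsFiniteMeasure (volume.restrict Cube) := ⟨by
    rw [Measure.restrict_apply_univ]; exact hc.measure_lt_top⟩
  obtain ⟨C, hC⟩ := hc.exists_bound_of_continuousOn hf.continuousOn
  refine MemLp.of_bound hf.aestronglyMeasurable C ?_
  rw [ae_restrict_iff' measurableSet_Cube]
  exact Eventually.of_forall fun x hx => hC x hx

theorem pass_int_mul {f g : P3 → ℝ} (hf : MemLp f 2 (volume.restrict Cube))
    (hg : MemLp g 2 (volume.restrict Cube)) : IntegrableOn (fun x => f x * g x) Cube :=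
  hf.integrable_mul hg

theorem pass_int_mul3 {a f g : P3 → ℝ} (ha : ContinuousOn a Cube)
    (hf : MemLp f 2 (volume.restrict Cube)) (hg : MemLp g 2 (volume.restrict Cube)) :
    IntegrableOn (fun x => a x * (f x * g x)) Cube := by
  have hi := pass_int_mul hf hg
  obtain ⟨C, hC⟩ := isCompact_Cube.exists_bound_of_continuousOn ha
  refine Integrable.bdd_mul (c := C) hi (ha.aestronglyMeasurable measurableSet_Cube) ?_
  rw [ae_restrict_iff' measurableSet_Cube]
  exact Eventually.of_forall fun x hx => hC x hx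

theorem pass_term {a f g : P3 → ℝ} {K : ℝ} (ha : ContinuousOn a Cube)
    (hK : ∀ x ∈ Cube, |a x| ≤ K) (hK0 : 0 ≤ K)
    (hf : MemLp f 2 (volume.restrict Cube)) (hg : MemLp g 2 (volume.restrict Cube)) :
    |∫ x in Cube, a x * (f x * g x)| ≤
      K * (√(∫ x in Cube, f x ^ 2) * √(∫ x in Cube, g x ^ 2)) := by
  have h1 : |∫ x in Cube, a x * (f x * g x)| ≤ ∫ x in Cube, K * (|f x| * |g x|) := by
    rw [← Real.norm_eq_abs]
    refine norm_integral_le_of_norm_le ?_ ?_
    · have := pass_int_mul hf.abs hg.abs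
      exact this.const_mul K
    · rw [ae_restrict_iff' measurableSet_Cube]
      refine Eventually.of_forall fun x hx => ?_
      rw [Real.norm_eq_abs, abs_mul, abs_mul]
      exact mul_le_mul_of_nonneg_right (hK x hx) (by positivity)
  refine h1.trans ?_
  rw [integral_const_mul]
  exact mul_le_mul_of_nonneg_left (pass_cs hf hg) hK0

theorem pass (G : Metric) {u : P3 → ℝ} {p : P3 → Fin 3 → ℝ} {φ : ℕ → P3 → ℝ}
    (hφ : ∀ n, IsTest (φ n)) (hu : MemLp u 2 (volume.restrict Cube))
    (hp : ∀ i, MemLp (fun x => p x i) 2 (volume.restrict Cube))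
    (h0 : Tendsto (fun n => ∫ x in Cube, (φ n x - u x) ^ 2) atTop (𝓝 0))
    (h1 : ∀ i, Tendsto (fun n => ∫ x in Cube, (pd i (φ n) x - p x i) ^ 2) atTop (𝓝 0)) :
    (∀ ψ, IsTest ψ → Tendsto (fun n => G.Q (φ n) ψ) atTop
      (𝓝 (∫ x in Cube, G.dens x (p x) (u x) (fun i => pd i ψ x) (ψ x)))) ∧
    Tendsto (fun n => I0 (φ n)) atTop (𝓝 (∫ x in Cube, u x ^ 2)) ∧
    ∃ ε : ℕ → ℝ, Tendsto ε atTop (𝓝 0) ∧ (∀ n, 0 ≤ ε n) ∧ ∀ n ψ, IsTest ψ →
      |G.Q (φ n) ψ - ∫ x in Cube, G.dens x (p x) (u x) (fun i => pd i ψ x) (ψ x)| ≤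
        ε n * √(I0 ψ + I1 ψ) := by
  obtain ⟨hA, hB⟩ := met_cont G
  -- a common bound of the coefficients
  obtain ⟨K, hK0, hKA, hKB⟩ : ∃ K : ℝ, 0 ≤ K ∧
      (∀ i j, ∀ x ∈ Cube, |G.inv x i j * G.vol x| ≤ K) ∧
      ∀ x ∈ Cube, |1 / 8 * G.scal x * G.vol x| ≤ K := by
    have hcA : ∀ i j, ∃ C, ∀ x ∈ Cube, ‖G.inv x i j * G.vol x‖ ≤ C := fun i j =>
      isCompact_Cube.exists_bound_of_continuousOn (hA i j)
    choose CA hCA using hcA
    obtain ⟨CB, hCB⟩ := isCompact_Cube.exists_bound_of_continuousOn hB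
    refine ⟨(∑ i, ∑ j, |CA i j|) + |CB|, by positivity, fun i j x hx => ?_, fun x hx => ?_⟩
    · calc |G.inv x i j * G.vol x| ≤ CA i j := hCA i j x hx
        _ ≤ |CA i j| := le_abs_self _
        _ ≤ ∑ j, |CA i j| := Finset.single_le_sum (f := fun j => |CA i j|)
            (fun _ _ => abs_nonneg _) (Finset.mem_univ j)
        _ ≤ ∑ i, ∑ j, |CA i j| := Finset.single_le_sum (f := fun i => ∑ j, |CA i j|)
            (fun _ _ => Finset.sum_nonneg fun _ _ => abs_nonneg _) (Finset.mem_univ i)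
        _ ≤ _ := le_add_of_nonneg_right (abs_nonneg _)
    · calc |1 / 8 * G.scal x * G.vol x| ≤ CB := hCB x hx
        _ ≤ |CB| := le_abs_self _
        _ ≤ _ := le_add_of_nonneg_left (by positivity)
  have hmφ : ∀ n, MemLp (φ n) 2 (volume.restrict Cube) := fun n =>
    pass_memLp (hφ n).smooth.cont
  have hmpd : ∀ n i, MemLp (pd i (φ n)) 2 (volume.restrict Cube) := fun n i =>
    pass_memLp ((hφ n).smooth.pd i).cont
  have hd0 : ∀ n, MemLp (fun x => φ n x - u x) 2 (volume.restrict Cube) := fun n =>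
    (hmφ n).sub hu
  have hd1 : ∀ n i, MemLp (fun x => pd i (φ n) x - p x i) 2 (volume.restrict Cube) := fun n i =>
    (hmpd n i).sub (hp i)
  set a0 : ℕ → ℝ := fun n => √(∫ x in Cube, (φ n x - u x) ^ 2) with ha0
  set a1 : ℕ → Fin 3 → ℝ := fun n i => √(∫ x in Cube, (pd i (φ n) x - p x i) ^ 2) with ha1
  have t0 : Tendsto a0 atTop (𝓝 0) := by
    have := (Real.continuous_sqrt.tendsto 0).comp h0
    rw [Real.sqrt_zero] at this
    exact this
  have t1 : ∀ i, Tendsto (fun n => a1 n i) atTop (𝓝 0) := fun i => by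
    have := (Real.continuous_sqrt.tendsto 0).comp (h1 i)
    rw [Real.sqrt_zero] at this
    exact this
  have key : ∀ n ψ, IsTest ψ →
      |G.Q (φ n) ψ - ∫ x in Cube, G.dens x (p x) (u x) (fun i => pd i ψ x) (ψ x)| ≤
        (K * (∑ i, ∑ _j : Fin 3, a1 n i + a0 n)) * √(I0 ψ + I1 ψ) := by
    intro n ψ hψ
    have hmψ : MemLp ψ 2 (volume.restrict Cube) := pass_memLp hψ.smooth.cont
    have hmpψ : ∀ i, MemLp (pd i ψ) 2 (volume.restrict Cube) := fun i =>
      pass_memLp (hψ.smooth.pd i).cont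
    -- the norms of the test function
    have hI0 : 0 ≤ I0 ψ := integral_nonneg fun x => sq_nonneg _
    have hpi : ∀ i, IntegrableOn (fun x => pd i ψ x ^ 2) Cube := fun i => (hmpψ i).integrable_sq
    have hI1e : I1 ψ = ∑ i, ∫ x in Cube, pd i ψ x ^ 2 := by
      unfold I1
      exact integral_finsetSum _ fun i _ => hpi i
    have hnn : ∀ i, 0 ≤ ∫ x in Cube, pd i ψ x ^ 2 := fun i => integral_nonneg fun x => sq_nonneg _
    have hI1 : 0 ≤ I1 ψ := by rw [hI1e]; exact Finset.sum_nonneg fun i _ => hnn i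
    have hs0 : √(∫ x in Cube, ψ x ^ 2) ≤ √(I0 ψ + I1 ψ) :=
      Real.sqrt_le_sqrt (by show I0 ψ ≤ _; linarith)
    have hs1 : ∀ j, √(∫ x in Cube, pd j ψ x ^ 2) ≤ √(I0 ψ + I1 ψ) := fun j => by
      refine Real.sqrt_le_sqrt ?_
      have : (∫ x in Cube, pd j ψ x ^ 2) ≤ I1 ψ := by
        rw [hI1e]
        exact Finset.single_le_sum (f := fun i => ∫ x in Cube, pd i ψ x ^ 2)
          (fun i _ => hnn i) (Finset.mem_univ j)
      linarith
    -- the difference
    have hint : ∀ (f : Fin 3 → P3 → ℝ) (w : P3 → ℝ), (∀ i, MemLp (f i) 2 (volume.restrict Cube)) →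
        MemLp w 2 (volume.restrict Cube) →
        IntegrableOn (fun x => ∑ i, ∑ j, (G.inv x i j * G.vol x) * (f i x * pd j ψ x) +
          (1 / 8 * G.scal x * G.vol x) * (w x * ψ x)) Cube := by
      intro f w hf hw
      refine Integrable.add ?_ (pass_int_mul3 hB hw hmψ)
      refine integrable_finsetSum _ fun i _ => integrable_finsetSum _ fun j _ => ?_
      exact pass_int_mul3 (hA i j) (hf i) (hmpψ j)
    have hdens : ∀ (f : Fin 3 → P3 → ℝ) (w : P3 → ℝ) (x : P3),
        G.dens x (fun i => f i x) (w x) (fun i => pd i ψ x) (ψ x) =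
          ∑ i, ∑ j, (G.inv x i j * G.vol x) * (f i x * pd j ψ x) +
          (1 / 8 * G.scal x * G.vol x) * (w x * ψ x) := by
      intro f w x
      unfold Metric.dens
      rw [add_mul, Finset.sum_mul]
      congr 1
      · refine Finset.sum_congr rfl fun i _ => ?_
        rw [Finset.sum_mul]
        exact Finset.sum_congr rfl fun j _ => by ring
      · ring
    have hdiff : G.Q (φ n) ψ - ∫ x in Cube, G.dens x (p x) (u x) (fun i => pd i ψ x) (ψ x) =
        ∑ i, ∑ j, (∫ x in Cube, (G.inv x i j * G.vol x) * ((pd i (φ n) x - p x i) * pd j ψ x)) +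
          ∫ x in Cube, (1 / 8 * G.scal x * G.vol x) * ((φ n x - u x) * ψ x) := by
      unfold Metric.Q
      have e1 : (∫ x in Cube, G.dens x (fun i => pd i (φ n) x) (φ n x) (fun i => pd i ψ x) (ψ x)) =
          ∫ x in Cube, (∑ i, ∑ j, (G.inv x i j * G.vol x) * (pd i (φ n) x * pd j ψ x) +
          (1 / 8 * G.scal x * G.vol x) * (φ n x * ψ x)) :=
        integral_congr_ae (Eventually.of_forall fun x => hdens (fun i => pd i (φ n)) (φ n) x)
      have e2 : (∫ x in Cube, G.dens x (p x) (u x) (fun i => pd i ψ x) (ψ x)) =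
          ∫ x in Cube, (∑ i, ∑ j, (G.inv x i j * G.vol x) * (p x i * pd j ψ x) +
          (1 / 8 * G.scal x * G.vol x) * (u x * ψ x)) :=
        integral_congr_ae (Eventually.of_forall fun x => hdens (fun i x => p x i) u x)
      rw [e1, e2, ← integral_sub (hint (fun i => pd i (φ n)) (φ n) (hmpd n) (hmφ n))
        (hint (fun i x => p x i) u hp hu)]
      have e3 : ∀ x, (∑ i, ∑ j, (G.inv x i j * G.vol x) * (pd i (φ n) x * pd j ψ x) +
          (1 / 8 * G.scal x * G.vol x) * (φ n x * ψ x)) -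
          (∑ i, ∑ j, (G.inv x i j * G.vol x) * (p x i * pd j ψ x) +
          (1 / 8 * G.scal x * G.vol x) * (u x * ψ x)) =
          ∑ i, ∑ j, (G.inv x i j * G.vol x) * ((pd i (φ n) x - p x i) * pd j ψ x) +
          (1 / 8 * G.scal x * G.vol x) * ((φ n x - u x) * ψ x) := by
        intro x
        have : ∑ i, ∑ j, (G.inv x i j * G.vol x) * ((pd i (φ n) x - p x i) * pd j ψ x) =
            ∑ i, ∑ j, (G.inv x i j * G.vol x) * (pd i (φ n) x * pd j ψ x) -
            ∑ i, ∑ j, (G.inv x i j * G.vol x) * (p x i * pd j ψ x) := by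
          rw [← Finset.sum_sub_distrib]
          refine Finset.sum_congr rfl fun i _ => ?_
          rw [← Finset.sum_sub_distrib]
          exact Finset.sum_congr rfl fun j _ => by ring
        rw [this]; ring
      rw [integral_congr_ae (Eventually.of_forall e3), integral_add, integral_finsetSum]
      · congr 1
        refine Finset.sum_congr rfl fun i _ => ?_
        exact integral_finsetSum _ fun j _ => pass_int_mul3 (hA i j) (hd1 n i) (hmpψ j)
      · intro i _
        exact integrable_finsetSum _ fun j _ => pass_int_mul3 (hA i j) (hd1 n i) (hmpψ j)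
      · exact integrable_finsetSum _ fun i _ => integrable_finsetSum _ fun j _ =>
          pass_int_mul3 (hA i j) (hd1 n i) (hmpψ j)
      · exact pass_int_mul3 hB (hd0 n) hmψ
    rw [hdiff]
    have b1 : ∀ i j, |∫ x in Cube, (G.inv x i j * G.vol x) * ((pd i (φ n) x - p x i) * pd j ψ x)| ≤
        K * (a1 n i * √(I0 ψ + I1 ψ)) := fun i j => by
      refine (pass_term (hA i j) (hKA i j) hK0 (hd1 n i) (hmpψ j)).trans ?_
      exact mul_le_mul_of_nonneg_left (mul_le_mul_of_nonneg_left (hs1 j) (Real.sqrt_nonneg _)) hK0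
    have b0 : |∫ x in Cube, (1 / 8 * G.scal x * G.vol x) * ((φ n x - u x) * ψ x)| ≤
        K * (a0 n * √(I0 ψ + I1 ψ)) := by
      refine (pass_term hB hKB hK0 (hd0 n) hmψ).trans ?_
      exact mul_le_mul_of_nonneg_left (mul_le_mul_of_nonneg_left hs0 (Real.sqrt_nonneg _)) hK0
    refine (abs_add_le _ _).trans ?_
    have b2 : |∑ i, ∑ j, (∫ x in Cube, (G.inv x i j * G.vol x) *
        ((pd i (φ n) x - p x i) * pd j ψ x))| ≤ ∑ i, ∑ _j : Fin 3, K * (a1 n i * √(I0 ψ + I1 ψ)) := by
      refine (Finset.abs_sum_le_sum_abs _ _).trans (Finset.sum_le_sum fun i _ => ?_)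
      refine (Finset.abs_sum_le_sum_abs _ _).trans (Finset.sum_le_sum fun j _ => ?_)
      exact b1 i j
    refine (add_le_add b2 b0).trans (le_of_eq ?_)
    rw [mul_add, add_mul, Finset.mul_sum, Finset.sum_mul]
    congr 1
    · refine Finset.sum_congr rfl fun i _ => ?_
      rw [Finset.mul_sum, Finset.sum_mul]
      exact Finset.sum_congr rfl fun j _ => by ring
    · ring
  have hεt : Tendsto (fun n => K * (∑ i, ∑ _j : Fin 3, a1 n i + a0 n)) atTop (𝓝 0) := by
    have h2 : Tendsto (fun n => ∑ i, ∑ _j : Fin 3, a1 n i + a0 n) atTop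
        (𝓝 (∑ _i : Fin 3, ∑ _j : Fin 3, (0 : ℝ) + 0)) :=
      (tendsto_finsetSum _ fun i _ => tendsto_finsetSum _ fun j _ => t1 i).add t0
    have h3 := h2.const_mul K
    simpa using h3
  refine ⟨fun ψ hψ => ?_, ?_, _, hεt, fun n => ?_, key⟩
  · rw [tendsto_iff_dist_tendsto_zero]
    have h4 : Tendsto (fun n => (K * (∑ i, ∑ _j : Fin 3, a1 n i + a0 n)) * √(I0 ψ + I1 ψ)) atTop
        (𝓝 0) := by
      have := hεt.mul_const (√(I0 ψ + I1 ψ))
      simpa using this
    exact squeeze_zero (fun n => dist_nonneg) (fun n => by rw [Real.dist_eq]; exact key n ψ hψ) h4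
  · -- convergence of the L² norms
    have hui : IntegrableOn (fun x => u x ^ 2) Cube := hu.integrable_sq
    have e : ∀ n, I0 (φ n) = (∫ x in Cube, (φ n x - u x) ^ 2) +
        2 * (∫ x in Cube, 1 * ((φ n x - u x) * u x)) + ∫ x in Cube, u x ^ 2 := by
      intro n
      have i1 : IntegrableOn (fun x => (φ n x - u x) ^ 2) Cube := (hd0 n).integrable_sq
      have i2 : IntegrableOn (fun x => 1 * ((φ n x - u x) * u x)) Cube :=
        pass_int_mul3 continuousOn_const (hd0 n) hu
      have h8 : (∫ x in Cube, ((φ n x - u x) ^ 2 + 2 * (1 * ((φ n x - u x) * u x)) + u x ^ 2)) =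
          (∫ x in Cube, (φ n x - u x) ^ 2) +
          2 * (∫ x in Cube, 1 * ((φ n x - u x) * u x)) + ∫ x in Cube, u x ^ 2 := by
        have i3 : Integrable (fun x => (φ n x - u x) ^ 2 + 2 * (1 * ((φ n x - u x) * u x)))
            (volume.restrict Cube) := i1.add (i2.const_mul 2)
        have i4 : Integrable (fun x => 2 * (1 * ((φ n x - u x) * u x)))
            (volume.restrict Cube) := i2.const_mul 2
        rw [integral_add i3 hui, integral_add i1 i4, integral_const_mul]
      rw [← h8]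
      unfold I0
      refine integral_congr_ae (Eventually.of_forall fun x => ?_)
      simp only
      ring
    have hz : Tendsto (fun n => ∫ x in Cube, 1 * ((φ n x - u x) * u x)) atTop (𝓝 0) := by
      rw [tendsto_zero_iff_abs_tendsto_zero]
      have h5 : Tendsto (fun n => 1 * (a0 n * √(∫ x in Cube, u x ^ 2))) atTop (𝓝 0) := by
        have := (t0.mul_const (√(∫ x in Cube, u x ^ 2))).const_mul 1
        simpa using this
      exact squeeze_zero (fun n => abs_nonneg _)
        (fun n => pass_term (a := fun _ => (1 : ℝ)) continuousOn_const (fun x _ => by simp)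
          zero_le_one (hd0 n) hu) h5
    have h6 := (h0.add (hz.const_mul 2)).add_const (∫ x in Cube, u x ^ 2)
    have h7 : Tendsto (fun n => I0 (φ n)) atTop (𝓝 (0 + 2 * 0 + ∫ x in Cube, u x ^ 2)) :=
      h6.congr fun n => (e n).symm
    simpa using h7
  · have : ∀ i, 0 ≤ a1 n i := fun i => Real.sqrt_nonneg _
    exact mul_nonneg hK0 (add_nonneg (Finset.sum_nonneg fun i _ => Finset.sum_nonneg fun _ _ =>
      this i) (Real.sqrt_nonneg _))

end Pool.Agent.L5helper93.CE
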