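import Pool.Agent.L5helper93.CE.Basic
import Pool.Agent.Helper559_Top.Rellich

set_option autoImplicit false

noncomputable section

open MeasureTheory Matrix Filter Topology
open scoped ContDiff

namespace Pool.Agent.L5helper93.CE

/-! ## The cutoff function -/

def Rel_chi (s : ℝ) : ℝ := Real.smoothTransition (2 * s + 1) * Real.smoothTransition (3 - 2 * s)

theorem Rel_chi_contDiff : ContDiff ℝ ∞ Rel_chi := by
  unfold Rel_chi
  exact (Real.smoothTransition.contDiff.comp (by fun_prop)).mul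
    (Real.smoothTransition.contDiff.comp (by fun_prop))

theorem Rel_chi_one {s : ℝ} (h0 : 0 ≤ s) (h1 : s ≤ 1) : Rel_chi s = 1 := by
  unfold Rel_chi
  rw [Real.smoothTransition.one_of_one_le (by linarith),
    Real.smoothTransition.one_of_one_le (by linarith), one_mul]

theorem Rel_chi_left {s : ℝ} (h : s < -(1 / 2)) : Rel_chi s = 0 := by
  unfold Rel_chi
  rw [Real.smoothTransition.zero_of_nonpos (by linarith), zero_mul]

theorem Rel_chi_right {s : ℝ} (h : 3 / 2 < s) : Rel_chi s = 0 := by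
  unfold Rel_chi
  rw [Real.smoothTransition.zero_of_nonpos (x := 3 - 2 * s) (by linarith), mul_zero]

theorem Rel_chi_nonneg (s : ℝ) : 0 ≤ Rel_chi s :=
  mul_nonneg (Real.smoothTransition.nonneg _) (Real.smoothTransition.nonneg _)

theorem Rel_chi_le (s : ℝ) : Rel_chi s ≤ 1 :=
  mul_le_one₀ (Real.smoothTransition.le_one _) (Real.smoothTransition.nonneg _)
    (Real.smoothTransition.le_one _)

def Rel_cut (x : P3) : ℝ := Rel_chi (x 1) * Rel_chi (x 2)

theorem Rel_cut_contDiff : ContDiff ℝ ∞ Rel_cut := by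
  unfold Rel_cut
  exact (Rel_chi_contDiff.comp (by fun_prop)).mul (Rel_chi_contDiff.comp (by fun_prop))

theorem Rel_cut_nonneg (x : P3) : 0 ≤ Rel_cut x := mul_nonneg (Rel_chi_nonneg _) (Rel_chi_nonneg _)

theorem Rel_cut_le (x : P3) : Rel_cut x ≤ 1 :=
  mul_le_one₀ (Rel_chi_le _) (Rel_chi_nonneg _) (Rel_chi_le _)

theorem Rel_cut_one {x : P3} (hx : x ∈ Cube) : Rel_cut x = 1 := by
  unfold Rel_cut
  rw [Rel_chi_one (hx 1).1 (hx 1).2, Rel_chi_one (hx 2).1 (hx 2).2, one_mul]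

/-! ## Boxes -/

def Rel_box (a0 b0 a b : ℝ) : Set P3 := {x | a0 ≤ x 0 ∧ x 0 ≤ b0 ∧ a ≤ x 1 ∧ x 1 ≤ b ∧ a ≤ x 2 ∧ x 2 ≤ b}

theorem Rel_box_closed (a0 b0 a b : ℝ) : IsClosed (Rel_box a0 b0 a b) := by
  have h0 : Continuous fun x : P3 => x 0 := by fun_prop
  have h1 : Continuous fun x : P3 => x 1 := by fun_prop
  have h2 : Continuous fun x : P3 => x 2 := by fun_prop
  exact (isClosed_le continuous_const h0).inter ((isClosed_le h0 continuous_const).inter
    ((isClosed_le continuous_const h1).inter ((isClosed_le h1 continuous_const).inter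
    ((isClosed_le continuous_const h2).inter (isClosed_le h2 continuous_const)))))

theorem Rel_norm_le {x : P3} (h : ∀ i, |x i| ≤ 2) : ‖x‖ ≤ 4 := by
  rw [EuclideanSpace.norm_eq]
  have h2 : ∑ i, ‖x i‖ ^ 2 ≤ 16 := by
    calc ∑ i, ‖x i‖ ^ 2 ≤ ∑ i : Fin 3, (4 : ℝ) := by
          refine Finset.sum_le_sum fun i _ => ?_
          rw [Real.norm_eq_abs]
          have := h i
          have h3 := abs_nonneg (x i)
          nlinarith
      _ ≤ 16 := by simp; norm_num
  calc Real.sqrt (∑ i, ‖x i‖ ^ 2) ≤ Real.sqrt 16 := Real.sqrt_le_sqrt h2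
    _ = 4 := by rw [show (16 : ℝ) = 4 ^ 2 by norm_num, Real.sqrt_sq (by norm_num)]

theorem Rel_box_compact {a0 b0 a b : ℝ} (h1 : -2 ≤ a0) (h2 : b0 ≤ 2) (h3 : -2 ≤ a) (h4 : b ≤ 2) :
    IsCompact (Rel_box a0 b0 a b) := by
  refine Metric.isCompact_of_isClosed_isBounded (Rel_box_closed _ _ _ _) ?_
  refine (Metric.isBounded_closedBall (x := (0 : P3)) (r := 4)).subset fun x hx => ?_
  rw [mem_closedBall_zero_iff]
  obtain ⟨c1, c2, c3, c4, c5, c6⟩ := hx
  refine Rel_norm_le fun i => ?_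
  rw [abs_le]
  fin_cases i
  · exact ⟨by simpa using h1.trans c1, by simpa using c2.trans h2⟩
  · exact ⟨by simpa using h3.trans c3, by simpa using c4.trans h4⟩
  · exact ⟨by simpa using h3.trans c5, by simpa using c6.trans h4⟩

/-! ## The integral over the box and over the cube -/

def Rel_sh (p : Fin 3 × Fin 3) : P3 := ((p.1 : ℝ) - 1) • bv 1 + ((p.2 : ℝ) - 1) • bv 2

theorem Rel_sh0 (p : Fin 3 × Fin 3) : Rel_sh p 0 = 0 := by simp [Rel_sh, bv]

theorem Rel_sh1 (p : Fin 3 × Fin 3) : Rel_sh p 1 = (p.1 : ℝ) - 1 := by simp [Rel_sh, bv]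

theorem Rel_sh2 (p : Fin 3 × Fin 3) : Rel_sh p 2 = (p.2 : ℝ) - 1 := by simp [Rel_sh, bv]

theorem Rel_coord {s : ℝ} (h0 : -1 ≤ s) (h1 : s ≤ 2) : ∃ i : Fin 3, 0 ≤ s - ((i : ℝ) - 1) ∧
    s - ((i : ℝ) - 1) ≤ 1 := by
  rcases le_total s 0 with h | h
  · exact ⟨0, by simp; linarith, by simp; linarith⟩
  · rcases le_total s 1 with h' | h'
    · exact ⟨1, by simp; linarith, by simp; linarith⟩
    · refine ⟨2, ?_, ?_⟩
      · simp; linarith
      · simp; linarith

theorem Rel_per1 {G : P3 → ℝ} (hG : ∀ x, G (x + bv 1) = G x ∧ G (x + bv 2) = G x) (i : Fin 3)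
    (x : P3) : G (x - ((i : ℝ) - 1) • bv 1) = G x := by
  fin_cases i
  · have := (hG x).1
    have e : x - (((⟨0, by norm_num⟩ : Fin 3) : ℝ) - 1) • bv 1 = x + bv 1 := by
      simp [sub_eq_add_neg]
    simpa [sub_eq_add_neg] using this
  · simp
  · have := (hG (x - bv 1)).1
    rw [sub_add_cancel] at this
    have e : ((2 : ℝ) - 1) = 1 := by norm_num
    simp [e]
    exact this.symm

theorem Rel_per2 {G : P3 → ℝ} (hG : ∀ x, G (x + bv 1) = G x ∧ G (x + bv 2) = G x) (i : Fin 3)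
    (x : P3) : G (x - ((i : ℝ) - 1) • bv 2) = G x := by
  fin_cases i
  · have := (hG x).2
    simpa [sub_eq_add_neg] using this
  · simp
  · have := (hG (x - bv 2)).2
    rw [sub_add_cancel] at this
    have e : ((2 : ℝ) - 1) = 1 := by norm_num
    simp [e]
    exact this.symm

theorem Rel_per {G : P3 → ℝ} (hG : ∀ x, G (x + bv 1) = G x ∧ G (x + bv 2) = G x)
    (p : Fin 3 × Fin 3) (x : P3) : G (x - Rel_sh p) = G x := by
  unfold Rel_sh
  rw [← sub_sub, Rel_per2 hG, Rel_per1 hG]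

theorem Rel_int {G F : P3 → ℝ} (hGc : Continuous G) (hG0 : ∀ x, 0 ≤ G x)
    (hG : ∀ x, G (x + bv 1) = G x ∧ G (x + bv 2) = G x) {K : ℝ} (hK : 0 ≤ K) (hF0 : ∀ x, 0 ≤ F x)
    (hF : ∀ x ∈ Rel_box 0 1 (-1) 2, F x ≤ K * G x) (hF' : ∀ x, x ∉ Rel_box 0 1 (-1) 2 → F x = 0) :
    ∫ x, F x ≤ 9 * K * ∫ x in Cube, G x := by
  have hmC := measurableSet_Cube
  have hint : Integrable (Cube.indicator fun x => K * G x) := by
    rw [integrable_indicator_iff hmC]
    exact integrableOn_Cube (continuous_const.mul hGc).continuousOn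
  have hint2 : ∀ p : Fin 3 × Fin 3, Integrable fun x => Cube.indicator (fun x => K * G x)
      (x - Rel_sh p) := fun p => hint.comp_sub_right (Rel_sh p)
  have h1 : ∫ x, F x ≤ ∫ x, ∑ p : Fin 3 × Fin 3, Cube.indicator (fun x => K * G x)
      (x - Rel_sh p) := by
    refine integral_mono_of_nonneg (Eventually.of_forall hF0)
      (integrable_finsetSum _ fun p _ => hint2 p) (Eventually.of_forall fun x => ?_)
    have hnn : ∀ p : Fin 3 × Fin 3, 0 ≤ Cube.indicator (fun x => K * G x) (x - Rel_sh p) :=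
      fun p => Set.indicator_nonneg (fun y _ => mul_nonneg hK (hG0 y)) _
    by_cases hx : x ∈ Rel_box 0 1 (-1) 2
    · obtain ⟨c1, c2, c3, c4, c5, c6⟩ := hx
      obtain ⟨i, hi0, hi1⟩ := Rel_coord c3 c4
      obtain ⟨j, hj0, hj1⟩ := Rel_coord c5 c6
      have hmem : x - Rel_sh (i, j) ∈ Cube := by
        intro k
        fin_cases k
        · show 0 ≤ (x - Rel_sh (i, j)) 0 ∧ (x - Rel_sh (i, j)) 0 ≤ 1
          rw [PiLp.sub_apply, Rel_sh0, sub_zero]; exact ⟨c1, c2⟩
        · show 0 ≤ (x - Rel_sh (i, j)) 1 ∧ (x - Rel_sh (i, j)) 1 ≤ 1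
          rw [PiLp.sub_apply, Rel_sh1]; exact ⟨hi0, hi1⟩
        · show 0 ≤ (x - Rel_sh (i, j)) 2 ∧ (x - Rel_sh (i, j)) 2 ≤ 1
          rw [PiLp.sub_apply, Rel_sh2]; exact ⟨hj0, hj1⟩
      have h2 := Finset.single_le_sum (f := fun p : Fin 3 × Fin 3 =>
        Cube.indicator (fun x => K * G x) (x - Rel_sh p)) (fun p _ => hnn p)
        (Finset.mem_univ (i, j))
      refine le_trans ?_ h2
      show F x ≤ Cube.indicator (fun x => K * G x) (x - Rel_sh (i, j))
      rw [Set.indicator_of_mem hmem, Rel_per hG]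
      exact hF x ⟨c1, c2, c3, c4, c5, c6⟩
    · show F x ≤ _
      rw [hF' x hx]
      exact Finset.sum_nonneg fun p _ => hnn p
  refine h1.trans (le_of_eq ?_)
  rw [integral_finsetSum _ fun p _ => hint2 p]
  have h3 : ∀ p : Fin 3 × Fin 3, ∫ x, Cube.indicator (fun x => K * G x) (x - Rel_sh p) =
      K * ∫ x in Cube, G x := by
    intro p
    rw [integral_sub_right_eq_self (fun x => Cube.indicator (fun x => K * G x) x) (Rel_sh p),
      integral_indicator hmC, integral_const_mul]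
  rw [Finset.sum_congr rfl fun p _ => h3 p, Finset.sum_const, Finset.card_univ]
  simp only [Fintype.card_prod, Fintype.card_fin, nsmul_eq_mul]
  push_cast
  ring

/-! ## The gradient -/

theorem Rel_grad (f : P3 → ℝ) (x : P3) : ‖fderiv ℝ f x‖ ^ 2 = ∑ i, pd i f x ^ 2 := by
  rw [← Helper559_Top.norm_gradient, EuclideanSpace.norm_sq_eq]
  refine Finset.sum_congr rfl fun i _ => ?_
  have h : gradient f x i = pd i f x := by
    have h1 : inner ℝ (gradient f x) (bv i) = fderiv ℝ f x (bv i) := by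
      simp [gradient]
    unfold bv at h1
    rw [EuclideanSpace.inner_single_right] at h1
    simpa [pd, bv] using h1
  rw [h, Real.norm_eq_abs, sq_abs]

/-! ## Rellich -/

def Rel_om : Set P3 := {x | 0 < x 0 ∧ x 0 < 1 ∧ -1 < x 1 ∧ x 1 < 2 ∧ -1 < x 2 ∧ x 2 < 2}

theorem Rel_om_open : IsOpen Rel_om := by
  have h0 : Continuous fun x : P3 => x 0 := by fun_prop
  have h1 : Continuous fun x : P3 => x 1 := by fun_prop
  have h2 : Continuous fun x : P3 => x 2 := by fun_prop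
  exact (isOpen_lt continuous_const h0).inter ((isOpen_lt h0 continuous_const).inter
    ((isOpen_lt continuous_const h1).inter ((isOpen_lt h1 continuous_const).inter
    ((isOpen_lt continuous_const h2).inter (isOpen_lt h2 continuous_const)))))

theorem Rel_om_vol : volume Rel_om ≠ ⊤ := by
  have hsub : Rel_om ⊆ Rel_box 0 1 (-1) 2 := by
    rintro x ⟨c1, c2, c3, c4, c5, c6⟩
    exact ⟨c1.le, c2.le, c3.le, c4.le, c5.le, c6.le⟩
  have hc : IsCompact (Rel_box 0 1 (-1) 2) :=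
    Rel_box_compact (by norm_num) (by norm_num) (by norm_num) (by norm_num)
  exact ((measure_mono hsub).trans_lt hc.measure_lt_top).ne

theorem Rel_psi_zero {φ : P3 → ℝ} {δ : ℝ} (hδ : ∀ x, x 0 < δ ∨ 1 - δ < x 0 → φ x = 0) {x : P3}
    (hx : x ∉ Rel_box δ (1 - δ) (-(1 / 2)) (3 / 2)) : φ x * Rel_cut x = 0 := by
  by_contra hne
  apply hx
  have h1 : φ x ≠ 0 := fun h => hne (by rw [h, zero_mul])
  have h2 : Rel_cut x ≠ 0 := fun h => hne (by rw [h, mul_zero])
  have h3 : Rel_chi (x 1) ≠ 0 := fun h => h2 (by unfold Rel_cut; rw [h, zero_mul])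
  have h4 : Rel_chi (x 2) ≠ 0 := fun h => h2 (by unfold Rel_cut; rw [h, mul_zero])
  refine ⟨?_, ?_, ?_, ?_, ?_, ?_⟩
  · by_contra h; exact h1 (hδ x (Or.inl (not_le.1 h)))
  · by_contra h; exact h1 (hδ x (Or.inr (not_le.1 h)))
  · by_contra h; exact h3 (Rel_chi_left (not_le.1 h))
  · by_contra h; exact h3 (Rel_chi_right (not_le.1 h))
  · by_contra h; exact h4 (Rel_chi_left (not_le.1 h))
  · by_contra h; exact h4 (Rel_chi_right (not_le.1 h))

theorem Rel_test {φ : P3 → ℝ} (hφ : IsTest φ) :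
    Helper559_Top.IsTest (N := 3) Rel_om (fun x => φ x * Rel_cut x) ∧
    (∀ x, x ∉ Rel_box 0 1 (-1) 2 → φ x * Rel_cut x = 0) ∧
    (∀ x, x ∉ Rel_box 0 1 (-1) 2 → fderiv ℝ (fun x => φ x * Rel_cut x) x = 0) := by
  obtain ⟨hs, δ, hδ0, hδ⟩ := hφ
  have hts : tsupport (fun x => φ x * Rel_cut x) ⊆ Rel_box δ (1 - δ) (-(1 / 2)) (3 / 2) := by
    refine closure_minimal ?_ (Rel_box_closed _ _ _ _)
    intro x hx
    by_contra h
    exact hx (Rel_psi_zero hδ h)
  have hb1 : Rel_box δ (1 - δ) (-(1 / 2)) (3 / 2) ⊆ Rel_box 0 1 (-1) 2 := by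
    rintro x ⟨c1, c2, c3, c4, c5, c6⟩
    exact ⟨by linarith, by linarith, by linarith, by linarith, by linarith, by linarith⟩
  have hb2 : Rel_box δ (1 - δ) (-(1 / 2)) (3 / 2) ⊆ Rel_om := by
    rintro x ⟨c1, c2, c3, c4, c5, c6⟩
    exact ⟨by linarith, by linarith, by linarith, by linarith, by linarith, by linarith⟩
  have hcomp : HasCompactSupport fun x => φ x * Rel_cut x := by
    have hc : IsCompact (Rel_box 0 1 (-1) 2) :=
      Rel_box_compact (by norm_num) (by norm_num) (by norm_num) (by norm_num)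
    exact HasCompactSupport.of_support_subset_isCompact hc
      ((subset_tsupport _).trans (hts.trans hb1))
  refine ⟨⟨hs.1.mul Rel_cut_contDiff, hcomp, hts.trans hb2⟩, ?_, ?_⟩
  · intro x hx
    by_contra h
    exact hx (hb1 (hts (subset_tsupport _ h)))
  · intro x hx
    by_contra h
    exact hx (hb1 (hts (support_fderiv_subset ℝ h)))

theorem rel {φ : ℕ → P3 → ℝ} (hφ : ∀ n, IsTest (φ n)) {C : ℝ} (hC : ∀ n, I0 (φ n) + I1 (φ n) ≤ C) :
    ∃ σ : ℕ → ℕ, StrictMono σ ∧ ∀ ε : ℝ, 0 < ε → ∃ N, ∀ m n, N ≤ m → N ≤ n →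
      I0 (fun x => φ (σ m) x - φ (σ n) x) ≤ ε := by
  have hcomp : IsCompact (Rel_box 0 1 (-1) 2) :=
    Rel_box_compact (by norm_num) (by norm_num) (by norm_num) (by norm_num)
  obtain ⟨K, hK⟩ := hcomp.exists_bound_of_continuousOn
    (f := fun x => fderiv ℝ Rel_cut x)
    (Rel_cut_contDiff.continuous_fderiv (by simp)).continuousOn
  have hcutd : Differentiable ℝ Rel_cut := Rel_cut_contDiff.differentiable (by simp)
  let ψ : ℕ → P3 → ℝ := fun n x => φ n x * Rel_cut x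
  have htest := fun n => Rel_test (hφ n)
  choose y hyT hyE using fun n => Helper559_Top.exists_emb (htest n).1
  -- the function G
  let G : ℕ → P3 → ℝ := fun n x => φ n x ^ 2 + ∑ i, pd i (φ n) x ^ 2
  have hGc : ∀ n, Continuous (G n) := fun n =>
    ((hφ n).smooth.cont.pow 2).add (continuous_finsetSum _ fun i _ => ((hφ n).smooth.pd i).cont.pow 2)
  have hG0 : ∀ n x, 0 ≤ G n x := fun n x =>
    add_nonneg (sq_nonneg _) (Finset.sum_nonneg fun i _ => sq_nonneg _)
  have hGp : ∀ n x, G n (x + bv 1) = G n x ∧ G n (x + bv 2) = G n x := by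
    intro n x
    constructor
    · show φ n (x + bv 1) ^ 2 + ∑ i, pd i (φ n) (x + bv 1) ^ 2 = _
      rw [((hφ n).smooth.2 x).1]
      simp only [(((hφ n).smooth.pd _).2 x).1]
      rfl
    · show φ n (x + bv 2) ^ 2 + ∑ i, pd i (φ n) (x + bv 2) ^ 2 = _
      rw [((hφ n).smooth.2 x).2]
      simp only [(((hφ n).smooth.pd _).2 x).2]
      rfl
  have hGI : ∀ n, ∫ x in Cube, G n x = I0 (φ n) + I1 (φ n) := by
    intro n
    unfold I0 I1
    rw [← integral_add]
    · exact integrableOn_Cube ((hφ n).smooth.cont.pow 2).continuousOn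
    · exact integrableOn_Cube (continuous_finsetSum _ fun i _ =>
        ((hφ n).smooth.pd i).cont.pow 2).continuousOn
  have hK0 : 0 ≤ K := (norm_nonneg _).trans (hK 0 (by
    refine ⟨?_, ?_, ?_, ?_, ?_, ?_⟩ <;> simp))
  have hIC : ∀ n, ∫ x in Cube, G n x ≤ C := fun n => (hGI n).le.trans (hC n)
  have hC0 : 0 ≤ C := le_trans (integral_nonneg (hG0 0)) (hIC 0)
  -- bounds
  have hb1 : ∀ n, ‖(y n).1‖ ^ 2 ≤ 9 * (2 * K ^ 2 + 2) * C := by
    intro n
    rw [← Helper559_Top.emb_norm_fst (hyE n)]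
    have h1 : ∫ x, (φ n x * Rel_cut x) ^ 2 ≤ 9 * (2 * K ^ 2 + 2) * ∫ x in Cube, G n x := by
      refine Rel_int (hGc n) (hG0 n) (hGp n) (by positivity) (fun x => sq_nonneg _) ?_ ?_
      · intro x _
        have h2 : (φ n x * Rel_cut x) ^ 2 ≤ φ n x ^ 2 := by
          rw [mul_pow]
          have h3 : Rel_cut x ^ 2 ≤ 1 := by
            have := Rel_cut_nonneg x
            have := Rel_cut_le x
            nlinarith
          nlinarith [sq_nonneg (φ n x)]
        have h4 : φ n x ^ 2 ≤ G n x :=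
          le_add_of_nonneg_right (Finset.sum_nonneg fun i _ => sq_nonneg _)
        have h5 := hG0 n x
        nlinarith [sq_nonneg K, mul_nonneg (sq_nonneg K) h5]
      · intro x hx
        rw [(htest n).2.1 x hx]; ring
    refine h1.trans ?_
    have := hIC n
    have h9 : 0 ≤ 9 * (2 * K ^ 2 + 2) := by positivity
    exact mul_le_mul_of_nonneg_left this h9
  have hb2 : ∀ n, ‖(y n).2‖ ^ 2 ≤ 9 * (2 * K ^ 2 + 2) * C := by
    intro n
    rw [← Helper559_Top.emb_norm_snd (hyE n)]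
    have h1 : ∫ x, ‖fderiv ℝ (fun x => φ n x * Rel_cut x) x‖ ^ 2 ≤
        9 * (2 * K ^ 2 + 2) * ∫ x in Cube, G n x := by
      refine Rel_int (hGc n) (hG0 n) (hGp n) (by positivity) (fun x => sq_nonneg _) ?_ ?_
      · intro x hx
        have hd : fderiv ℝ (fun x => φ n x * Rel_cut x) x =
            φ n x • fderiv ℝ Rel_cut x + Rel_cut x • fderiv ℝ (φ n) x :=
          fderiv_fun_mul ((hφ n).smooth.diff x) (hcutd x)
        have h2 : ‖fderiv ℝ (fun x => φ n x * Rel_cut x) x‖ ≤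
            |φ n x| * K + ‖fderiv ℝ (φ n) x‖ := by
          rw [hd]
          refine (norm_add_le _ _).trans ?_
          rw [norm_smul, norm_smul, Real.norm_eq_abs, Real.norm_eq_abs,
            abs_of_nonneg (Rel_cut_nonneg x)]
          have h3 := hK x hx
          have h4 := Rel_cut_le x
          have h5 := norm_nonneg (fderiv ℝ (φ n) x)
          have h6 := abs_nonneg (φ n x)
          have h7 : |φ n x| * ‖fderiv ℝ Rel_cut x‖ ≤ |φ n x| * K :=
            mul_le_mul_of_nonneg_left h3 h6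
          have h8 : Rel_cut x * ‖fderiv ℝ (φ n) x‖ ≤ ‖fderiv ℝ (φ n) x‖ :=
            mul_le_of_le_one_left h5 h4
          linarith
        have h3 : ‖fderiv ℝ (fun x => φ n x * Rel_cut x) x‖ ^ 2 ≤
            2 * K ^ 2 * φ n x ^ 2 + 2 * ‖fderiv ℝ (φ n) x‖ ^ 2 := by
          have h4 := norm_nonneg (fderiv ℝ (fun x => φ n x * Rel_cut x) x)
          have h5 : ‖fderiv ℝ (fun x => φ n x * Rel_cut x) x‖ ^ 2 ≤
              (|φ n x| * K + ‖fderiv ℝ (φ n) x‖) ^ 2 := by gcongr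
          have h6 : |φ n x| ^ 2 = φ n x ^ 2 := sq_abs _
          nlinarith [sq_nonneg (|φ n x| * K - ‖fderiv ℝ (φ n) x‖)]
        rw [Rel_grad (φ n) x] at h3
        refine h3.trans ?_
        show _ ≤ (2 * K ^ 2 + 2) * (φ n x ^ 2 + ∑ i, pd i (φ n) x ^ 2)
        have h7 : 0 ≤ ∑ i, pd i (φ n) x ^ 2 := Finset.sum_nonneg fun i _ => sq_nonneg _
        nlinarith [sq_nonneg (φ n x), mul_nonneg (sq_nonneg K) h7]
      · intro x hx
        rw [(htest n).2.2 x hx]; simp
    refine h1.trans ?_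
    have := hIC n
    have h9 : 0 ≤ 9 * (2 * K ^ 2 + 2) := by positivity
    exact mul_le_mul_of_nonneg_left this h9
  have hbd : ∀ n, ‖y n‖ ≤ Real.sqrt (9 * (2 * K ^ 2 + 2) * C) := by
    intro n
    rw [Prod.norm_def]
    exact max_le (Real.le_sqrt_of_sq_le (hb1 n)) (Real.le_sqrt_of_sq_le (hb2 n))
  obtain ⟨σ, f, hσ, hf⟩ := Helper559_Top.rellich Rel_om_open Rel_om_vol y
    (fun n => Helper559_Top.TX_le_H10 _ (hyT n)) _ hbd
  refine ⟨σ, hσ, fun ε hε => ?_⟩
  have hcau := hf.cauchySeq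
  rw [Metric.cauchySeq_iff] at hcau
  obtain ⟨N, hN⟩ := hcau (Real.sqrt ε) (Real.sqrt_pos.2 hε)
  refine ⟨N, fun m n hm hn => ?_⟩
  have h1 := hN m hm n hn
  rw [dist_eq_norm] at h1
  have h2 : ‖(y (σ m)).1 - (y (σ n)).1‖ ^ 2 ≤ ε := by
    have h3 := norm_nonneg ((y (σ m)).1 - (y (σ n)).1)
    have h4 := Real.sq_sqrt hε.le
    nlinarith [Real.sqrt_nonneg ε]
  have h3 : ∫ x, (ψ (σ m) x - ψ (σ n) x) ^ 2 = ‖(y (σ m)).1 - (y (σ n)).1‖ ^ 2 := by
    rw [← real_inner_self_eq_norm_sq, L2.inner_def]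
    refine integral_congr_ae ?_
    filter_upwards [(hyE (σ m)).1, (hyE (σ n)).1, Lp.coeFn_sub (y (σ m)).1 (y (σ n)).1]
      with a e1 e2 e3
    rw [e3, Pi.sub_apply, e1, e2]
    simp [sq, ψ]
  have hcont : Continuous fun x => (ψ (σ m) x - ψ (σ n) x) ^ 2 :=
    (((htest (σ m)).1.1.continuous).sub ((htest (σ n)).1.1.continuous)).pow 2
  have hint : Integrable fun x => (ψ (σ m) x - ψ (σ n) x) ^ 2 := by
    refine hcont.integrable_of_hasCompactSupport ?_
    refine HasCompactSupport.of_support_subset_isCompact hcomp ?_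
    intro x hx
    by_contra h
    apply hx
    show (φ (σ m) x * Rel_cut x - φ (σ n) x * Rel_cut x) ^ 2 = 0
    rw [(htest (σ m)).2.1 x h, (htest (σ n)).2.1 x h]
    ring
  have h4 : I0 (fun x => φ (σ m) x - φ (σ n) x) = ∫ x in Cube, (ψ (σ m) x - ψ (σ n) x) ^ 2 := by
    unfold I0
    refine setIntegral_congr_fun measurableSet_Cube fun x hx => ?_
    show (φ (σ m) x - φ (σ n) x) ^ 2 = (φ (σ m) x * Rel_cut x - φ (σ n) x * Rel_cut x) ^ 2
    rw [Rel_cut_one hx]; ring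
  rw [h4]
  refine (setIntegral_le_integral hint (Eventually.of_forall fun x => sq_nonneg _)).trans ?_
  rw [h3]; exact h2

end Pool.Agent.L5helper93.CE
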