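import Pool.Agent.L5helper93.CE.Stek
import Pool.Agent.L5helper93.CE.KernA
import Pool.Agent.L5helper93.CE.KernB
import Pool.Agent.L5helper93.CE.Rel
import Pool.Agent.L5helper93.CE.Lim
import Pool.Agent.L5helper93.CE.Pass
import Pool.Agent.L5helper93.CE.Step
import Pool.Agent.L5helper93.CE.Congr

set_option autoImplicit false

noncomputable section

open MeasureTheory Matrix Filter Topology
open scoped ContDiff

namespace Pool.Agent.L5helper93.CE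

theorem I0_nonneg (φ : P3 → ℝ) : 0 ≤ I0 φ := integral_nonneg fun _ => sq_nonneg _

theorem I1_nonneg (φ : P3 → ℝ) : 0 ≤ I1 φ :=
  integral_nonneg fun _ => Finset.sum_nonneg fun _ _ => sq_nonneg _

theorem int_sq {φ : P3 → ℝ} (h : IsTest φ) : IntegrableOn (fun x => φ x ^ 2) Cube :=
  integrableOn_Cube (h.smooth.cont.pow 2).continuousOn

theorem I0_smul (φ : P3 → ℝ) (c : ℝ) : I0 (fun x => c * φ x) = c ^ 2 * I0 φ := by
  unfold I0
  rw [← integral_const_mul]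
  exact integral_congr_ae (Eventually.of_forall fun x => by simp only; ring)

/-- a bound for weak null sequences excludes the eigenvalue `0` -/
theorem notZero {G : Metric} {C : ℝ} (h : ∀ φ, IsTest φ → ∀ ε : ℝ, 0 ≤ ε →
    (∀ ψ, IsTest ψ → |G.Q φ ψ| ≤ ε * √(I0 ψ + I1 ψ)) → I0 φ ≤ C * ε ^ 2) : ¬ G.ZeroDirichlet := by
  rintro ⟨u, p, ⟨hu, hp, φ, hφ, h0, h1⟩, hne, hw⟩
  obtain ⟨-, h2, ε, hε, hε0, h3⟩ := pass G hφ hu hp h0 h1
  have h4 : ∀ n, I0 (φ n) ≤ C * ε n ^ 2 := fun n => h _ (hφ n) _ (hε0 n) fun ψ hψ => by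
    have := h3 n ψ hψ
    rwa [hw ψ hψ, sub_zero] at this
  have h5 : Tendsto (fun n => C * ε n ^ 2) atTop (𝓝 0) := by
    have := (hε.pow 2).const_mul C
    simpa using this
  have h6 : ∫ x in Cube, u x ^ 2 ≤ 0 := le_of_tendsto_of_tendsto' h2 h5 h4
  have h7 : ∫ x in Cube, u x ^ 2 = 0 := le_antisymm h6 (integral_nonneg fun _ => sq_nonneg _)
  rw [integral_eq_zero_iff_of_nonneg (fun _ => sq_nonneg _) hu.integrable_sq] at h7
  exact hne (h7.mono fun x hx => by simpa using hx)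

theorem sqrt_bound {c ε s : ℝ} (hc : 0 < c) (hε : 0 ≤ ε) (hs : 0 ≤ s) (h : c * s ≤ ε * √s) :
    s ≤ 1 / c ^ 2 * ε ^ 2 := by
  have h1 : √s * √s = s := Real.mul_self_sqrt hs
  rcases hs.eq_or_lt with h0 | h0
  · rw [← h0]; positivity
  · have h2 : 0 < √s := Real.sqrt_pos.2 h0
    have h3 : c * √s ≤ ε := by
      have : c * √s * √s ≤ ε * √s := by rw [mul_assoc, h1]; exact h
      exact le_of_mul_le_mul_right this h2
    have h4 : (c * √s) ^ 2 ≤ ε ^ 2 := pow_le_pow_left₀ (by positivity) h3 2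
    rw [mul_pow, Real.sq_sqrt hs] at h4
    rw [div_mul_eq_mul_div, one_mul, le_div_iff₀ (by positivity)]
    linarith

theorem notZero_coer {G : Metric} {c : ℝ} (hc : 0 < c)
    (h : ∀ φ, IsTest φ → c * (I0 φ + I1 φ) ≤ G.Q φ φ) : ¬ G.ZeroDirichlet := by
  refine notZero (C := 1 / c ^ 2) fun φ hφ ε hε h1 => ?_
  have h2 := (h φ hφ).trans ((le_abs_self _).trans (h1 φ hφ))
  have h3 := sqrt_bound hc hε (add_nonneg (I0_nonneg φ) (I1_nonneg φ)) h2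
  linarith [I1_nonneg φ]

theorem orth_test {φ : P3 → ℝ} (h : IsTest φ) : IsTest (orth φ) := h.sub (mean2_test h)

theorem I0_le_two {φ ψ χ : P3 → ℝ} (hψ : IsTest ψ) (hχ : IsTest χ) (h : ∀ x, φ x = ψ x + χ x) :
    I0 φ ≤ 2 * I0 ψ + 2 * I0 χ := by
  have h1 : I0 φ = ∫ x in Cube, (ψ x + χ x) ^ 2 := by unfold I0; simp only [h]
  rw [h1]
  unfold I0
  rw [← integral_const_mul, ← integral_const_mul, ← integral_add ((int_sq hψ).const_mul 2)
    ((int_sq hχ).const_mul 2)]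
  refine integral_mono (int_sq (hψ.add hχ)) (((int_sq hψ).const_mul 2).add
    ((int_sq hχ).const_mul 2)) fun x => ?_
  simp only [Pi.add_apply]
  nlinarith [sq_nonneg (ψ x - χ x)]

theorem notZero16 : ∃ a : ℝ, ∃ ha : 0 < a, ∃ hb : 0 < 16 * a,
    ¬ (nil a (16 * a) ha hb).ZeroDirichlet := by
  obtain ⟨a, ha, hb, c, hc, hA⟩ := kernA
  obtain ⟨C, hB⟩ := kernB ha hb
  refine ⟨a, ha, hb, notZero (C := 2 * C + 2 * (1 / c ^ 2)) fun φ hφ ε hε h1 => ?_⟩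
  have h2 := hB φ hφ ε hε h1
  have h3 := (hA φ hφ).trans ((le_abs_self _).trans (h1 _ (orth_test hφ)))
  have h4 := sqrt_bound hc hε (add_nonneg (I0_nonneg _) (I1_nonneg _)) h3
  have h5 := I0_le_two (φ := φ) (mean2_test hφ) (orth_test hφ) (fun x => by simp [orth])
  have h6 := I1_nonneg (orth φ)
  linarith

theorem Q_sub_le (G : Metric) (hG : ∀ φ, IsTest φ → 0 ≤ G.Q φ φ) {φ ψ : P3 → ℝ} (hφ : IsTest φ)
    (hψ : IsTest ψ) : G.Q (fun x => φ x - ψ x) (fun x => φ x - ψ x) ≤ 2 * G.Q φ φ + 2 * G.Q ψ ψ := by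
  have e1 : (fun x => φ x - ψ x) = fun x => φ x + (-1) * ψ x := by funext x; ring
  have hn := hψ.smul (-1)
  have hs := hφ.add hn
  have hs' := hφ.add hψ
  have h1 : ∀ χ, IsTest χ → G.Q (fun x => φ x + (-1) * ψ x) χ = G.Q φ χ - G.Q ψ χ := fun χ hχ => by
    rw [Q_add G hφ hn hχ, Q_smul G hψ (-1) hχ]; ring
  have h2 : ∀ χ, IsTest χ → G.Q (fun x => φ x + ψ x) χ = G.Q φ χ + G.Q ψ χ := fun χ hχ =>
    Q_add G hφ hψ hχ
  have h3 := hG _ hs'
  rw [h2 _ hs', Q_symm G φ, Q_symm G ψ, h2 _ hφ, h2 _ hψ] at h3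
  rw [e1, h1 _ hs, Q_symm G φ, Q_symm G ψ, h1 _ hφ, h1 _ hψ]
  rw [Q_symm G ψ φ] at *
  linarith

/-- a minimizing sequence gives a weak eigenfunction -/
theorem zero_of_min (G : Metric) (hG : ∀ φ, IsTest φ → 0 ≤ G.Q φ φ) {φ : ℕ → P3 → ℝ}
    (hφ : ∀ n, IsTest (φ n)) (h0 : ∀ n, I0 (φ n) = 1) {K : ℝ} (h1 : ∀ n, I1 (φ n) ≤ K)
    (hQ : Tendsto (fun n => G.Q (φ n) (φ n)) atTop (𝓝 0)) : G.ZeroDirichlet := by
  obtain ⟨σ, hσ, hc⟩ := rel hφ (C := 1 + K) (fun n => by rw [h0]; linarith [h1 n])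
  obtain ⟨c, C, hc0, hC0, hg⟩ := garding G
  have hQσ : Tendsto (fun n => G.Q (φ (σ n)) (φ (σ n))) atTop (𝓝 0) := hQ.comp hσ.tendsto_atTop
  have hcau : ∀ ε : ℝ, 0 < ε → ∃ N, ∀ m n, N ≤ m → N ≤ n →
      I0 (fun x => φ (σ m) x - φ (σ n) x) + I1 (fun x => φ (σ m) x - φ (σ n) x) ≤ ε := by
    intro ε hε
    have hε1 : 0 < min (ε / 2) (ε * c / (4 * C)) := by positivity
    obtain ⟨N1, hN1⟩ := hc _ hε1
    have hε2 : 0 < ε * c / 16 := by positivity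
    obtain ⟨N2, hN2⟩ := (Metric.tendsto_atTop.1 hQσ) _ hε2
    refine ⟨max N1 N2, fun m n hm hn => ?_⟩
    have a1 := hN1 m n ((le_max_left _ _).trans hm) ((le_max_left _ _).trans hn)
    have a2 := hN2 m ((le_max_right _ _).trans hm)
    have a3 := hN2 n ((le_max_right _ _).trans hn)
    rw [Real.dist_eq, sub_zero] at a2 a3
    have a2' := (le_abs_self _).trans a2.le
    have a3' := (le_abs_self _).trans a3.le
    have a4 := Q_sub_le G hG (hφ (σ m)) (hφ (σ n))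
    have a5 := hg _ ((hφ (σ m)).sub (hφ (σ n)))
    set i0 := I0 (fun x => φ (σ m) x - φ (σ n) x)
    set i1 := I1 (fun x => φ (σ m) x - φ (σ n) x)
    have a6 : i0 ≤ ε / 2 := a1.trans (min_le_left _ _)
    have a7 : i0 ≤ ε * c / (4 * C) := a1.trans (min_le_right _ _)
    have a8 : C * i0 ≤ ε * c / 4 := by
      have := mul_le_mul_of_nonneg_left a7 hC0.le
      rw [show C * (ε * c / (4 * C)) = ε * c / 4 by field_simp] at this
      exact this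
    have a9 : c * i1 ≤ c * (ε / 2) := by linarith
    have a10 := le_of_mul_le_mul_left a9 hc0
    linarith
  obtain ⟨u, p, hup, l0, l1⟩ := lim (fun n => hφ (σ n)) hcau
  obtain ⟨p1, p2, -⟩ := pass G (fun n => hφ (σ n)) hup.1 hup.2.1 l0 l1
  refine ⟨u, p, hup, fun hu => ?_, fun ψ hψ => ?_⟩
  · have h2 : ∫ x in Cube, u x ^ 2 = 0 := by
      rw [integral_eq_zero_of_ae]
      exact hu.mono fun x hx => by simp [hx]
    rw [h2] at p2
    simp only [h0] at p2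
    exact one_ne_zero (tendsto_nhds_unique tendsto_const_nhds p2)
  · refine tendsto_nhds_unique (p1 ψ hψ) ?_
    have h2 : Tendsto (fun n => √(G.Q (φ (σ n)) (φ (σ n)) * G.Q ψ ψ)) atTop (𝓝 0) := by
      have := (hQσ.mul_const (G.Q ψ ψ)).sqrt
      simpa using this
    refine squeeze_zero_norm (fun n => ?_) h2
    rw [Real.norm_eq_abs]
    exact Real.abs_le_sqrt (Q_cs G hG (hφ (σ n)) hψ)

/-- the first Dirichlet eigenvalue cannot jump -/
theorem cross {G : ℝ → Metric} (hG : IsCurve G) (h0 : ∀ φ, IsTest φ → 0 ≤ (G 0).Q φ φ)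
    (h1 : ∃ φ, IsTest φ ∧ (G 1).Q φ φ < 0) : ∃ t ∈ Set.Icc (0 : ℝ) 1, (G t).ZeroDirichlet := by
  set S : Set ℝ := {t | t ∈ Set.Icc (0 : ℝ) 1 ∧ ∃ φ, IsTest φ ∧ (G t).Q φ φ < 0} with hS
  have hS1 : (1 : ℝ) ∈ S := ⟨by simp, h1⟩
  have hbdd : BddBelow S := ⟨0, fun t ht => ht.1.1⟩
  set τ := sInf S with hτ
  have hτ0 : 0 ≤ τ := le_csInf ⟨1, hS1⟩ fun t ht => ht.1.1
  have hτ1 : τ ≤ 1 := csInf_le hbdd hS1
  have hτm : τ ∈ Set.Icc (0 : ℝ) 1 := ⟨hτ0, hτ1⟩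
  have hnn : ∀ φ, IsTest φ → 0 ≤ (G τ).Q φ φ := by
    by_contra hcon
    push Not at hcon
    obtain ⟨φ, hφ, hneg⟩ := hcon
    rcases hτ0.eq_or_lt with h | h
    · rw [← h] at hneg
      exact absurd (h0 φ hφ) (not_le.2 hneg)
    · have hpos : 0 < I0 φ + I1 φ + 1 := by linarith [I0_nonneg φ, I1_nonneg φ]
      obtain ⟨δ, hδ, hcl⟩ := Q_close hG hτm (ε := - (G τ).Q φ φ / (2 * (I0 φ + I1 φ + 1)))
        (by apply div_pos <;> linarith)
      obtain ⟨s, hs1, hs2⟩ : ∃ s, max (τ - δ) 0 < s ∧ s < τ := exists_between (max_lt (by linarith) h)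
      have hs0 : 0 < s := lt_of_le_of_lt (le_max_right _ _) hs1
      have hsm : s ∈ Set.Icc (0 : ℝ) 1 := ⟨hs0.le, by linarith⟩
      have hc := hcl s hsm (by
        rw [abs_lt]; constructor
        · linarith [lt_of_le_of_lt (le_max_left (τ - δ) 0) hs1]
        · linarith) φ hφ
      have h2 : - (G τ).Q φ φ / (2 * (I0 φ + I1 φ + 1)) * (I0 φ + I1 φ) ≤ - (G τ).Q φ φ / 2 := by
        rw [div_mul_eq_mul_div, div_le_div_iff₀ (by linarith) (by norm_num)]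
        nlinarith [I0_nonneg φ, I1_nonneg φ]
      have h3 : (G s).Q φ φ < 0 := by
        have := (le_abs_self _).trans (hc.trans h2)
        linarith
      exact absurd (csInf_le hbdd (show s ∈ S from ⟨hsm, φ, hφ, h3⟩)) (not_le.2 hs2)
  obtain ⟨c, C, hc0, hC0, hg⟩ := garding (G τ)
  have key : ∀ n : ℕ, ∃ φ, IsTest φ ∧ I0 φ = 1 ∧
      (G τ).Q φ φ ≤ c / 2 / ((n : ℝ) + 1) * (1 + I1 φ) := by
    intro n
    have hn : (0 : ℝ) < (n : ℝ) + 1 := by positivity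
    obtain ⟨δ, hδ, hcl⟩ := Q_close hG hτm (ε := c / 2 / ((n : ℝ) + 1)) (by positivity)
    obtain ⟨t, ht, htδ⟩ : ∃ t ∈ S, t < τ + δ := exists_lt_of_csInf_lt ⟨1, hS1⟩ (by linarith)
    obtain ⟨htm, φ, hφ, hneg⟩ := ht
    have htτ : τ ≤ t := csInf_le hbdd ⟨htm, φ, hφ, hneg⟩
    have hcl' := hcl t htm (by rw [abs_lt]; constructor <;> linarith)
    obtain ⟨c', C', hc', hC', hg'⟩ := garding (G t)
    have hI : 0 < I0 φ := by
      rcases (I0_nonneg φ).eq_or_lt with h | h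
      · have := hg' φ hφ
        rw [← h] at this
        nlinarith [I1_nonneg φ, mul_nonneg hc'.le (I1_nonneg φ)]
      · exact h
    have hr : 0 < √(I0 φ) := Real.sqrt_pos.2 hI
    set r := (√(I0 φ))⁻¹ with hrdef
    have hψ := hφ.smul r
    have hr2 : r ^ 2 * I0 φ = 1 := by
      rw [hrdef, inv_pow, Real.sq_sqrt hI.le, inv_mul_cancel₀ hI.ne']
    refine ⟨_, hψ, by rw [I0_smul, hr2], ?_⟩
    have h2 := hcl' _ hψ
    rw [I0_smul, hr2] at h2
    have h3 : (G t).Q (fun x => r * φ x) (fun x => r * φ x) ≤ 0 := by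
      rw [Q_smul (G t) hφ r hψ, Q_symm, Q_smul (G t) hφ r hφ]
      nlinarith [mul_pos (inv_pos.2 hr) (inv_pos.2 hr)]
    have h4 := neg_le_of_abs_le h2
    linarith
  choose φ hφ hφ0 hφQ using key
  have hle : ∀ n : ℕ, c / 2 / ((n : ℝ) + 1) ≤ c / 2 := fun n => by
    rw [div_le_iff₀ (by positivity)]
    nlinarith [(Nat.cast_nonneg n : (0 : ℝ) ≤ n)]
  have hK : ∀ n, I1 (φ n) ≤ 1 + 2 * C / c := by
    intro n
    have h2 := hg _ (hφ n)
    have h3 := hφQ n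
    rw [hφ0] at h2
    have h4 : c / 2 / ((n : ℝ) + 1) * (1 + I1 (φ n)) ≤ c / 2 * (1 + I1 (φ n)) :=
      mul_le_mul_of_nonneg_right (hle n) (by linarith [I1_nonneg (φ n)])
    have h5 : c / 2 * I1 (φ n) ≤ c / 2 + C := by linarith
    rw [← sub_nonneg]
    have h6 : c / 2 * I1 (φ n) ≤ c / 2 * (1 + 2 * C / c) := by
      rw [mul_add, show c / 2 * (2 * C / c) = C by field_simp]; linarith
    linarith [le_of_mul_le_mul_left h6 (by positivity)]
  refine ⟨τ, hτm, zero_of_min (G τ) hnn hφ hφ0 hK ?_⟩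
  have hlim : Tendsto (fun n : ℕ => c / 2 / ((n : ℝ) + 1) * (2 + 2 * C / c)) atTop (𝓝 0) := by
    have h2 : Tendsto (fun n : ℕ => c / 2 / ((n : ℝ) + 1)) atTop (𝓝 0) := by
      have := (tendsto_one_div_add_atTop_nhds_zero_nat (𝕜 := ℝ)).const_mul (c / 2)
      simpa [div_eq_mul_inv] using this
    simpa using h2.mul_const (2 + 2 * C / c)
  refine squeeze_zero (fun n => hnn _ (hφ n)) (fun n => (hφQ n).trans ?_) hlim
  exact mul_le_mul_of_nonneg_left (by linarith [hK n]) (by positivity)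

theorem NS_one {G : Metric} (h : ¬ G.ZeroDirichlet)
    (h' : ∃ l < 0, ∃ w, G.IsSteklov l w ∧ ∃ x ∈ Bdry, w x ≠ 0) : G.NS 1 := by
  obtain ⟨l, hl, w, hw, x, hx, hne⟩ := h'
  refine ⟨h, fun _ => l, fun _ => w, fun _ => ⟨hl, hw⟩, ?_⟩
  rw [Fintype.linearIndependent_iff]
  intro c hc i
  have h1 := congrFun hc ⟨x, hx⟩
  simp only [Fin.sum_univ_one, Pi.smul_apply, smul_eq_mul, Pi.zero_apply] at h1
  rw [Subsingleton.elim i 0]
  exact (mul_eq_zero.1 h1).resolve_right hne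

theorem main : ∃ g₀ g₁ : Metric, g₀.NS 1 ∧ g₁.NS 1 ∧ ∀ G : ℝ → Metric, IsCurve G →
    (∀ x ∈ Slab, (G 0).g x = g₀.g x) → (∀ x ∈ Slab, (G 1).g x = g₁.g x) →
      ∃ t ∈ Set.Icc (0 : ℝ) 1, (G t).ZeroDirichlet := by
  obtain ⟨a, ha, hb, hz⟩ := notZero16
  have h1 : (0 : ℝ) < 1 := one_pos
  have h4 : (0 : ℝ) < 4 * 1 := by norm_num
  obtain ⟨c, hc, hco⟩ := coer h1 h4
  refine ⟨nil 1 (4 * 1) h1 h4, nil a (16 * a) ha hb, NS_one (notZero_coer hc hco) (stek1 h1 h4),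
    NS_one hz (stek4 ha hb), fun G hG e0 e1 => cross hG ?_ ?_⟩
  · intro φ hφ
    rw [Q_congr e0]
    exact le_trans (mul_nonneg hc.le (add_nonneg (I0_nonneg φ) (I1_nonneg φ))) (hco φ hφ)
  · obtain ⟨φ, hφ, hn⟩ := neg ha hb
    exact ⟨φ, hφ, by rw [Q_congr e1]; exact hn⟩

end Pool.Agent.L5helper93.CE
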