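import Pool.Agent.L5helper93.CE.Basic

set_option autoImplicit false

noncomputable section

open MeasureTheory

namespace Pool.Agent.L5helper93.CE

/-- mean over `x 1, x 2` -/
def mean2 (φ : P3 → ℝ) (s : ℝ) : ℝ :=
  ∫ y in (0 : ℝ)..1, ∫ z in (0 : ℝ)..1, φ (WithLp.toLp 2 ![s, y, z])

/-- the part with mean zero -/
def orth (φ : P3 → ℝ) (x : P3) : ℝ := φ x - mean2 φ (x 0)

end Pool.Agent.L5helper93.CE
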