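import Pool.Agent.L5helper93.CE.Basic

set_option autoImplicit false

noncomputable section

open MeasureTheory Matrix Filter Topology
open scoped ContDiff

namespace Pool.Agent.L5helper93.CE

/-- The entries of `nilm` as functions of `x 0`. -/
def Nil_F (a b : ℝ) (i j : Fin 3) (s : ℝ) : ℝ :=
  (!![1, 0, 0; 0, a ^ 2 + b ^ 2 * s ^ 2, - (b ^ 2 * s); 0, - (b ^ 2 * s), b ^ 2] : Matrix (Fin 3) (Fin 3) ℝ) i j

theorem Nil_F_smooth (a b : ℝ) (i j : Fin 3) : ContDiff ℝ ∞ (Nil_F a b i j) := by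
  unfold Nil_F
  fin_cases i <;> fin_cases j <;> simp <;> fun_prop

theorem nilm_smooth (a b : ℝ) (i j : Fin 3) : IsSmooth fun x => nilm a b x i j :=
  isSmooth_zero_coord (Nil_F_smooth a b i j)

theorem nilm_pos {a b : ℝ} (ha : 0 < a) (hb : 0 < b) (x : P3) : (nilm a b x).PosDef := by
  rw [Matrix.posDef_iff_dotProduct_mulVec]
  refine ⟨?_, ?_⟩
  · ext i j
    fin_cases i <;> fin_cases j <;> simp [nilm]
  · intro p hp
    have h1 : star p ⬝ᵥ (nilm a b x) *ᵥ p =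
        p 0 ^ 2 + a ^ 2 * p 1 ^ 2 + b ^ 2 * (p 2 - x 0 * p 1) ^ 2 := by
      simp only [nilm, dotProduct, mulVec, Fin.sum_univ_three]
      simp
      ring
    rw [h1]
    by_contra hcon
    have h2 : p 0 ^ 2 = 0 := by
      nlinarith [sq_nonneg (p 0), sq_nonneg (a * p 1), sq_nonneg (b * (p 2 - x 0 * p 1))]
    have h3 : (a * p 1) ^ 2 = 0 := by
      nlinarith [sq_nonneg (p 0), sq_nonneg (a * p 1), sq_nonneg (b * (p 2 - x 0 * p 1))]
    have h4 : (b * (p 2 - x 0 * p 1)) ^ 2 = 0 := by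
      nlinarith [sq_nonneg (p 0), sq_nonneg (a * p 1), sq_nonneg (b * (p 2 - x 0 * p 1))]
    have h5 : p 0 = 0 := by simpa using h2
    have h6 : p 1 = 0 := by
      have := pow_eq_zero_iff (two_ne_zero) |>.1 h3
      rcases mul_eq_zero.1 this with h | h
      · exact absurd h ha.ne'
      · exact h
    have h7 : p 2 = 0 := by
      have := pow_eq_zero_iff (two_ne_zero) |>.1 h4
      rcases mul_eq_zero.1 this with h | h
      · exact absurd h hb.ne'
      · rw [h6] at h; linarith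
    apply hp
    ext i
    fin_cases i
    · exact h5
    · exact h6
    · exact h7

/-- the nil metric -/
def nil (a b : ℝ) (ha : 0 < a) (hb : 0 < b) : Metric where
  g := nilm a b
  smooth := nilm_smooth a b
  pos := fun x _ => nilm_pos ha hb x

theorem nil_inv {a b : ℝ} (ha : 0 < a) (hb : 0 < b) (x : P3) : (nil a b ha hb).inv x =
    !![1, 0, 0; 0, 1 / a ^ 2, x 0 / a ^ 2; 0, x 0 / a ^ 2, 1 / b ^ 2 + x 0 ^ 2 / a ^ 2] := by
  have ha' := ha.ne'
  have hb' := hb.ne'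
  unfold Metric.inv
  apply Matrix.inv_eq_right_inv
  show nilm a b x * _ = 1
  unfold nilm
  ext i j
  fin_cases i <;> fin_cases j <;> simp [Matrix.mul_apply, Fin.sum_univ_three] <;> field_simp <;> ring

theorem nil_vol {a b : ℝ} (ha : 0 < a) (hb : 0 < b) (x : P3) :
    (nil a b ha hb).vol x = a * b := by
  unfold Metric.vol
  have h : ((nil a b ha hb).g x).det = (a * b) ^ 2 := by
    show (nilm a b x).det = _
    unfold nilm
    rw [Matrix.det_fin_three]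
    simp
    ring
  rw [h, Real.sqrt_sq (by positivity)]

theorem Nil_pd {f : ℝ → ℝ} (hf : Differentiable ℝ f) (k : Fin 3) (x : P3) :
    pd k (fun y : P3 => f (y 0)) x = if k = 0 then deriv f (x 0) else 0 := by
  unfold pd
  have h1 : HasFDerivAt (fun y : P3 => y 0)
      ((EuclideanSpace.proj (0 : Fin 3) : P3 →L[ℝ] ℝ)) x :=
    (EuclideanSpace.proj (0 : Fin 3) : P3 →L[ℝ] ℝ).hasFDerivAt
  have h2 := (hf (x 0)).hasDerivAt.comp_hasFDerivAt x h1
  have h3 : fderiv ℝ (fun y : P3 => f (y 0)) x = _ := h2.fderiv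
  rw [h3]
  fin_cases k <;> simp [bv]

theorem Nil_d1 {a b : ℝ} (ha : 0 < a) (hb : 0 < b) (k i j : Fin 3) (x : P3) :
    (nil a b ha hb).d1 k i j x = if k = 0 then deriv (Nil_F a b i j) (x 0) else 0 :=
  Nil_pd ((Nil_F_smooth a b i j).differentiable (by simp)) k x

/-- The derivatives of the entries. -/
def Nil_D (b : ℝ) (i j : Fin 3) (s : ℝ) : ℝ :=
  if i = 1 ∧ j = 1 then 2 * b ^ 2 * s else
    if (i = 1 ∧ j = 2) ∨ (i = 2 ∧ j = 1) then - b ^ 2 else 0

theorem Nil_deriv (a b : ℝ) (i j : Fin 3) (s : ℝ) : deriv (Nil_F a b i j) s = Nil_D b i j s := by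
  unfold Nil_F Nil_D
  fin_cases i <;> fin_cases j <;> simp
  ring

theorem Nil_d1' {a b : ℝ} (ha : 0 < a) (hb : 0 < b) (k i j : Fin 3) (x : P3) :
    (nil a b ha hb).d1 k i j x = if k = 0 then Nil_D b i j (x 0) else 0 := by
  rw [Nil_d1, Nil_deriv]

theorem Nil_d2 {a b : ℝ} (ha : 0 < a) (hb : 0 < b) (k l i j : Fin 3) (x : P3) :
    (nil a b ha hb).d2 k l i j x =
      if k = 0 ∧ l = 0 ∧ i = 1 ∧ j = 1 then 2 * b ^ 2 else 0 := by
  unfold Metric.d2
  have h : (pd l fun y => (nil a b ha hb).g y i j) =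
      fun y : P3 => (fun s : ℝ => if l = 0 then Nil_D b i j s else 0) (y 0) := by
    funext y
    exact Nil_d1' ha hb l i j y
  rw [h]
  have h2 : Differentiable ℝ (fun s : ℝ => if l = 0 then Nil_D b i j s else 0) := by
    unfold Nil_D
    fin_cases l <;> fin_cases i <;> fin_cases j <;> simp <;> fun_prop
  have h3 := Nil_pd h2 k x
  refine h3.trans ?_
  unfold Nil_D
  fin_cases k <;> fin_cases l <;> fin_cases i <;> fin_cases j <;> simp

theorem Nil_chr {a b : ℝ} (ha : 0 < a) (hb : 0 < b) (m k l : Fin 3) (x : P3) :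
    (nil a b ha hb).chr m k l x = ((if k = 0 then Nil_D b l m (x 0) else 0) +
      (if l = 0 then Nil_D b k m (x 0) else 0) - (if m = 0 then Nil_D b k l (x 0) else 0)) / 2 := by
  unfold Metric.chr
  rw [Nil_d1', Nil_d1', Nil_d1']

/-- The Christoffel symbols. -/
def Nil_G (a b s : ℝ) (n k l : Fin 3) : ℝ :=
  if n = 0 then
    (if k = 1 ∧ l = 1 then - (b ^ 2 * s) else if (k = 1 ∧ l = 2) ∨ (k = 2 ∧ l = 1) then b ^ 2 / 2 else 0)
  else if n = 1 then
    (if (k = 0 ∧ l = 1) ∨ (k = 1 ∧ l = 0) then b ^ 2 * s / (2 * a ^ 2) else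
      if (k = 0 ∧ l = 2) ∨ (k = 2 ∧ l = 0) then - (b ^ 2 / (2 * a ^ 2)) else 0)
  else
    (if (k = 0 ∧ l = 1) ∨ (k = 1 ∧ l = 0) then b ^ 2 * s ^ 2 / (2 * a ^ 2) - 1 / 2 else
      if (k = 0 ∧ l = 2) ∨ (k = 2 ∧ l = 0) then - (b ^ 2 * s / (2 * a ^ 2)) else 0)

theorem Nil_Gam {a b : ℝ} (ha : 0 < a) (hb : 0 < b) (n k l : Fin 3) (x : P3) :
    (nil a b ha hb).Gam n k l x = Nil_G a b (x 0) n k l := by
  have ha' := ha.ne'
  have hb' := hb.ne'
  unfold Metric.Gam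
  simp only [Nil_chr, nil_inv, Fin.sum_univ_three, Nil_D, Nil_G]
  fin_cases n <;> fin_cases k <;> fin_cases l <;> simp <;> field_simp <;> ring

/-- The curvature tensor. -/
def Nil_R (a b s : ℝ) (i k l m : Fin 3) : ℝ :=
  ((if k = 0 ∧ l = 0 ∧ i = 1 ∧ m = 1 then 2 * b ^ 2 else 0) +
    (if i = 0 ∧ m = 0 ∧ k = 1 ∧ l = 1 then 2 * b ^ 2 else 0) -
    (if k = 0 ∧ m = 0 ∧ i = 1 ∧ l = 1 then 2 * b ^ 2 else 0) -
    (if i = 0 ∧ l = 0 ∧ k = 1 ∧ m = 1 then 2 * b ^ 2 else 0)) / 2 +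
    ((Nil_G a b s 0 k l * Nil_G a b s 0 i m - Nil_G a b s 0 k m * Nil_G a b s 0 i l) +
    (a ^ 2 + b ^ 2 * s ^ 2) *
      (Nil_G a b s 1 k l * Nil_G a b s 1 i m - Nil_G a b s 1 k m * Nil_G a b s 1 i l) +
    (- (b ^ 2 * s)) *
      (Nil_G a b s 1 k l * Nil_G a b s 2 i m - Nil_G a b s 1 k m * Nil_G a b s 2 i l) +
    (- (b ^ 2 * s)) *
      (Nil_G a b s 2 k l * Nil_G a b s 1 i m - Nil_G a b s 2 k m * Nil_G a b s 1 i l) +
    b ^ 2 *
      (Nil_G a b s 2 k l * Nil_G a b s 2 i m - Nil_G a b s 2 k m * Nil_G a b s 2 i l))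

theorem Nil_Riem {a b : ℝ} (ha : 0 < a) (hb : 0 < b) (i k l m : Fin 3) (x : P3) :
    (nil a b ha hb).Riem i k l m x = Nil_R a b (x 0) i k l m := by
  unfold Metric.Riem Nil_R
  simp only [Nil_d2, Nil_Gam, Fin.sum_univ_three]
  have hg : (nil a b ha hb).g x = nilm a b x := rfl
  rw [hg]
  simp only [nilm]
  simp
  ring

theorem nil_scal {a b : ℝ} (ha : 0 < a) (hb : 0 < b) (x : P3) :
    (nil a b ha hb).scal x = - (b ^ 2 / (2 * a ^ 2)) := by
  have ha' := ha.ne'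
  have hb' := hb.ne'
  unfold Metric.scal
  simp only [Nil_Riem, nil_inv, Fin.sum_univ_three]
  simp [Nil_R, Nil_G]
  field_simp
  ring

end Pool.Agent.L5helper93.CE
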