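import Pool.Agent.L5helper93.CE.Nil

set_option autoImplicit false

noncomputable section

open MeasureTheory Matrix Filter Topology
open scoped ContDiff

namespace Pool.Agent.L5helper93.CE

theorem Stek_pd {f : ℝ → ℝ} {x : P3} (hf : DifferentiableAt ℝ f (x 0)) (i : Fin 3) :
    pd i (fun y : P3 => f (y 0)) x = if i = 0 then deriv f (x 0) else 0 := by
  have h : HasFDerivAt (fun y : P3 => f (y 0))
      ((deriv f (x 0)) • (EuclideanSpace.proj 0 : P3 →L[ℝ] ℝ)) x :=
    hf.hasDerivAt.comp_hasFDerivAt x (EuclideanSpace.proj (0 : Fin 3) : P3 →L[ℝ] ℝ).hasFDerivAt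
  unfold pd
  rw [h.fderiv]
  have : (deriv f (x 0) • (EuclideanSpace.proj 0 : P3 →L[ℝ] ℝ)) (bv i) = deriv f (x 0) * (bv i) 0 := rfl
  rw [this]
  unfold bv
  by_cases hi : i = 0
  · subst hi
    simp
  · have h2 : (EuclideanSpace.single i (1 : ℝ) : P3) 0 = 0 := by
      simp [Ne.symm hi]
    rw [h2, if_neg hi, mul_zero]

theorem Stek_inv0 {a b : ℝ} (ha : 0 < a) (hb : 0 < b) (x : P3) (i : Fin 3) :
    (nil a b ha hb).inv x i 0 = if i = 0 then 1 else 0 := by
  rw [nil_inv]
  fin_cases i <;> simp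

theorem Stek_pd_const (c : ℝ) (i : Fin 3) (x : P3) : pd i (fun _ => c) x = 0 := by
  unfold pd
  rw [fderiv_fun_const]
  rfl

theorem nil_confLap {a b : ℝ} (ha : 0 < a) (hb : 0 < b) {f : ℝ → ℝ} (hf : ContDiff ℝ ∞ f) (x : P3) :
    (nil a b ha hb).confLap (fun y => f (y 0)) x =
      - deriv (deriv f) (x 0) - (b / (4 * a)) ^ 2 * f (x 0) := by
  have hab : a * b ≠ 0 := by positivity
  have hfd : Differentiable ℝ f := hf.differentiable (by simp)
  have hfd2 : Differentiable ℝ (deriv f) := by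
    have h2 : ContDiff ℝ ∞ (deriv f) := by
      have := contDiff_infty_iff_deriv.1 hf
      exact this.2
    exact h2.differentiable (by simp)
  have hgrad : ∀ y i, (nil a b ha hb).grad (fun y => f (y 0)) y i = if i = 0 then deriv f (y 0) else 0 := by
    intro y i
    unfold Metric.grad
    rw [Finset.sum_eq_single (0 : Fin 3)]
    · rw [Stek_pd (hfd _), Stek_inv0, if_pos rfl]
      split_ifs <;> simp
    · intro j _ hj
      rw [Stek_pd (hfd _), if_neg hj, mul_zero]
    · intro h; exact absurd (Finset.mem_univ _) h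
  have hdiv : (nil a b ha hb).div ((nil a b ha hb).grad (fun y => f (y 0))) x = deriv (deriv f) (x 0) := by
    unfold Metric.div
    have e : ∀ i, pd i (fun y => (nil a b ha hb).vol y * (nil a b ha hb).grad (fun y => f (y 0)) y i) x =
        if i = 0 then a * b * deriv (deriv f) (x 0) else 0 := by
      intro i
      simp_rw [nil_vol, hgrad]
      by_cases hi : i = 0
      · subst hi
        simp only [if_true]
        have h1 := Stek_pd (f := fun s => a * b * deriv f s) (x := x) ((hfd2 _).const_mul _) 0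
        simp only [if_true] at h1
        rw [h1, deriv_const_mul _ (hfd2 _)]
      · simp only [if_neg hi, mul_zero]
        exact Stek_pd_const 0 i x
    rw [Finset.sum_congr rfl fun i _ => e i, Finset.sum_ite_eq' Finset.univ (0 : Fin 3), if_pos (Finset.mem_univ _), nil_vol]
    field_simp
  unfold Metric.confLap
  rw [hdiv, nil_scal]
  have ha' : a ≠ 0 := ha.ne'
  field_simp
  ring

theorem nil_confBdry {a b : ℝ} (ha : 0 < a) (hb : 0 < b) {f : ℝ → ℝ} (hf : ContDiff ℝ ∞ f) (x : P3) :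
    (nil a b ha hb).confBdry (fun y => f (y 0)) x = sgn x * deriv f (x 0) := by
  have hfd : Differentiable ℝ f := hf.differentiable (by simp)
  have hnor : ∀ s y i, (nil a b ha hb).nor s y i = if i = 0 then s else 0 := by
    intro s y i
    unfold Metric.nor
    rw [Stek_inv0, Stek_inv0, if_pos rfl, Real.sqrt_one]
    split_ifs <;> simp
  have hmean : (nil a b ha hb).mean x = 0 := by
    unfold Metric.mean Metric.div
    simp_rw [nil_vol, hnor]
    rw [Finset.sum_eq_zero, zero_div]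
    intro i _
    exact Stek_pd_const _ i x
  unfold Metric.confBdry
  rw [hmean, mul_zero, zero_mul, add_zero, Finset.sum_eq_single (0 : Fin 3)]
  · rw [hnor, Stek_pd (hfd _), if_pos rfl, if_pos rfl]
  · intro j _ hj
    rw [hnor, if_neg hj, zero_mul]
  · intro h; exact absurd (Finset.mem_univ _) h

theorem Stek_sgn1 {x : P3} (h : x 0 = 1) : sgn x = 1 := by unfold sgn; rw [if_pos h]

theorem Stek_sgn0 {x : P3} (h : x 0 = 0) : sgn x = -1 := by
  unfold sgn; rw [if_neg (by rw [h]; norm_num)]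

/-- `cos (x₀ - 1/2)`, the eigenvalue is `- tan (1 / 2)` -/
theorem stek1 {a : ℝ} (ha : 0 < a) (hb : 0 < 4 * a) : ∃ l < 0, ∃ w, (nil a (4 * a) ha hb).IsSteklov l w ∧
    ∃ x ∈ Bdry, w x ≠ 0 := by
  have hpi := Real.pi_gt_three
  have hc : 0 < Real.cos (1 / 2) := Real.cos_pos_of_mem_Ioo ⟨by linarith, by linarith⟩
  have hs : 0 < Real.sin (1 / 2) := Real.sin_pos_of_pos_of_lt_pi (by norm_num) (by linarith)
  have hf : ContDiff ℝ ∞ fun s : ℝ => Real.cos (s - 1 / 2) := by fun_prop
  have d1 : deriv (fun s : ℝ => Real.cos (s - 1 / 2)) = fun s => - Real.sin (s - 1 / 2) := by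
    funext s
    have h : HasDerivAt (fun s : ℝ => Real.cos (s - 1 / 2)) (- Real.sin (s - 1 / 2) * 1) s :=
      ((hasDerivAt_id s).sub_const (1 / 2)).cos
    rw [h.deriv, mul_one]
  have d2 : deriv (fun s : ℝ => - Real.sin (s - 1 / 2)) = fun s => - Real.cos (s - 1 / 2) := by
    funext s
    have h : HasDerivAt (fun s : ℝ => - Real.sin (s - 1 / 2)) (- (Real.cos (s - 1 / 2) * 1)) s :=
      (((hasDerivAt_id s).sub_const (1 / 2)).sin).neg
    rw [h.deriv, mul_one]
  refine ⟨- (Real.sin (1 / 2) / Real.cos (1 / 2)), by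
    have := div_pos hs hc
    linarith, fun x => Real.cos (x 0 - 1 / 2), ⟨isSmooth_zero_coord hf, ?_, ?_⟩, 0, Or.inl rfl, ?_⟩
  · intro x _
    have := nil_confLap ha hb hf x
    rw [this, d1, d2]
    have ha' : a ≠ 0 := ha.ne'
    have e : 4 * a / (4 * a) = 1 := by field_simp
    rw [e]
    ring
  · intro x hx
    have := nil_confBdry ha hb hf x
    rw [this, d1]
    simp only
    rcases hx with h | h
    · rw [Stek_sgn0 h, h, show (0 : ℝ) - 1 / 2 = -(1 / 2) by ring, Real.sin_neg, Real.cos_neg]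
      field_simp
    · rw [Stek_sgn1 h, h, show (1 : ℝ) - 1 / 2 = 1 / 2 by ring]
      field_simp
  · have : (0 : P3) 0 = 0 := rfl
    simp only
    rw [this, show (0 : ℝ) - 1 / 2 = -(1 / 2) by ring, Real.cos_neg]
    exact hc.ne'

/-- `sin (4 (x₀ - 1/2))`, the eigenvalue is `4 cot 2` -/
theorem stek4 {a : ℝ} (ha : 0 < a) (hb : 0 < 16 * a) : ∃ l < 0, ∃ w,
    (nil a (16 * a) ha hb).IsSteklov l w ∧ ∃ x ∈ Bdry, w x ≠ 0 := by
  have hpi := Real.pi_gt_three
  have hpi2 := Real.pi_lt_d2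
  have hc : Real.cos 2 < 0 := Real.cos_neg_of_pi_div_two_lt_of_lt (by linarith) (by linarith)
  have hs : 0 < Real.sin 2 := Real.sin_pos_of_pos_of_lt_pi (by norm_num) (by linarith)
  have hf : ContDiff ℝ ∞ fun s : ℝ => Real.sin (4 * (s - 1 / 2)) := by fun_prop
  have d1 : deriv (fun s : ℝ => Real.sin (4 * (s - 1 / 2))) = fun s => 4 * Real.cos (4 * (s - 1 / 2)) := by
    funext s
    have h : HasDerivAt (fun s : ℝ => Real.sin (4 * (s - 1 / 2))) (Real.cos (4 * (s - 1 / 2)) * (4 * 1)) s :=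
      (((hasDerivAt_id s).sub_const (1 / 2)).const_mul 4).sin
    rw [h.deriv]; ring
  have d2 : deriv (fun s : ℝ => 4 * Real.cos (4 * (s - 1 / 2))) = fun s => - 16 * Real.sin (4 * (s - 1 / 2)) := by
    funext s
    have h : HasDerivAt (fun s : ℝ => 4 * Real.cos (4 * (s - 1 / 2)))
        (4 * (- Real.sin (4 * (s - 1 / 2)) * (4 * 1))) s :=
      ((((hasDerivAt_id s).sub_const (1 / 2)).const_mul 4).cos).const_mul 4
    rw [h.deriv]; ring
  refine ⟨4 * (Real.cos 2 / Real.sin 2), by
    have := div_neg_of_neg_of_pos hc hs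
    linarith, fun x => Real.sin (4 * (x 0 - 1 / 2)), ⟨isSmooth_zero_coord hf, ?_, ?_⟩, 0, Or.inl rfl, ?_⟩
  · intro x _
    have := nil_confLap ha hb hf x
    rw [this, d1, d2]
    have ha' : a ≠ 0 := ha.ne'
    have e : 16 * a / (4 * a) = 4 := by field_simp; norm_num
    rw [e]
    ring
  · intro x hx
    have := nil_confBdry ha hb hf x
    rw [this, d1]
    simp only
    have hs' := hs.ne'
    rcases hx with h | h
    · rw [Stek_sgn0 h, h, show 4 * ((0 : ℝ) - 1 / 2) = -2 by ring, Real.sin_neg, Real.cos_neg]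
      field_simp
    · rw [Stek_sgn1 h, h, show 4 * ((1 : ℝ) - 1 / 2) = 2 by ring]
      field_simp
  · have : (0 : P3) 0 = 0 := rfl
    simp only
    rw [this, show 4 * ((0 : ℝ) - 1 / 2) = -2 by ring, Real.sin_neg]
    exact neg_ne_zero.2 hs.ne'

end Pool.Agent.L5helper93.CE
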